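import Mathlib
import Pool.Agent.H902R3.Task469C

set_option autoImplicit false

/-!
# Primes between the squares of consecutive primes: the size of `N n` in terms of the gap
-/

namespace Pool.Agent.T63.Broc

open Finset

/-- The primes, numbered from `P 0 = 2`. -/
noncomputable def P (n : ℕ) : ℕ := Nat.nth Nat.Prime n

/-- The number of primes between `P n ^ 2` and `P (n + 1) ^ 2`. -/
noncomputable def N (n : ℕ) : ℕ := {q : ℕ | q.Prime ∧ P n ^ 2 < q ∧ q < P (n + 1) ^ 2}.ncard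

theorem P_prime (n : ℕ) : (P n).Prime := Nat.prime_nth_prime n

theorem P_mono {m n : ℕ} (h : m ≤ n) : P m ≤ P n :=
  (Nat.nth_strictMono Nat.infinite_setOfPred_prime).monotone h

theorem P_lt {m n : ℕ} (h : m < n) : P m < P n :=
  (Nat.nth_strictMono Nat.infinite_setOfPred_prime) h

theorem le_P (n : ℕ) : n ≤ P n :=
  (Nat.nth_strictMono Nat.infinite_setOfPred_prime).le_apply

theorem pi_P (n : ℕ) : Nat.primeCounting (P n) = n + 1 := by
  unfold Nat.primeCounting Nat.primeCounting' P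
  rw [Nat.count_succ, Nat.count_nth_of_infinite Nat.infinite_setOfPred_prime,
    if_pos (Nat.prime_nth_prime n)]

theorem P_succ_le (n : ℕ) : P (n + 1) ≤ 2 * P n := by
  obtain ⟨q, hq, h1, h2⟩ := Nat.exists_prime_lt_and_le_two_mul (P n) (P_prime n).ne_zero
  refine le_trans ?_ h2
  by_contra hlt
  push Not at hlt
  have h3 : Nat.count Nat.Prime q ≤ n := by
    by_contra hh
    push Not at hh
    have := Nat.nth_count hq
    have h4 : P (n + 1) ≤ P (Nat.count Nat.Prime q) := P_mono hh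
    unfold P at *
    omega
  have h5 : P (Nat.count Nat.Prime q) ≤ P n := P_mono h3
  have h6 : P (Nat.count Nat.Prime q) = q := Nat.nth_count hq
  omega

theorem tendsto_P : Filter.Tendsto (fun n : ℕ => (P n : ℝ)) Filter.atTop Filter.atTop := by
  refine Filter.tendsto_atTop_mono (fun n => ?_) (tendsto_natCast_atTop_atTop (R := ℝ))
  exact_mod_cast le_P n

/-- Chebyshev's upper bound. -/
theorem ratio_ge : ∀ᶠ n : ℕ in Filter.atTop, ((n : ℝ) + 1) / 2 ≤ (P n : ℝ) / Real.log (P n) := by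
  have h4 : Real.log 4 < 1.4 := by
    have : Real.log 4 = 2 * Real.log 2 := by
      rw [show (4 : ℝ) = 2 ^ 2 by norm_num, Real.log_pow]; norm_num
    rw [this]; have := Real.log_two_lt_d9; linarith
  have h := tendsto_P.eventually (Chebyshev.eventually_primeCounting_le (ε := 0.6) (by norm_num))
  filter_upwards [h, tendsto_P.eventually_ge_atTop 2] with n hn h2
  rw [Nat.floor_natCast, pi_P] at hn
  push_cast at hn
  have hl : 0 < Real.log (P n) := Real.log_pos (by linarith)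
  have h5 : (Real.log 4 + 0.6) * (P n : ℝ) / Real.log (P n) ≤ 2 * ((P n : ℝ) / Real.log (P n)) := by
    rw [← mul_div_assoc]
    gcongr
    linarith
  linarith

/-- Chebyshev's lower bound. -/
theorem ratio_le : ∀ᶠ n : ℕ in Filter.atTop, (P n : ℝ) / Real.log (P n) ≤ 2 * ((n : ℝ) + 1) := by
  have h0 : ∀ᶠ x : ℝ in Filter.atTop, Real.log (x + 1) ≤ 0.1 * x := by
    have h1 := (Real.isLittleO_log_id_atTop).bound (show (0 : ℝ) < 0.05 by norm_num)
    have h2 := (Filter.tendsto_atTop_add_const_right _ (1 : ℝ) Filter.tendsto_id).eventually h1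
    filter_upwards [h2, Filter.eventually_ge_atTop (1 : ℝ)] with x hx hx1
    simp only [id, Real.norm_eq_abs] at hx
    rw [abs_of_nonneg (Real.log_nonneg (by linarith)), abs_of_nonneg (by linarith)] at hx
    linarith
  filter_upwards [tendsto_P.eventually h0, tendsto_P.eventually_ge_atTop 2] with n hn h2
  have hl : 0 < Real.log (P n) := Real.log_pos (by linarith)
  have h3 := Chebyshev.pi_ge (P n)
  rw [pi_P, div_le_iff₀ hl] at h3
  rw [div_le_iff₀ hl]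
  push_cast at h3
  have h5 := Real.log_two_gt_d9
  nlinarith

/-- Brun-Titchmarsh: `N n ≤ 18 (n + 1) (P (n + 1) - P n)`. -/
theorem N_le : ∀ᶠ n : ℕ in Filter.atTop,
    (N n : ℝ) ≤ 18 * ((n : ℝ) + 1) * ((P (n + 1) : ℝ) - P n) := by
  obtain ⟨Y₀, hY₀, hbt⟩ := Pool.Agent.H902R3.C469.bt2 1 one_pos
  filter_upwards [ratio_le, Filter.eventually_ge_atTop (Y₀ + 2)] with n hn hn0
  have hP : n ≤ P n := le_P n
  have hlt : P n < P (n + 1) := P_lt (Nat.lt_succ_self n)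
  have h2 : P (n + 1) ≤ 2 * P n := P_succ_le n
  obtain ⟨Y, hY⟩ : ∃ Y, P (n + 1) ^ 2 = P n ^ 2 + Y :=
    Nat.exists_eq_add_of_le (Nat.pow_le_pow_left hlt.le 2)
  have hYP : P n ≤ Y := by nlinarith
  have h3 := hbt (P n ^ 2) Y (by omega)
  have hsub : {q : ℕ | q.Prime ∧ P n ^ 2 < q ∧ q < P (n + 1) ^ 2} ⊆
      (((Ioc (P n ^ 2) (P n ^ 2 + Y)).filter Nat.Prime : Finset ℕ) : Set ℕ) := by
    rintro q ⟨hq, h4, h5⟩
    simp only [coe_filter, mem_Ioc, Set.mem_setOf_eq]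
    exact ⟨⟨h4, by omega⟩, hq⟩
  have h4 : N n ≤ ((Ioc (P n ^ 2) (P n ^ 2 + Y)).filter Nat.Prime).card := by
    rw [← Set.ncard_coe_finset]
    exact Set.ncard_le_ncard hsub (Finset.finite_toSet _)
  have hP2 : (2 : ℝ) ≤ P n := by exact_mod_cast (P_prime n).two_le
  have hl : 0 < Real.log (P n) := Real.log_pos (by linarith)
  have hll : Real.log (P n) ≤ Real.log Y := Real.log_le_log (by linarith) (by exact_mod_cast hYP)
  have hYr : (Y : ℝ) = ((P (n + 1) : ℝ) - P n) * ((P (n + 1) : ℝ) + P n) := by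
    have : ((P (n + 1) : ℝ)) ^ 2 = (P n : ℝ) ^ 2 + Y := by exact_mod_cast hY
    linarith [this, show ((P (n + 1) : ℝ) - P n) * ((P (n + 1) : ℝ) + P n) =
      (P (n + 1) : ℝ) ^ 2 - (P n : ℝ) ^ 2 by ring]
  have hg : (0 : ℝ) ≤ (P (n + 1) : ℝ) - P n := by
    have : (P n : ℝ) ≤ P (n + 1) := by exact_mod_cast hlt.le
    linarith
  have h2r : (P (n + 1) : ℝ) ≤ 2 * P n := by exact_mod_cast h2
  calc (N n : ℝ) ≤ ((Ioc (P n ^ 2) (P n ^ 2 + Y)).filter Nat.Prime).card := by exact_mod_cast h4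
    _ ≤ (2 + 1) * Y / Real.log Y := h3
    _ ≤ (2 + 1) * Y / Real.log (P n) := by gcongr
    _ ≤ (2 + 1) * (((P (n + 1) : ℝ) - P n) * (3 * P n)) / Real.log (P n) := by
        rw [hYr]; gcongr; linarith
    _ = 9 * ((P (n + 1) : ℝ) - P n) * ((P n : ℝ) / Real.log (P n)) := by ring
    _ ≤ 9 * ((P (n + 1) : ℝ) - P n) * (2 * ((n : ℝ) + 1)) := by gcongr
    _ = 18 * ((n : ℝ) + 1) * ((P (n + 1) : ℝ) - P n) := by ring

/-- The lower bound `c (n + 1) (P (n + 1) - P n) ≤ N n`. -/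
def Good (c : ℝ) (n : ℕ) : Prop := c * ((n : ℝ) + 1) * ((P (n + 1) : ℝ) - P n) ≤ N n

/-- The lower bound holds with few exceptions. -/
def Exc : Prop := ∃ c C : ℝ, 0 < c ∧ ∀ X : ℝ, 1 ≤ X →
  ({n : ℕ | (P n : ℝ) ≤ X ∧ ¬ Good c n}.ncard : ℝ) ≤ C * X ^ (0.612 : ℝ)

theorem fin_le (X : ℝ) (Q : ℕ → Prop) (k : ℕ) : {n : ℕ | (P (n + k) : ℝ) ≤ X ∧ Q n}.Finite := by
  refine (Set.finite_Iic ⌊X⌋₊).subset ?_
  rintro n ⟨h1, -⟩
  refine Nat.le_floor (le_trans ?_ h1)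
  exact_mod_cast (Nat.le_add_right n k).trans (le_P (n + k))

/-- Chains of `k` with an exception are few. -/
theorem bad_chains (hE : Exc) : ∃ c : ℝ, 0 < c ∧ ∀ k : ℕ, ∃ C : ℝ, ∀ X : ℝ, 1 ≤ X →
    ({n : ℕ | (P (n + k) : ℝ) ≤ X ∧ ∃ i < k, ¬ Good c (n + i)}.ncard : ℝ) ≤
      C * X ^ (0.612 : ℝ) := by
  obtain ⟨c, C, hc, hC⟩ := hE
  refine ⟨c, hc, fun k => ⟨k * C, fun X hX => ?_⟩⟩
  have hB : {n : ℕ | (P n : ℝ) ≤ X ∧ ¬ Good c n}.Finite := fin_le X _ 0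
  have hsub : {n : ℕ | (P (n + k) : ℝ) ≤ X ∧ ∃ i < k, ¬ Good c (n + i)} ⊆
      ((Finset.range k).biUnion fun i => (hB.toFinset.image fun n => n - i) : Finset ℕ) := by
    rintro n ⟨h1, i, hi, h2⟩
    simp only [Finset.coe_biUnion, Set.mem_iUnion, Finset.coe_image, Set.mem_image,
      Finset.mem_coe, Finset.mem_range, Set.Finite.mem_toFinset, Set.mem_setOf_eq]
    refine ⟨i, hi, n + i, ⟨le_trans ?_ h1, h2⟩, by omega⟩
    exact_mod_cast P_mono (by omega)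
  have h3 := Set.ncard_le_ncard hsub (Finset.finite_toSet _)
  rw [Set.ncard_coe_finset] at h3
  have h4 : ((Finset.range k).biUnion fun i => (hB.toFinset.image fun n => n - i)).card ≤
      k * hB.toFinset.card := by
    refine (Finset.card_biUnion_le).trans ?_
    calc ∑ i ∈ Finset.range k, (hB.toFinset.image fun n => n - i).card
        ≤ ∑ i ∈ Finset.range k, hB.toFinset.card :=
          Finset.sum_le_sum fun i _ => Finset.card_image_le
      _ = k * hB.toFinset.card := by simp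
  have h5 : hB.toFinset.card = {n : ℕ | (P n : ℝ) ≤ X ∧ ¬ Good c n}.ncard :=
    (Set.ncard_eq_toFinset_card _ hB).symm
  have h6 : ({n : ℕ | (P (n + k) : ℝ) ≤ X ∧ ∃ i < k, ¬ Good c (n + i)}.ncard : ℝ) ≤
      k * ({n : ℕ | (P n : ℝ) ≤ X ∧ ¬ Good c n}.ncard : ℝ) := by
    rw [← h5]; exact_mod_cast h3.trans h4
  calc _ ≤ k * ({n : ℕ | (P n : ℝ) ≤ X ∧ ¬ Good c n}.ncard : ℝ) := h6
    _ ≤ k * (C * X ^ (0.612 : ℝ)) := by
        have := hC X hX
        gcongr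
    _ = k * C * X ^ (0.612 : ℝ) := by ring

theorem pow_ev (C : ℝ) : ∀ᶠ X : ℝ in Filter.atTop,
    C * (4 * X) ^ (0.612 : ℝ) ≤ X ^ (7 / 8 : ℝ) / 2 := by
  have h1 : Filter.Tendsto (fun X : ℝ => X ^ (7 / 8 - 0.612 : ℝ)) Filter.atTop Filter.atTop :=
    tendsto_rpow_atTop (by norm_num)
  filter_upwards [h1.eventually_ge_atTop (2 * |C| * 4 ^ (0.612 : ℝ)),
    Filter.eventually_gt_atTop (0 : ℝ)] with X hX hX0
  have h2 : X ^ (7 / 8 : ℝ) = X ^ (7 / 8 - 0.612 : ℝ) * X ^ (0.612 : ℝ) := by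
    rw [← Real.rpow_add hX0]; norm_num
  have h3 : 0 < X ^ (0.612 : ℝ) := Real.rpow_pos_of_pos hX0 _
  rw [Real.mul_rpow (by norm_num) hX0.le, h2]
  have h4 : C ≤ |C| := le_abs_self C
  have h5 : (0 : ℝ) < 4 ^ (0.612 : ℝ) := by positivity
  calc C * (4 ^ (0.612 : ℝ) * X ^ (0.612 : ℝ)) ≤ |C| * (4 ^ (0.612 : ℝ) * X ^ (0.612 : ℝ)) := by
        gcongr
    _ = (2 * |C| * 4 ^ (0.612 : ℝ)) * X ^ (0.612 : ℝ) / 2 := by ring
    _ ≤ X ^ (7 / 8 - 0.612 : ℝ) * X ^ (0.612 : ℝ) / 2 := by gcongr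

/-- Any rich set of chains contains many chains without exceptions. -/
theorem transfer (hE : Exc) : ∃ c : ℝ, 0 < c ∧ ∀ k : ℕ, ∀ᶠ X : ℝ in Filter.atTop,
    ∀ Q : ℕ → Prop, X ^ (7 / 8 : ℝ) ≤ ({n : ℕ | (P (n + k) : ℝ) ≤ 4 * X ∧ Q n}.ncard : ℝ) →
    X ^ (7 / 8 : ℝ) / 2 ≤
      ({n : ℕ | (P (n + k) : ℝ) ≤ 4 * X ∧ Q n ∧ ∀ i < k, Good c (n + i)}.ncard : ℝ) := by
  obtain ⟨c, hc, h⟩ := bad_chains hE
  refine ⟨c, hc, fun k => ?_⟩
  obtain ⟨C, hC⟩ := h k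
  filter_upwards [pow_ev C, Filter.eventually_ge_atTop (1 : ℝ)] with X hX hX1 Q hQ
  have h1 := hC (4 * X) (by linarith)
  have hsub : {n : ℕ | (P (n + k) : ℝ) ≤ 4 * X ∧ Q n} ⊆
      {n : ℕ | (P (n + k) : ℝ) ≤ 4 * X ∧ Q n ∧ ∀ i < k, Good c (n + i)} ∪
      {n : ℕ | (P (n + k) : ℝ) ≤ 4 * X ∧ ∃ i < k, ¬ Good c (n + i)} := by
    rintro n ⟨h2, h3⟩
    by_cases h4 : ∀ i < k, Good c (n + i)
    · exact Or.inl ⟨h2, h3, h4⟩
    · push Not at h4
      exact Or.inr ⟨h2, h4⟩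
  have h2 := (Set.ncard_le_ncard hsub ((fin_le _ _ k).union (fin_le _ _ k))).trans
    (Set.ncard_union_le _ _)
  have h3 : ({n : ℕ | (P (n + k) : ℝ) ≤ 4 * X ∧ Q n}.ncard : ℝ) ≤
      ({n : ℕ | (P (n + k) : ℝ) ≤ 4 * X ∧ Q n ∧ ∀ i < k, Good c (n + i)}.ncard : ℝ) +
      ({n : ℕ | (P (n + k) : ℝ) ≤ 4 * X ∧ ∃ i < k, ¬ Good c (n + i)}.ncard : ℝ) := by
    exact_mod_cast h2
  linarith

end Pool.Agent.T63.Broc
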