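import Pool.Agent.T63.BrocA
import Pool.Agent.H89B.Exc

set_option autoImplicit false

/-!
# The lower bound for `N n` with few exceptions
-/

namespace Pool.Agent.T63.Broc

open Finset Pool.Agent.H89B

theorem consec (n : ℕ) : Consecutive (P n) (P (n + 1)) := by
  refine ⟨P_prime n, P_prime (n + 1), P_lt (Nat.lt_succ_self n), fun r h1 h2 hr => ?_⟩
  have h3 : P (Nat.count Nat.Prime r) = r := Nat.nth_count hr
  have hm : StrictMono P := Nat.nth_strictMono Nat.infinite_setOfPred_prime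
  rw [← h3] at h1 h2
  have h4 := hm.lt_iff_lt.1 h1
  have h5 := hm.lt_iff_lt.1 h2
  omega

theorem primesIn_eq_N (n : ℕ) : primesIn ((P n : ℝ) ^ 2) ((P (n + 1) : ℝ) ^ 2) = N n := by
  unfold primesIn N
  congr 1
  ext r
  simp only [Set.mem_ofPred_eq]
  constructor
  · rintro ⟨h1, h2, h3⟩
    have h2' : P n ^ 2 < r := by exact_mod_cast h2
    have h3' : r ≤ P (n + 1) ^ 2 := by exact_mod_cast h3
    refine ⟨h1, h2', lt_of_le_of_ne h3' ?_⟩
    rintro rfl
    exact Nat.Prime.not_prime_pow (le_refl 2) h1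
  · rintro ⟨h1, h2, h3⟩
    exact ⟨h1, by exact_mod_cast h2, by exact_mod_cast h3.le⟩

theorem good_of_rich {c η : ℝ} (hc : 0 < c) (hη : 0 < η) (n : ℕ)
    (hn : ((n : ℝ) + 1) / 2 ≤ (P n : ℝ) / Real.log (P n)) (h : Rich c η (P n) (P (n + 1))) :
    Good c n := by
  have hP2 : (2 : ℝ) ≤ P n := by exact_mod_cast (P_prime n).two_le
  have hlt : (P n : ℝ) + 1 ≤ P (n + 1) := by exact_mod_cast P_lt (Nat.lt_succ_self n)
  have hl : 0 < Real.log (P n) := Real.log_pos (by linarith)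
  have h1 := h ((P n : ℝ) ^ 2) ((P (n + 1) : ℝ) ^ 2 - (P n : ℝ) ^ 2) ?_ le_rfl (by linarith)
  · rw [show (P n : ℝ) ^ 2 + ((P (n + 1) : ℝ) ^ 2 - (P n : ℝ) ^ 2) = (P (n + 1) : ℝ) ^ 2 by ring,
      primesIn_eq_N] at h1
    unfold Good
    refine le_trans ?_ h1
    have hg : (0 : ℝ) ≤ (P (n + 1) : ℝ) - P n := by linarith
    calc c * ((n : ℝ) + 1) * ((P (n + 1) : ℝ) - P n)
        = c * ((P (n + 1) : ℝ) - P n) * (2 * (((n : ℝ) + 1) / 2)) := by ring
      _ ≤ c * ((P (n + 1) : ℝ) - P n) * (2 * ((P n : ℝ) / Real.log (P n))) := by gcongr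
      _ = c * (((P (n + 1) : ℝ) - P n) * (2 * P n)) / Real.log (P n) := by ring
      _ ≤ c * (((P (n + 1) : ℝ) - P n) * (P (n + 1) + P n)) / Real.log (P n) := by
          gcongr; linarith
      _ = _ := by ring
  · calc (P n : ℝ) ^ (1 - η) ≤ (P n : ℝ) ^ (1 : ℝ) :=
          Real.rpow_le_rpow_of_exponent_le (by linarith) (by linarith)
      _ = P n := Real.rpow_one _
      _ ≤ _ := by nlinarith

theorem exc : Exc := by
  classical
  obtain ⟨c, η, C, hc, hη, -, hC0, hC⟩ := exceptional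
  obtain ⟨n₁, hn₁⟩ := Filter.eventually_atTop.1 ratio_ge
  refine ⟨c, C + n₁, hc, fun X hX => ?_⟩
  have hB : {n : ℕ | (P n : ℝ) ≤ X ∧ ¬ Good c n}.Finite := fin_le X _ 0
  set S := hB.toFinset with hS
  have hcard : {n : ℕ | (P n : ℝ) ≤ X ∧ ¬ Good c n}.ncard = S.card :=
    Set.ncard_eq_toFinset_card _ hB
  have h1 := hC X hX ((S.filter (fun n => n₁ ≤ n)).image P) (by
    intro p hp
    simp only [hS, mem_image, mem_filter, Set.Finite.mem_toFinset, Set.mem_ofPred_eq] at hp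
    obtain ⟨n, ⟨⟨h1, h2⟩, h3⟩, rfl⟩ := hp
    exact ⟨h1, P (n + 1), consec n, fun h => h2 (good_of_rich hc hη n (hn₁ n h3) h)⟩)
  have hinj : Function.Injective P := (Nat.nth_strictMono Nat.infinite_setOfPred_prime).injective
  rw [Finset.card_image_of_injective _ hinj] at h1
  have h2 : (S.filter (fun n => ¬ n₁ ≤ n)).card ≤ n₁ := by
    calc (S.filter (fun n => ¬ n₁ ≤ n)).card ≤ (Finset.range n₁).card := by
          refine Finset.card_le_card fun n hn => ?_
          rw [mem_filter] at hn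
          rw [mem_range]; omega
      _ = n₁ := by simp
  have h3 : S.card = (S.filter (fun n => n₁ ≤ n)).card + (S.filter (fun n => ¬ n₁ ≤ n)).card :=
    (Finset.card_filter_add_card_filter_not _).symm
  have h4 : (S.card : ℝ) = (S.filter (fun n => n₁ ≤ n)).card +
      ((S.filter (fun n => ¬ n₁ ≤ n)).card : ℝ) := by exact_mod_cast h3
  have h5 : ((S.filter (fun n => ¬ n₁ ≤ n)).card : ℝ) ≤ n₁ := by exact_mod_cast h2
  have h6 : (1 : ℝ) ≤ X ^ (0.612 : ℝ) := Real.one_le_rpow hX (by norm_num)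
  have h7 : (0 : ℝ) ≤ n₁ := Nat.cast_nonneg _
  rw [hcard, h4]
  nlinarith

end Pool.Agent.T63.Broc
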