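import Pool.Agent.T63.BrocA

set_option autoImplicit false

/-!
# Record chains and order patterns for `N n`
-/

namespace Pool.Agent.T63.Broc

open Finset

/-- The record scale. -/
noncomputable def ff (X : ℝ) : ℝ :=
  Real.log X * (Real.log (Real.log X)) ^ 2 * Real.log (Real.log (Real.log (Real.log X))) /
    (Real.log (Real.log (Real.log X))) ^ 2

theorem records (hE : Exc) (k : ℕ)
    (hch : ∃ c : ℝ, 0 < c ∧ ∃ x₀ : ℝ, ∀ x : ℝ, x₀ ≤ x →
      x ^ (7 / 8 : ℝ) ≤ (Set.ncard {n : ℕ | (P (n + k) : ℝ) ≤ x ∧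
        ∀ i < k, c * ff x ≤ (P (n + i + 1) : ℝ) - (P (n + i) : ℝ)} : ℝ)) :
    ∃ c : ℝ, 0 < c ∧ ∃ x₀ : ℝ, ∀ x : ℝ, x₀ ≤ x →
      x ^ (7 / 8 : ℝ) / 2 ≤ (Set.ncard {n : ℕ | (P (n + k) : ℝ) ≤ x ∧
        ∀ i < k, c * ((n : ℝ) + i + 1) * ff x ≤ N (n + i)} : ℝ) := by
  obtain ⟨c₁, hc₁, htr⟩ := transfer hE
  obtain ⟨c, hc, x₀, hx₀⟩ := hch
  obtain ⟨x₁, hx₁⟩ := Filter.eventually_atTop.1 (htr k)
  refine ⟨c₁ * c, by positivity, max (max x₀ x₁) 1, fun x hx => ?_⟩
  have h0 : x₀ ≤ x := le_trans (le_trans (le_max_left _ _) (le_max_left _ _)) hx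
  have h1 : x₁ ≤ x := le_trans (le_trans (le_max_right _ _) (le_max_left _ _)) hx
  have h2 : 1 ≤ x := le_trans (le_max_right _ _) hx
  have h3 := hx₀ x h0
  have h4 := hx₁ x h1 (fun n => (P (n + k) : ℝ) ≤ x ∧
    ∀ i < k, c * ff x ≤ (P (n + i + 1) : ℝ) - (P (n + i) : ℝ)) ?_
  · refine h4.trans ?_
    rw [Nat.cast_le]
    refine Set.ncard_le_ncard ?_ (fin_le _ _ k)
    rintro n ⟨-, ⟨h5, h6⟩, h7⟩
    refine ⟨h5, fun i hi => ?_⟩
    have h8 := h7 i hi
    unfold Good at h8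
    refine le_trans ?_ h8
    push_cast
    have h9 := h6 i hi
    calc c₁ * c * ((n : ℝ) + i + 1) * ff x = c₁ * ((n : ℝ) + i + 1) * (c * ff x) := by ring
      _ ≤ c₁ * ((n : ℝ) + i + 1) * ((P (n + i + 1) : ℝ) - (P (n + i) : ℝ)) := by gcongr
  · refine h3.trans ?_
    rw [Nat.cast_le]
    refine Set.ncard_le_ncard ?_ (fin_le _ _ k)
    rintro n ⟨h5, h6⟩
    exact ⟨by linarith, h5, h6⟩

/-- The gap after `P (n + i)`. -/
noncomputable def gp (n i : ℕ) : ℝ := (P (n + i + 1) : ℝ) - P (n + i)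

theorem patterns (hE : Exc) (k : ℕ) (lt : ℕ → ℕ → Prop) (A : ℝ)
    (hch : ∀ A : ℝ, ∃ c : ℝ, 0 < c ∧ ∀ᶠ X : ℝ in Filter.atTop, ∀ H : ℝ,
      Real.log X ≤ H → H ≤ c * ff X →
      X ^ (7 / 8 : ℝ) ≤ ({n : ℕ | X < (P n : ℝ) ∧ (P (n + k) : ℝ) ≤ 4 * X ∧
        (P (n + k) : ℝ) ≤ (P n : ℝ) + H ∧ (∀ i, i < k → c * H ≤ gp n i) ∧
        ∀ i j, i < k → j < k → lt i j → A * gp n i ≤ gp n j}.ncard : ℝ)) :
    ∃ c : ℝ, 0 < c ∧ ∀ᶠ X : ℝ in Filter.atTop, ∀ H : ℝ,
      Real.log X ≤ H → H ≤ c * ff X →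
      X ^ (7 / 8 : ℝ) / 2 ≤ ({n : ℕ | X < (P n : ℝ) ∧ (P (n + k) : ℝ) ≤ 4 * X ∧
        (∀ i, i < k → c * ((n : ℝ) + 1) * H ≤ N (n + i) ∧ c * N (n + i) ≤ ((n : ℝ) + 1) * H) ∧
        ∀ i j, i < k → j < k → lt i j → A * N (n + i) ≤ N (n + j)}.ncard : ℝ) := by
  obtain ⟨c₁, hc₁, htr⟩ := transfer hE
  obtain ⟨c, hc, hX⟩ := hch (36 * |A| / c₁)
  obtain ⟨n₁, hn₁⟩ := Filter.eventually_atTop.1 N_le
  obtain ⟨c', hc', hcc, hcc1, hc36⟩ : ∃ c' : ℝ, 0 < c' ∧ c' ≤ c ∧ c' ≤ c₁ * c ∧ c' ≤ 1 / 36 :=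
    ⟨min (min c (c₁ * c)) (1 / 36), by positivity,
      (min_le_left _ _).trans (min_le_left _ _), (min_le_left _ _).trans (min_le_right _ _),
      min_le_right _ _⟩
  refine ⟨c', hc', ?_⟩
  have hff : ∀ᶠ X : ℝ in Filter.atTop, 0 ≤ ff X := by
    have e1 : ∀ᶠ X : ℝ in Filter.atTop, 1 ≤ Real.log X := Real.tendsto_log_atTop.eventually_ge_atTop 1
    have e4 : ∀ᶠ X : ℝ in Filter.atTop, 1 ≤ Real.log (Real.log (Real.log (Real.log X))) :=
      (Real.tendsto_log_atTop.comp (Real.tendsto_log_atTop.comp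
        (Real.tendsto_log_atTop.comp Real.tendsto_log_atTop))).eventually_ge_atTop 1
    filter_upwards [e1, e4] with X h1 h4
    unfold ff
    positivity
  filter_upwards [hX, htr k, hff, Filter.eventually_ge_atTop (1 : ℝ),
    Filter.eventually_ge_atTop ((P (n₁ + k) : ℝ))] with X h1 h2 h3 h4 h5 H hH1 hH2
  have hH2' : H ≤ c * ff X := hH2.trans (by gcongr)
  have h6 := h1 H hH1 hH2'
  have h7 := h2 (fun n => X < (P n : ℝ) ∧
        (P (n + k) : ℝ) ≤ (P n : ℝ) + H ∧ (∀ i, i < k → c * H ≤ gp n i) ∧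
        ∀ i j, i < k → j < k → lt i j → 36 * |A| / c₁ * gp n i ≤ gp n j) ?_
  · refine h7.trans ?_
    rw [Nat.cast_le]
    refine Set.ncard_le_ncard ?_ ?_
    · rintro n ⟨g1, ⟨g2, g3, g4, g5⟩, g6⟩
      have hnn : n₁ + k ≤ n := by
        by_contra hh
        push Not at hh
        have : (P n : ℝ) ≤ P (n₁ + k) := by exact_mod_cast P_mono hh.le
        linarith
      have hnn0 : n₁ ≤ n := by omega
      have hH0 : 0 ≤ H := le_trans (Real.log_nonneg h4) hH1
      have hupp : ∀ i, i < k → (N (n + i) : ℝ) ≤ 36 * ((n : ℝ) + 1) * gp n i := by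
        intro i hi
        have u1 := hn₁ (n + i) (by omega)
        push_cast at u1
        refine u1.trans ?_
        have u2 : (n : ℝ) + i + 1 ≤ 2 * ((n : ℝ) + 1) := by
          have : ((n + i + 1 : ℕ) : ℝ) ≤ ((2 * (n + 1) : ℕ) : ℝ) := by
            exact_mod_cast (by omega)
          push_cast at this
          linarith
        have u3 : 0 ≤ gp n i := by
          unfold gp
          have : (P (n + i) : ℝ) ≤ P (n + i + 1) := by exact_mod_cast P_mono (Nat.le_succ _)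
          linarith
        change 18 * ((n : ℝ) + i + 1) * gp n i ≤ _
        calc 18 * ((n : ℝ) + i + 1) * gp n i ≤ 18 * (2 * ((n : ℝ) + 1)) * gp n i := by gcongr
          _ = _ := by ring
      have hlow : ∀ i, i < k → c₁ * ((n : ℝ) + 1) * gp n i ≤ N (n + i) := by
        intro i hi
        have u1 := g6 i hi
        unfold Good at u1
        push_cast at u1
        refine le_trans ?_ u1
        have u3 : 0 ≤ gp n i := by
          unfold gp
          have : (P (n + i) : ℝ) ≤ P (n + i + 1) := by exact_mod_cast P_mono (Nat.le_succ _)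
          linarith
        change _ ≤ c₁ * ((n : ℝ) + i + 1) * gp n i
        have : (0 : ℝ) ≤ i := Nat.cast_nonneg _
        gcongr
        linarith
      have hgH : ∀ i, i < k → gp n i ≤ H := by
        intro i hi
        unfold gp
        have u1 : (P (n + i + 1) : ℝ) ≤ P (n + k) := by exact_mod_cast P_mono (by omega)
        have u2 : (P n : ℝ) ≤ P (n + i) := by exact_mod_cast P_mono (by omega)
        linarith
      refine ⟨g2, g1, fun i hi => ⟨?_, ?_⟩, ?_⟩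
      · refine le_trans ?_ (hlow i hi)
        calc c' * ((n : ℝ) + 1) * H ≤ (c₁ * c) * ((n : ℝ) + 1) * H := by gcongr
          _ = c₁ * ((n : ℝ) + 1) * (c * H) := by ring
          _ ≤ c₁ * ((n : ℝ) + 1) * gp n i := by
              have := g4 i hi
              gcongr
      · calc c' * (N (n + i) : ℝ) ≤ 1 / 36 * (36 * ((n : ℝ) + 1) * gp n i) := by
              have := hupp i hi
              gcongr
          _ ≤ 1 / 36 * (36 * ((n : ℝ) + 1) * H) := by
              have := hgH i hi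
              gcongr
          _ = _ := by ring
      · intro i j hi hj hij
        have u1 := g5 i j hi hj hij
        have u2 := hupp i hi
        have u3 := hlow j hj
        calc A * (N (n + i) : ℝ) ≤ |A| * (N (n + i) : ℝ) := by
              gcongr
              exact le_abs_self A
          _ ≤ |A| * (36 * ((n : ℝ) + 1) * gp n i) := by gcongr
          _ = c₁ * ((n : ℝ) + 1) * (36 * |A| / c₁ * gp n i) := by
              field_simp
          _ ≤ c₁ * ((n : ℝ) + 1) * gp n j := by gcongr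
          _ ≤ _ := u3
    · refine (fin_le (4 * X) (fun _ => True) k).subset ?_
      rintro n ⟨-, g1, -⟩
      exact ⟨g1, trivial⟩
  · refine h6.trans ?_
    rw [Nat.cast_le]
    refine Set.ncard_le_ncard ?_ (fin_le _ _ k)
    rintro n ⟨g1, g2, g3, g4, g5⟩
    exact ⟨g2, g1, g3, g4, g5⟩

end Pool.Agent.T63.Broc
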