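import Pool.Agent.T63.BrocC
import Pool.Agent.T63.BrocR
import Pool.Agent.H312R2.RG.Fin
import Pool.Agent.H312R2.RG.C1

set_option autoImplicit false

/-!
# Record chains of `N n`
-/

namespace Pool.Agent.T63.Broc

open Finset

theorem chains (k : ℕ) : ∃ c : ℝ, 0 < c ∧ ∃ x₀ : ℝ, ∀ x : ℝ, x₀ ≤ x →
      x ^ (7 / 8 : ℝ) ≤ (Set.ncard {n : ℕ | (P (n + k) : ℝ) ≤ x ∧
        ∀ i < k, c * ff x ≤ (P (n + i + 1) : ℝ) - (P (n + i) : ℝ)} : ℝ) := by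
  obtain ⟨c, hc, h⟩ := Pool.Agent.H312R2.RG.chains_of Pool.Agent.H312R2.RG.mtrg k
  obtain ⟨x₀, hx₀⟩ := Filter.eventually_atTop.1 h
  refine ⟨c, hc, max x₀ 0, fun x hx => (hx₀ x (le_trans (le_max_left _ _) hx)).trans ?_⟩
  rw [Nat.cast_le, ← Set.ncard_coe_finset]
  refine Set.ncard_le_ncard ?_ (fin_le _ _ k)
  intro n hn
  simp only [Finset.coe_filter, Finset.mem_range, Set.mem_setOf_eq] at hn
  exact hn.2

theorem records_final (k : ℕ) : ∃ c : ℝ, 0 < c ∧ ∃ x₀ : ℝ, ∀ x : ℝ, x₀ ≤ x →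
      x ^ (7 / 8 : ℝ) / 2 ≤ (Set.ncard {n : ℕ | (P (n + k) : ℝ) ≤ x ∧
        ∀ i < k, c * ((n : ℝ) + i + 1) * ff x ≤ N (n + i)} : ℝ) :=
  records exc k (chains k)

end Pool.Agent.T63.Broc
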