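import Pool.Agent.T63.BrocC
import Pool.Agent.T63.BrocR
import Pool.Agent.TH29.GO.Orders
import Pool.Agent.TH29.GO.Record
import Pool.Agent.H362R2.RQ.Fin

set_option autoImplicit false

/-!
# Order patterns of `N n`
-/

namespace Pool.Agent.T63.Broc

open Finset Pool.Agent.TH29.GO

theorem patterns_final {k : ℕ} {σ : ℕ → ℕ} (hF : ∀ c₀, 1 ≤ c₀ → Forces c₀ k σ) (A : ℝ) :
    ∃ c : ℝ, 0 < c ∧ ∀ᶠ X : ℝ in Filter.atTop, ∀ H : ℝ,
      Real.log X ≤ H → H ≤ c * ff X →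
      X ^ (7 / 8 : ℝ) / 2 ≤ ({n : ℕ | X < (P n : ℝ) ∧ (P (n + k) : ℝ) ≤ 4 * X ∧
        (∀ i, i < k → c * ((n : ℝ) + 1) * H ≤ N (n + i) ∧ c * N (n + i) ≤ ((n : ℝ) + 1) * H) ∧
        ∀ i j, i < k → j < k → σ i < σ j → A * N (n + i) ≤ N (n + j)}.ncard : ℝ) := by
  refine patterns exc k (fun i j => σ i < σ j) A fun A' => ?_
  obtain ⟨c, hc, h⟩ := record_of Pool.Agent.H362R2.RQ.stRQ hF A'
  refine ⟨c, hc, ?_⟩
  filter_upwards [h 1 0 squarefree_one (by simp)] with X hX H hH1 hH2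
  refine (hX H hH1 hH2).trans ?_
  rw [Nat.cast_le]
  refine Set.ncard_le_ncard ?_ ?_
  · rintro n ⟨h1, h2, h3, h4, h5, h6⟩
    exact ⟨h1, h2, h3, fun i hi => h5 i hi, fun i j hi hj hij => h6 i j hi hj hij⟩
  · refine (fin_le (4 * X) (fun _ => True) k).subset ?_
    rintro n ⟨-, g1, -⟩
    exact ⟨g1, trivial⟩

end Pool.Agent.T63.Broc
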