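import Pool.Agent.T63.BrocC
import Pool.Agent.T63.BrocR

set_option autoImplicit false

/-!
# Clusters of values of `N n` between two record values
-/

namespace Pool.Agent.T63.Broc

open Finset Filter

/-- The primes of a window are consecutive primes with controlled gaps. -/
theorem cluster {n w K k : ℕ} {G : ℝ} (hn : 3 ≤ n) (hw : 1 ≤ w) (hG : ((w * K : ℕ) : ℝ) ≤ G / 4)
    (T : Finset (Fin K)) (hT : k + 1 ≤ T.card) (hTp : ∀ l ∈ T, (n + w * l.val).Prime)
    (hwin : ∀ p : ℕ, p.Prime → |(p : ℝ) - n| ≤ G → ∃ l : Fin K, p = n + w * l.val) :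
    ∃ m s : ℕ, 1 ≤ m ∧ k ≤ s ∧ s ≤ K ∧ (∀ i ≤ s, ∃ l : Fin K, P (m + i) = n + w * l.val) ∧
      (∀ i < s, P (m + i) + w ≤ P (m + i + 1) ∧ P (m + i + 1) ≤ P (m + i) + w * K) ∧
      (P (m - 1) : ℝ) + G / 2 ≤ P m ∧ (P (m + s) : ℝ) + G / 2 ≤ P (m + s + 1) := by
  classical
  have hG0 : 0 ≤ G := by
    have : (0 : ℝ) ≤ ((w * K : ℕ) : ℝ) := Nat.cast_nonneg _
    linarith
  set T' : Finset (Fin K) := univ.filter (fun l => (n + w * l.val).Prime) with hT'
  have hTT : T ⊆ T' := fun l hl => mem_filter.2 ⟨mem_univ _, hTp l hl⟩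
  have hidx : ∀ p : ℕ, p.Prime → P (Nat.count Nat.Prime p) = p := fun p hp => Nat.nth_count hp
  set S : Finset ℕ := T'.image (fun l => Nat.count Nat.Prime (n + w * l.val)) with hS
  have hinj : Set.InjOn (fun l : Fin K => Nat.count Nat.Prime (n + w * l.val)) T' := by
    intro l hl l' hl' h
    have h1 := hidx _ (mem_filter.1 hl).2
    have h2 := hidx _ (mem_filter.1 hl').2
    simp only at h
    rw [h, h2] at h1
    have h3 : w * l.val = w * l'.val := by omega
    exact Fin.ext (Nat.eq_of_mul_eq_mul_left (by omega) h3)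
  have hSc : k + 1 ≤ S.card := by
    rw [hS, card_image_of_injOn hinj]
    exact hT.trans (card_le_card hTT)
  have hSne : S.Nonempty := card_pos.1 (by omega)
  have hSm : ∀ i, i ∈ S ↔ ∃ l : Fin K, P i = n + w * l.val := by
    intro i
    constructor
    · intro hi
      obtain ⟨l, hl, rfl⟩ := mem_image.1 hi
      exact ⟨l, hidx _ (mem_filter.1 hl).2⟩
    · rintro ⟨l, hl⟩
      refine mem_image.2 ⟨l, mem_filter.2 ⟨mem_univ _, hl ▸ P_prime i⟩, ?_⟩
      show Nat.count Nat.Prime (n + w * l.val) = i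
      rw [← hl]
      exact Nat.count_nth_of_infinite Nat.infinite_setOfPred_prime i
  set m := S.min' hSne with hm
  set m' := S.max' hSne with hm'
  have hmS : m ∈ S := min'_mem _ _
  have hm'S : m' ∈ S := max'_mem _ _
  have hmm : m ≤ m' := min'_le _ _ hm'S
  obtain ⟨l0, hl0⟩ := (hSm m).1 hmS
  obtain ⟨l1, hl1⟩ := (hSm m').1 hm'S
  have hwK : ∀ l : Fin K, w * l.val ≤ w * K := fun l => Nat.mul_le_mul_left w l.2.le
  have hmid : ∀ i, m ≤ i → i ≤ m' → ∃ l : Fin K, P i = n + w * l.val := by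
    intro i h1 h2
    refine hwin _ (P_prime i) ?_
    have h3 : n ≤ P i := by have := P_mono h1; omega
    have h4 : P i ≤ n + w * K := by
      have := P_mono h2
      have := hwK l1
      omega
    have h3' : (n : ℝ) ≤ P i := by exact_mod_cast h3
    have h4' : (P i : ℝ) ≤ n + ((w * K : ℕ) : ℝ) := by exact_mod_cast h4
    rw [abs_le]
    constructor <;> linarith
  have hks : k ≤ m' - m := by
    have h1 : S ⊆ Icc m m' := fun i hi => mem_Icc.2 ⟨min'_le _ _ hi, le_max' _ _ hi⟩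
    have h2 := card_le_card h1
    rw [Nat.card_Icc] at h2
    omega
  have hsK : m' - m ≤ K := by
    have h1 : ∀ i : {x // x ∈ Icc m m'}, ∃ l : Fin K, P i = n + w * l.val := fun i =>
      hmid i (mem_Icc.1 i.2).1 (mem_Icc.1 i.2).2
    choose g hg using h1
    have h2 : Function.Injective g := by
      intro i j hij
      have h3 := hg i
      rw [hij, ← hg j] at h3
      exact Subtype.ext ((Nat.nth_strictMono Nat.infinite_setOfPred_prime).injective h3)
    have h4 := Fintype.card_le_of_injective g h2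
    rw [Fintype.card_coe, Nat.card_Icc, Fintype.card_fin] at h4
    omega
  have hm1 : 1 ≤ m := by
    by_contra h
    have h0 : m = 0 := by omega
    have h1 : P m = 2 := by rw [h0]; exact Nat.nth_prime_zero_eq_two
    omega
  refine ⟨m, m' - m, hm1, hks, hsK, fun i hi => hmid _ (by omega) (by omega), fun i hi => ?_, ?_, ?_⟩
  · obtain ⟨l, hl⟩ := hmid (m + i) (by omega) (by omega)
    obtain ⟨l', hl'⟩ := hmid (m + i + 1) (by omega) (by omega)
    have h1 : P (m + i) < P (m + i + 1) := P_lt (Nat.lt_succ_self _)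
    rw [hl, hl'] at h1 ⊢
    have h2 : w * l.val < w * l'.val := by omega
    have h3 : l.val < l'.val := lt_of_mul_lt_mul_left h2 (Nat.zero_le _)
    have h4 : w * (l.val + 1) ≤ w * l'.val := Nat.mul_le_mul_left w h3
    have h5 := hwK l'
    rw [Nat.mul_add, Nat.mul_one] at h4
    constructor <;> omega
  · have h1 : P (m - 1) < P m := P_lt (by omega)
    have h2 : ¬ |((P (m - 1) : ℕ) : ℝ) - n| ≤ G := by
      intro h
      obtain ⟨l, hl⟩ := hwin _ (P_prime _) h
      have h3 : m ≤ m - 1 := min'_le _ _ ((hSm _).2 ⟨l, hl⟩)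
      omega
    have h3 : (P m : ℝ) ≤ n + ((w * K : ℕ) : ℝ) := by
      have : P m ≤ n + w * K := by
        have := hwK l0
        omega
      exact_mod_cast this
    have h4 : (n : ℝ) ≤ P m := by exact_mod_cast (by omega : n ≤ P m)
    have h5 : (P (m - 1) : ℝ) < P m := by exact_mod_cast h1
    by_contra h6
    apply h2
    rw [abs_le]
    constructor <;> linarith
  · rw [show m + (m' - m) = m' by omega]
    have h1 : P m' < P (m' + 1) := P_lt (Nat.lt_succ_self _)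
    have h2 : ¬ |((P (m' + 1) : ℕ) : ℝ) - n| ≤ G := by
      intro h
      obtain ⟨l, hl⟩ := hwin _ (P_prime _) h
      have h3 : m' + 1 ≤ m' := le_max' _ _ ((hSm _).2 ⟨l, hl⟩)
      omega
    have h3 : (P m' : ℝ) ≤ n + ((w * K : ℕ) : ℝ) := by
      have : P m' ≤ n + w * K := by
        have := hwK l1
        omega
      exact_mod_cast this
    have h4 : (n : ℝ) ≤ P m' := by exact_mod_cast (by omega : n ≤ P m')
    have h5 : (P m' : ℝ) < P (m' + 1) := by exact_mod_cast h1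
    by_contra h6
    apply h2
    rw [abs_le]
    constructor <;> linarith

/-- Windows around `n` whose primes are among `n + M h l`, `l < K`, at least `k + 1` of them. -/
def WinAt (k q K M : ℕ) (c₀ : ℝ) : Prop :=
  ∀ a : ℕ, a.Coprime q → ∀ᶠ X : ℝ in atTop, ∀ h : ℕ, 1 ≤ h →
    ((M * h * K : ℕ) : ℝ) ≤ c₀ * ff X / 4 →
    ∀ bad : Finset ℕ, (bad.card : ℝ) ≤ X ^ (7 / 8 : ℝ) →
    ∃ n : ℕ, X < n ∧ (n : ℝ) ≤ 3 * X ∧ n ∉ bad ∧ n ≡ a [MOD q] ∧
      (∃ T : Finset (Fin K), k + 1 ≤ T.card ∧ ∀ l ∈ T, (n + M * h * l.val).Prime) ∧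
      ∀ p : ℕ, p.Prime → |(p : ℝ) - n| ≤ c₀ * ff X → ∃ l : Fin K, p = n + M * h * l.val

/-- Between `k` and `K` consecutive values of size `n H` between two record values. -/
def Clu (k K q a : ℕ) (c H X : ℝ) (n : ℕ) : Prop :=
  1 ≤ n ∧ X < (P n : ℝ) ∧ (P n : ℝ) ≤ 4 * X ∧ ∃ s, k ≤ s ∧ s ≤ K ∧
    (∀ i ≤ s, P (n + i) ≡ a [MOD q]) ∧
    (∀ i < s, c * ((n : ℝ) + 1) * H ≤ N (n + i) ∧ c * N (n + i) ≤ ((n : ℝ) + 1) * H) ∧
    c * ((n : ℝ) + 1) * ff X ≤ N (n - 1) ∧ c * ((n : ℝ) + 1) * ff X ≤ N (n + s)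

theorem ev_small (C : ℝ) : ∀ᶠ X : ℝ in atTop,
    2 * (2 * ((Real.log X) ^ 2 + 1) + 1) ≤ X ^ (1 / 56 : ℝ) ∧
    16 * (|C| * X ^ (0.612 : ℝ)) ≤ X ^ (6 / 7 : ℝ) := by
  have h1 : ∀ᶠ X : ℝ in atTop, (Real.log X) ^ 2 ≤ 1 / 8 * X ^ (1 / 56 : ℝ) := by
    have h := (isLittleO_log_rpow_rpow_atTop (s := 1 / 56) 2 (by norm_num)).bound
      (show (0 : ℝ) < 1 / 8 by norm_num)
    filter_upwards [h, eventually_ge_atTop (1 : ℝ)] with X hX hX1
    have h2 : Real.log X ^ (2 : ℝ) = Real.log X ^ 2 := by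
      rw [← Real.rpow_natCast]; norm_num
    rw [h2, Real.norm_eq_abs, Real.norm_eq_abs, abs_of_nonneg (by positivity),
      abs_of_nonneg (by positivity)] at hX
    exact hX
  have h2 : ∀ᶠ X : ℝ in atTop, (12 : ℝ) ≤ X ^ (1 / 56 : ℝ) :=
    (tendsto_rpow_atTop (by norm_num)).eventually_ge_atTop _
  have h3 : ∀ᶠ X : ℝ in atTop, 16 * |C| ≤ X ^ (0.2 : ℝ) :=
    (tendsto_rpow_atTop (by norm_num)).eventually_ge_atTop _
  filter_upwards [h1, h2, h3, eventually_ge_atTop (1 : ℝ)] with X h1 h2 h3 h4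
  refine ⟨by linarith, ?_⟩
  calc 16 * (|C| * X ^ (0.612 : ℝ)) = 16 * |C| * X ^ (0.612 : ℝ) := by ring
    _ ≤ X ^ (0.2 : ℝ) * X ^ (0.612 : ℝ) := by gcongr
    _ = X ^ (0.812 : ℝ) := by rw [← Real.rpow_add (by linarith)]; norm_num
    _ ≤ X ^ (6 / 7 : ℝ) := Real.rpow_le_rpow_of_exponent_le h4 (by norm_num)

theorem isolated_of (hE : Exc) {k q K M : ℕ} {c₀ : ℝ} (hc₀ : 0 < c₀) (hM : 1 ≤ M) (hqM : q ∣ M)
    (hff : ∀ᶠ X : ℝ in atTop, c₀ * ff X ≤ (Real.log X) ^ 2 ∧ 0 ≤ ff X ∧ 2 * (c₀ * ff X) ≤ X)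
    (hW : WinAt k q K M c₀) :
    ∃ c : ℝ, 0 < c ∧ ∀ a : ℕ, a.Coprime q → ∀ᶠ X : ℝ in atTop, ∀ H : ℝ, 1 ≤ H → H ≤ c * ff X →
      X ^ (6 / 7 : ℝ) ≤ ({n : ℕ | Clu k K q a c H X n}.ncard : ℝ) := by
  classical
  obtain ⟨c₁, C, hc₁, hC⟩ := hE
  obtain ⟨n₁, hn₁⟩ := eventually_atTop.1 N_le
  have hM0 : (1 : ℝ) ≤ M := by exact_mod_cast hM
  have hK0 : (0 : ℝ) ≤ K := Nat.cast_nonneg K
  obtain ⟨c, hc, hcA, hcB, hcC, hcD⟩ : ∃ c : ℝ, 0 < c ∧ c * (8 * M * (K + 1)) ≤ c₀ ∧ c ≤ c₁ ∧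
      c * (72 * M * (K + 1)) ≤ 1 ∧ c ≤ c₁ * c₀ / 4 := by
    refine ⟨min (min (c₀ / (8 * M * (K + 1))) c₁) (min (1 / (72 * M * (K + 1))) (c₁ * c₀ / 4)),
      by positivity, ?_, ?_, ?_, ?_⟩
    · rw [← le_div_iff₀ (by positivity)]
      exact (min_le_left _ _).trans (min_le_left _ _)
    · exact (min_le_left _ _).trans (min_le_right _ _)
    · rw [← le_div_iff₀ (by positivity)]
      exact (min_le_right _ _).trans (min_le_left _ _)
    · exact (min_le_right _ _).trans (min_le_right _ _)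
  refine ⟨c, hc, fun a ha => ?_⟩
  filter_upwards [hW a ha, hff, ev_small C, eventually_ge_atTop (3 : ℝ),
    eventually_ge_atTop ((P (n₁ + K + 1) : ℝ))] with X hX hff hev hX3 hXP H hH1 hH2
  obtain ⟨hff1, hff2, hff3⟩ := hff
  obtain ⟨hev1, hev2⟩ := hev
  by_contra hcon
  push Not at hcon
  have hX0 : (0 : ℝ) < X := by linarith
  set G := c₀ * ff X with hGdef
  have hG0 : 0 ≤ G := by positivity
  set h := ⌈H⌉₊ with hh
  have hhH : H ≤ h := Nat.le_ceil H
  have hh2 : (h : ℝ) ≤ 2 * H := by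
    have := Nat.ceil_lt_add_one (by linarith : (0 : ℝ) ≤ H)
    linarith
  have hh1 : 1 ≤ h := by
    have : (1 : ℝ) ≤ h := by linarith
    exact_mod_cast this
  set w := M * h with hw
  have hw1 : 1 ≤ w := Nat.mul_pos hM hh1
  have hwK : ((w * K : ℕ) : ℝ) ≤ G / 4 := by
    push_cast [hw]
    calc (M : ℝ) * h * K ≤ M * (2 * H) * (K + 1) := by gcongr; linarith
      _ ≤ M * (2 * (c * ff X)) * (K + 1) := by gcongr
      _ = (c * (8 * M * (K + 1))) * ff X / 4 := by ring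
      _ ≤ c₀ * ff X / 4 := by gcongr
  set g := ⌈G⌉₊ with hg
  have hgG : G ≤ g := Nat.le_ceil G
  have hg2 : (g : ℝ) ≤ (Real.log X) ^ 2 + 1 := by
    have := Nat.ceil_lt_add_one hG0
    linarith
  have hwg : w * K ≤ g := by
    have : ((w * K : ℕ) : ℝ) ≤ g := by linarith
    exact_mod_cast this
  set near : ℕ → Finset ℕ := fun p => Icc (p - g) (p + g) with hnear
  have hnearc : ∀ p, (near p).card ≤ 2 * g + 1 := by
    intro p
    rw [hnear]
    simp only [Nat.card_Icc]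
    omega
  have hFfin : {n : ℕ | Clu k K q a c H X n}.Finite := by
    refine (Set.finite_Iic ⌊4 * X⌋₊).subset ?_
    rintro n ⟨-, -, h1, -⟩
    refine Nat.le_floor (le_trans ?_ h1)
    exact_mod_cast le_P n
  set F := hFfin.toFinset with hF
  have hFc : (F.card : ℝ) ≤ X ^ (6 / 7 : ℝ) := by
    rw [hF, ← Set.ncard_eq_toFinset_card _ hFfin]
    exact hcon.le
  have hBfin : {n : ℕ | (P n : ℝ) ≤ 8 * X ∧ ¬ Good c₁ n}.Finite := fin_le (8 * X) _ 0
  set B := hBfin.toFinset with hB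
  have hBc : 2 * (B.card : ℝ) ≤ X ^ (6 / 7 : ℝ) := by
    rw [hB, ← Set.ncard_eq_toFinset_card _ hBfin]
    have h1 := hC (8 * X) (by linarith)
    have h2 : (8 * X) ^ (0.612 : ℝ) ≤ 8 * X ^ (0.612 : ℝ) := by
      rw [Real.mul_rpow (by norm_num) hX0.le]
      gcongr
      calc (8 : ℝ) ^ (0.612 : ℝ) ≤ (8 : ℝ) ^ (1 : ℝ) :=
            Real.rpow_le_rpow_of_exponent_le (by norm_num) (by norm_num)
        _ = 8 := Real.rpow_one _
    have h3 : C * (8 * X) ^ (0.612 : ℝ) ≤ |C| * (8 * X ^ (0.612 : ℝ)) := by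
      have h4 : 0 ≤ (8 * X) ^ (0.612 : ℝ) := by positivity
      calc C * (8 * X) ^ (0.612 : ℝ) ≤ |C| * (8 * X) ^ (0.612 : ℝ) := by
            gcongr
            exact le_abs_self C
        _ ≤ _ := by gcongr
    linarith
  set bad := B.biUnion (fun i => near (P i) ∪ near (P (i + 1))) ∪ F.biUnion (fun i => near (P i))
    with hbad
  have hbadc : (bad.card : ℝ) ≤ X ^ (7 / 8 : ℝ) := by
    have h1 : bad.card ≤ B.card * (2 * (2 * g + 1)) + F.card * (2 * g + 1) := by
      refine (card_union_le _ _).trans (Nat.add_le_add ?_ ?_)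
      · refine card_biUnion_le_card_mul _ _ _ fun i _ => ?_
        refine (card_union_le _ _).trans ?_
        have := hnearc (P i)
        have := hnearc (P (i + 1))
        omega
      · exact card_biUnion_le_card_mul _ _ _ fun i _ => hnearc (P i)
    have h2 : (bad.card : ℝ) ≤ B.card * (2 * (2 * g + 1)) + F.card * (2 * g + 1) := by
      exact_mod_cast h1
    have h3 : (X ^ (7 / 8 : ℝ) : ℝ) = X ^ (6 / 7 : ℝ) * X ^ (1 / 56 : ℝ) := by
      rw [← Real.rpow_add hX0]; norm_num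
    have h4 : (0 : ℝ) ≤ X ^ (6 / 7 : ℝ) := by positivity
    calc (bad.card : ℝ) ≤ B.card * (2 * (2 * g + 1)) + F.card * (2 * g + 1) := h2
      _ = (2 * B.card + F.card) * (2 * g + 1) := by ring
      _ ≤ (X ^ (6 / 7 : ℝ) + X ^ (6 / 7 : ℝ)) * (2 * ((Real.log X) ^ 2 + 1) + 1) := by gcongr
      _ = X ^ (6 / 7 : ℝ) * (2 * (2 * ((Real.log X) ^ 2 + 1) + 1)) := by ring
      _ ≤ X ^ (6 / 7 : ℝ) * X ^ (1 / 56 : ℝ) := by gcongr
      _ = _ := h3.symm
  obtain ⟨n, hn1, hn2, hn3, hn4, ⟨T, hT1, hT2⟩, hn5⟩ := hX h hh1 hwK bad hbadc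
  have hn3' : 3 ≤ n := by
    have : (3 : ℝ) ≤ n := by linarith
    exact_mod_cast this
  obtain ⟨m, s, hm1, hks, hsK, hpos, hgap, hl, hr⟩ := cluster hn3' hw1 hwK T hT1 hT2 hn5
  -- positions
  have hloc : ∀ i ≤ s, n ≤ P (m + i) ∧ P (m + i) ≤ n + w * K := by
    intro i hi
    obtain ⟨l, hl⟩ := hpos i hi
    rw [hl]
    have : w * l.val ≤ w * K := Nat.mul_le_mul_left w l.2.le
    omega
  have hin : ∀ i ≤ s, n ∈ near (P (m + i)) := by
    intro i hi
    obtain ⟨h1, h2⟩ := hloc i hi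
    rw [hnear]
    simp only [mem_Icc]
    omega
  have h4X : ∀ i ≤ s, (P (m + i) : ℝ) ≤ 4 * X := by
    intro i hi
    have h1 : (P (m + i) : ℝ) ≤ n + ((w * K : ℕ) : ℝ) := by exact_mod_cast (hloc i hi).2
    linarith
  have hgood : ∀ i ≤ s, Good c₁ (m + i) := by
    intro i hi
    by_contra hng
    apply hn3
    rw [hbad, mem_union]
    left
    rw [mem_biUnion]
    refine ⟨m + i, ?_, mem_union_left _ (hin i hi)⟩
    rw [hB, Set.Finite.mem_toFinset]
    exact ⟨by linarith [h4X i hi], hng⟩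
  have hgoodl : Good c₁ (m - 1) := by
    by_contra hng
    apply hn3
    rw [hbad, mem_union]
    left
    rw [mem_biUnion]
    refine ⟨m - 1, ?_, mem_union_right _ ?_⟩
    · rw [hB, Set.Finite.mem_toFinset]
      refine ⟨?_, hng⟩
      have h1 : (P (m - 1) : ℝ) ≤ P (m + 0) := by exact_mod_cast P_mono (by omega)
      linarith [h4X 0 (Nat.zero_le _)]
    · rw [show m - 1 + 1 = m + 0 by omega]
      exact hin 0 (Nat.zero_le _)
  have hmn : n₁ + K + 1 ≤ m := by
    by_contra hh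
    push Not at hh
    have h1 : (P m : ℝ) ≤ P (n₁ + K + 1) := by exact_mod_cast P_mono hh.le
    have h2 : (n : ℝ) ≤ P m := by exact_mod_cast (hloc 0 (Nat.zero_le _)).1
    linarith
  have hgapr : ∀ i < s, (w : ℝ) ≤ (P (m + i + 1) : ℝ) - P (m + i) ∧
      (P (m + i + 1) : ℝ) - P (m + i) ≤ w * K := by
    intro i hi
    obtain ⟨h1, h2⟩ := hgap i hi
    have h1' : (P (m + i) : ℝ) + w ≤ P (m + i + 1) := by exact_mod_cast h1
    have h2' : (P (m + i + 1) : ℝ) ≤ P (m + i) + w * K := by exact_mod_cast h2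
    constructor <;> linarith
  have hwr : (w : ℝ) = M * h := by rw [hw]; push_cast; ring
  have hclu : Clu k K q a c H X m := by
    refine ⟨hm1, ?_, ?_, s, hks, hsK, ?_, ?_, ?_, ?_⟩
    · have h1 : (n : ℝ) ≤ P (m + 0) := by exact_mod_cast (hloc 0 (Nat.zero_le _)).1
      rw [Nat.add_zero] at h1
      linarith
    · have h1 := h4X 0 (Nat.zero_le _)
      rwa [Nat.add_zero] at h1
    · intro i hi
      obtain ⟨l, hl⟩ := hpos i hi
      rw [hl]
      have h1 : q ∣ w * l.val := (hqM.mul_right h).mul_right _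
      have h2 : n + w * l.val ≡ n + 0 [MOD q] :=
        Nat.ModEq.add_left n ((Nat.modEq_zero_iff_dvd).2 h1)
      exact h2.trans hn4
    · intro i hi
      have h1 := hgood i hi.le
      obtain ⟨h2, h3⟩ := hgapr i hi
      unfold Good at h1
      have hi0 : (0 : ℝ) ≤ i := Nat.cast_nonneg i
      constructor
      · refine le_trans ?_ h1
        push_cast
        calc c * ((m : ℝ) + 1) * H ≤ c₁ * ((m : ℝ) + i + 1) * (w : ℝ) := by
              have h4 : H ≤ (w : ℝ) := by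
                rw [hwr]
                have : (1 : ℝ) * h ≤ M * h := by gcongr
                linarith
              gcongr
              linarith
          _ ≤ c₁ * ((m : ℝ) + i + 1) * ((P (m + i + 1) : ℝ) - P (m + i)) := by gcongr
      · have h4 := hn₁ (m + i) (by omega)
        push_cast at h4
        have h5 : (m : ℝ) + i + 1 ≤ 2 * ((m : ℝ) + 1) := by
          have : ((m + i + 1 : ℕ) : ℝ) ≤ ((2 * (m + 1) : ℕ) : ℝ) := by
            exact_mod_cast (by omega)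
          push_cast at this
          linarith
        calc c * (N (m + i) : ℝ) ≤ c * (18 * ((m : ℝ) + i + 1) * (w * K)) := by
              gcongr
              refine h4.trans ?_
              gcongr
          _ ≤ c * (18 * (2 * ((m : ℝ) + 1)) * (M * (2 * H) * (K + 1))) := by
              rw [hwr]
              gcongr
              linarith
          _ = (c * (72 * M * (K + 1))) * (((m : ℝ) + 1) * H) := by ring
          _ ≤ 1 * (((m : ℝ) + 1) * H) := by gcongr
          _ = _ := one_mul _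
    · unfold Good at hgoodl
      refine le_trans ?_ hgoodl
      rw [show m - 1 + 1 = m by omega]
      have h1 : ((m - 1 : ℕ) : ℝ) + 1 = m := by
        have : ((m - 1 + 1 : ℕ) : ℝ) = m := by rw [show m - 1 + 1 = m by omega]
        push_cast at this
        exact this
      rw [h1]
      have h2 : (m : ℝ) + 1 ≤ 2 * m := by
        have : (1 : ℝ) ≤ m := by exact_mod_cast hm1
        linarith
      calc c * ((m : ℝ) + 1) * ff X ≤ c₁ * c₀ / 4 * (2 * m) * ff X := by gcongr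
        _ = c₁ * m * (G / 2) := by rw [hGdef]; ring
        _ ≤ c₁ * m * ((P m : ℝ) - P (m - 1)) := by
            gcongr
            linarith
    · have h1 := hgood s le_rfl
      unfold Good at h1
      refine le_trans ?_ h1
      push_cast
      have hs0 : (0 : ℝ) ≤ s := Nat.cast_nonneg s
      calc c * ((m : ℝ) + 1) * ff X ≤ c₁ * c₀ / 4 * ((m : ℝ) + s + 1) * ff X := by
            gcongr
            linarith
        _ ≤ c₁ * c₀ / 2 * ((m : ℝ) + s + 1) * ff X := by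
            gcongr
            norm_num
        _ = c₁ * ((m : ℝ) + s + 1) * (G / 2) := by rw [hGdef]; ring
        _ ≤ c₁ * ((m : ℝ) + s + 1) * ((P (m + s + 1) : ℝ) - P (m + s)) := by
            gcongr
            linarith
  apply hn3
  rw [hbad, mem_union]
  right
  rw [mem_biUnion]
  refine ⟨m, ?_, ?_⟩
  · rw [hF, Set.Finite.mem_toFinset]
    exact hclu
  · have := hin 0 (Nat.zero_le _)
    rwa [Nat.add_zero] at this

end Pool.Agent.T63.Broc
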