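import Pool.Agent.T63.BrocI
import Pool.Agent.N688.FB.Rec

set_option autoImplicit false

/-!
# The windows from the theorem on tuples
-/

namespace Pool.Agent.T63.Broc

open Finset Filter

theorem ff_eq : Pool.Agent.H256R2.SC.ff = ff := rfl

theorem windows (k q : ℕ) (hq : Squarefree q) : ∃ K M : ℕ, 1 ≤ M ∧ q ∣ M ∧ ∃ c₀ : ℝ, 0 < c₀ ∧
    WinAt k q K M c₀ := by
  obtain ⟨η, hη, hT⟩ := Pool.Agent.TH101.RG.tuple_multiples
  obtain ⟨m₀, hm₀⟩ := exists_nat_ge (((k : ℝ) + 1) / η)
  set m : ℕ := max m₀ 1 with hm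
  have hm1 : 1 ≤ m := le_max_right _ _
  have hmη : (k : ℝ) + 1 ≤ η * m := by
    rw [div_le_iff₀ hη] at hm₀
    have : (m₀ : ℝ) ≤ m := by exact_mod_cast le_max_left _ _
    nlinarith
  obtain ⟨K, hmK, hK⟩ := hT m hm1
  obtain ⟨c₀, hc₀, hev⟩ := hK 1 1 1 q hq
  have hq0 : q ≠ 0 := hq.ne_zero
  set M : ℕ := K.factorial * q with hM
  have hM1 : 1 ≤ M := Nat.mul_pos (Nat.factorial_pos K) (Nat.pos_of_ne_zero hq0)
  refine ⟨K, M, hM1, Dvd.intro_left _ rfl, c₀, hc₀, fun a ha => ?_⟩
  obtain ⟨col, hcol⟩ := Pool.Agent.N688.FB.bal m K hm1 hmK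
  filter_upwards [hev, Pool.Agent.H312R2.RG.ev_ff c₀ hc₀, eventually_ge_atTop 2,
    Real.tendsto_log_atTop.eventually_ge_atTop 1] with X hX hff hX2 hlog
  intro h hh hMhK bad hbad
  rw [ff_eq] at hX hff
  obtain ⟨hff1, hff2, hff3⟩ := hff
  set t : Fin K → ℕ := fun j => M * h * j.val with ht
  have hMh : 1 ≤ M * h := Nat.mul_pos hM1 hh
  have htinj : Function.Injective t := by
    intro i j hij
    exact Fin.ext (Nat.eq_of_mul_eq_mul_left (by omega) hij)
  have htX : ∀ j, (t j : ℝ) ≤ Real.log X ^ 2 := by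
    intro j
    have h1 : t j ≤ M * h * K := Nat.mul_le_mul_left _ j.2.le
    have h2 : (t j : ℝ) ≤ ((M * h * K : ℕ) : ℝ) := by exact_mod_cast h1
    have h3 : 0 ≤ c₀ * ff X := by positivity
    linarith
  obtain ⟨n, hn1, hn2, hn3, hn4, ⟨E, hE1, hE2⟩, hn5⟩ := hX 1 0 one_ne_zero (by
      rw [Int.cast_one, abs_one, pow_one]
      exact hlog) (by simp) (by
      rw [Int.cast_zero, abs_zero]
      positivity) t htinj htX (by
      intro p hp
      by_cases hpK : p ≤ K
      · refine ⟨1, fun j hj => ?_⟩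
        have h1 : p ∣ t j := by
          have h2 : p ∣ M := (Nat.dvd_factorial hp.pos hpK).mul_right q
          exact (h2.mul_right h).mul_right _
        have h2 : p ∣ 1 := (Nat.dvd_add_left h1).1 hj
        exact hp.one_lt.ne' (Nat.dvd_one.1 h2)
      · by_contra hall
        push Not at hall
        have h1 : ∀ v : Fin p, ∃ j, p ∣ v.val + t j := fun v => hall v
        choose g hg using h1
        have h2 : Function.Injective g := by
          intro v w hvw
          have h3 := hg v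
          have h4 := hg w
          rw [hvw] at h3
          have h5 : v.val + t (g w) ≡ w.val + t (g w) [MOD p] :=
            ((Nat.modEq_zero_iff_dvd).2 h3).trans ((Nat.modEq_zero_iff_dvd).2 h4).symm
          have h6 := Nat.ModEq.add_right_cancel' _ h5
          have h7 := Nat.ModEq.eq_of_lt_of_lt h6 v.2 w.2
          exact Fin.ext h7
        have h3 := Fintype.card_le_of_injective g h2
        rw [Fintype.card_fin, Fintype.card_fin] at h3
        exact hpK h3) a (by
      intro j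
      have h1 : q ∣ t j := ((Dvd.intro_left _ rfl : q ∣ M).mul_right h).mul_right _
      obtain ⟨w, hw⟩ := h1
      rw [hw]
      exact (Nat.coprime_add_mul_left_left a q w).2 ha) col hcol bad hbad
  refine ⟨n, hn1, hn2, hn3, hn4, ⟨univ.filter (fun j => (n + t j).Prime), ?_, ?_⟩, ?_⟩
  · have h1 : E ⊆ (univ.filter (fun j => (n + t j).Prime)).image col := by
      intro e he
      obtain ⟨j, hj1, hj2⟩ := hE2 e he
      exact mem_image.2 ⟨j, mem_filter.2 ⟨mem_univ _, hj2⟩, hj1⟩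
    have h2 : E.card ≤ (univ.filter (fun j => (n + t j).Prime)).card :=
      (card_le_card h1).trans card_image_le
    have h3 : ((k + 1 : ℕ) : ℝ) ≤ (univ.filter (fun j => (n + t j).Prime)).card := by
      push_cast
      refine hmη.trans (hE1.trans ?_)
      exact_mod_cast h2
    exact_mod_cast h3
  · intro l hl
    exact (mem_filter.1 hl).2
  · intro p hp hpn
    refine hn5 1 1 (by norm_num) (by norm_num) (by norm_num) (by norm_num) p hp ?_
    have e : ((1 * p - 1 * (1 * n + 0) : ℤ) : ℝ) = (p : ℝ) - n := by push_cast; ring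
    rw [e]
    exact hpn

theorem isolated_final (k q : ℕ) (hq : Squarefree q) :
    ∃ K : ℕ, ∃ c : ℝ, 0 < c ∧ ∀ a : ℕ, a.Coprime q → ∀ᶠ X : ℝ in atTop, ∀ H : ℝ, 1 ≤ H →
      H ≤ c * ff X → X ^ (6 / 7 : ℝ) ≤ ({n : ℕ | Clu k K q a c H X n}.ncard : ℝ) := by
  obtain ⟨K, M, hM, hqM, c₀, hc₀, hW⟩ := windows k q hq
  refine ⟨K, isolated_of exc hc₀ hM hqM ?_ hW⟩
  have h := Pool.Agent.H312R2.RG.ev_ff c₀ hc₀
  rw [ff_eq] at h
  exact h

end Pool.Agent.T63.Broc
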