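import Pool.Agent.T63.BrocF

set_option autoImplicit false

/-!
# MP_739ba1_nt: chains of record values of `N(n)`

`N(n)` is the number of the primes strictly between the squares of the `n`-th and the `(n + 1)`-th
prime. Brocard's conjecture is `N(n) ≥ 4` for `n ≥ 2`; the average size of `N(n)` is `n log n`. For every
`k` there are at least `x ^ (7/8) / 2` runs of `k` consecutive `n` with `p_n ≤ x` for which all the `N(n)`
exceed `c n f(x)`, where `f` is the size of the largest gaps between primes that are known to occur.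

Proof: chains of `k` record gaps between primes (`Pool.Agent.H312R2.RG`), and the lower bound of the right
order for the number of primes in all intervals of length `≥ p ^ (1 - η)` between the squares of
consecutive primes outside an exceptional set of at most `C x ^ 0.612` primes (`Pool.Agent.H89B.Exc`, from
the zero density and sieve estimates in `Pool.Agent.Q278.KT`).
-/

namespace Pool.Agent.T63.BrocRecordValues

/-- The `n`-th prime, `p 1 = 2`. -/
noncomputable def p (n : ℕ) : ℕ := Nat.nth Nat.Prime (n - 1)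

/-- The number of primes strictly between `p n ^ 2` and `p (n + 1) ^ 2`. -/
noncomputable def N (n : ℕ) : ℕ := {q : ℕ | q.Prime ∧ p n ^ 2 < q ∧ q < p (n + 1) ^ 2}.ncard

/-- `f(x) = log x (log₂ x)² log₄ x / (log₃ x)²` (iterated natural logarithms). -/
noncomputable def f (x : ℝ) : ℝ :=
  Real.log x * (Real.log (Real.log x)) ^ 2 * Real.log (Real.log (Real.log (Real.log x))) /
    (Real.log (Real.log (Real.log x))) ^ 2

theorem result : ∀ k : ℕ, ∃ c : ℝ, 0 < c ∧ ∃ x₀ : ℝ, ∀ x : ℝ, x₀ ≤ x →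
    x ^ (7 / 8 : ℝ) / 2 ≤ ({n : ℕ | 1 ≤ n ∧ (p (n + k) : ℝ) ≤ x ∧
      ∀ i < k, c * ((n + i : ℕ) : ℝ) * f x ≤ N (n + i)}.ncard : ℝ) := by
  intro k
  obtain ⟨c, hc, x₀, h⟩ := Pool.Agent.T63.Broc.records_final k
  refine ⟨c, hc, x₀, fun x hx => (h x hx).trans ?_⟩
  rw [Nat.cast_le]
  have hp : ∀ n : ℕ, p (n + 1) = Pool.Agent.T63.Broc.P n := fun n => rfl
  have hN : ∀ n : ℕ, N (n + 1) = Pool.Agent.T63.Broc.N n := fun n => rfl
  have hfin : {n : ℕ | 1 ≤ n ∧ (p (n + k) : ℝ) ≤ x ∧
      ∀ i < k, c * ((n + i : ℕ) : ℝ) * f x ≤ N (n + i)}.Finite := by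
    refine (Set.finite_Iic (⌊x⌋₊ + 1)).subset ?_
    rintro n ⟨h0, h1, -⟩
    rw [Set.mem_Iic]
    obtain ⟨m, rfl⟩ : ∃ m, n = m + 1 := ⟨n - 1, by omega⟩
    rw [show m + 1 + k = m + k + 1 by omega, hp] at h1
    have h2 : m ≤ ⌊x⌋₊ := by
      refine Nat.le_floor (le_trans ?_ h1)
      exact_mod_cast (Nat.le_add_right m k).trans (Pool.Agent.T63.Broc.le_P (m + k))
    omega
  rw [← Set.ncard_image_of_injective _ (add_left_injective 1)]
  refine Set.ncard_le_ncard ?_ hfin
  rintro _ ⟨n, ⟨h1, h2⟩, rfl⟩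
  refine ⟨by simp, ?_, fun i hi => ?_⟩
  · change (p (n + 1 + k) : ℝ) ≤ x
    rw [show n + 1 + k = n + k + 1 by omega, hp]
    exact h1
  · change c * ((n + 1 + i : ℕ) : ℝ) * f x ≤ N (n + 1 + i)
    rw [show n + 1 + i = n + i + 1 by omega, hN]
    have h3 := h2 i hi
    push_cast
    exact h3

end Pool.Agent.T63.BrocRecordValues
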