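import Mathlib

set_option autoImplicit false

/-! The free abelian topological group in the sense of Markov: general facts. -/

open Topology Set Filter

namespace Pool.Agent.T63.FAG

/-- the group topologies on the free abelian group on `X` which induce the topology of `X` -/
def inducingTopologies (X : Type) [tX : TopologicalSpace X] :
    Set (TopologicalSpace (FreeAbelianGroup X)) :=
  {τ | @IsTopologicalAddGroup (FreeAbelianGroup X) τ _ ∧
    TopologicalSpace.induced FreeAbelianGroup.of τ = tX}

section Universal

variable {X : Type} [tX : TopologicalSpace X] {τ : TopologicalSpace (FreeAbelianGroup X)}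

lemma continuous_of (hτ : IsLeast (inducingTopologies X) τ) :
    @Continuous _ _ tX τ (FreeAbelianGroup.of : X → FreeAbelianGroup X) :=
  continuous_iff_le_induced.2 hτ.1.2.ge

/-- the universal property -/
lemma continuous_lift (hτ : IsLeast (inducingTopologies X) τ) {G : Type} [AddCommGroup G]
    [tG : TopologicalSpace G] [IsTopologicalAddGroup G] {f : X → G} (hf : Continuous f) :
    @Continuous _ _ τ tG (FreeAbelianGroup.lift f) := by
  rw [continuous_iff_le_induced]
  have h1 : @IsTopologicalAddGroup (FreeAbelianGroup X)
      (TopologicalSpace.induced (FreeAbelianGroup.lift f) tG) _ :=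
    topologicalAddGroup_induced (FreeAbelianGroup.lift f)
  have h2 : τ ⊓ TopologicalSpace.induced (FreeAbelianGroup.lift f) tG ∈ inducingTopologies X := by
    refine ⟨topologicalAddGroup_inf hτ.1.1 h1, ?_⟩
    rw [induced_inf, hτ.1.2, induced_compose]
    have h3 : (⇑(FreeAbelianGroup.lift f) ∘ (FreeAbelianGroup.of : X → FreeAbelianGroup X)) = f := by
      funext x; simp
    rw [h3]
    exact inf_eq_left.2 (continuous_iff_le_induced.1 hf)
  exact (hτ.2 h2).trans inf_le_right

/-- the finest group topology inducing the topology of a completely regular space exists -/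
lemma exists_isLeast [CompletelyRegularSpace X] : ∃ τ, IsLeast (inducingTopologies X) τ := by
  -- one such topology
  set τ₀ : TopologicalSpace (FreeAbelianGroup X) :=
    ⨅ f : {f : X → ℝ // Continuous f},
      TopologicalSpace.induced (FreeAbelianGroup.lift f.1) inferInstance with hτ₀
  have h0 : τ₀ ∈ inducingTopologies X := by
    refine ⟨topologicalAddGroup_iInf fun f => topologicalAddGroup_induced _, ?_⟩
    rw [hτ₀, induced_iInf]
    have h3 : ∀ f : {f : X → ℝ // Continuous f},
        TopologicalSpace.induced (FreeAbelianGroup.of : X → FreeAbelianGroup X)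
          (TopologicalSpace.induced (FreeAbelianGroup.lift f.1) inferInstance) =
        TopologicalSpace.induced f.1 inferInstance := by
      intro f
      rw [induced_compose]
      congr 1
      funext x; simp
    simp_rw [h3]
    apply le_antisymm
    · rw [TopologicalSpace.le_def]
      intro U hU
      rw [@isOpen_iff_forall_mem_open _ (⨅ f : {f : X → ℝ // Continuous f},
        TopologicalSpace.induced f.1 inferInstance)]
      intro x hx
      obtain ⟨f, hf, hfx, hfU⟩ := CompletelyRegularSpace.completely_regular x Uᶜ
        hU.isClosed_compl (by simpa using hx)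
      let g : {f : X → ℝ // Continuous f} := ⟨fun x => (f x : ℝ), by fun_prop⟩
      refine ⟨g.1 ⁻¹' (Iio 1), ?_, ?_, ?_⟩
      · intro y hy
        by_contra hyU
        have h5 := hfU (show y ∈ Uᶜ from hyU)
        have h6 : (f y : ℝ) < 1 := hy
        rw [h5] at h6
        simp at h6
      · have h7 : @IsOpen _ (TopologicalSpace.induced g.1 inferInstance) (g.1 ⁻¹' (Iio 1)) :=
          isOpen_induced isOpen_Iio
        exact (iInf_le (fun f : {f : X → ℝ // Continuous f} =>
          TopologicalSpace.induced f.1 (inferInstance : TopologicalSpace ℝ)) g) _ h7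
      · change (f x : ℝ) < 1
        rw [hfx]; simp
    · refine le_iInf fun f => continuous_iff_le_induced.1 f.2
  refine ⟨sInf (inducingTopologies X), ⟨?_, ?_⟩, fun τ hτ => sInf_le hτ⟩
  · exact topologicalAddGroup_sInf fun τ hτ => hτ.1
  · rw [induced_sInf]
    apply le_antisymm
    · refine (sInf_le (mem_image_of_mem _ h0)).trans h0.2.le
    · refine le_sInf ?_
      rintro _ ⟨τ, hτ, rfl⟩
      exact hτ.2.ge

/-- separation of an element from the subgroup generated by a closed set -/
lemma exists_separating [CompletelyRegularSpace X] [T1Space X] {F : Set X} (hF : IsClosed F)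
    {a : FreeAbelianGroup X} (ha : a ∉ AddSubgroup.closure (FreeAbelianGroup.of '' F)) :
    ∃ f : X → ℝ, Continuous f ∧ (∀ x ∈ F, f x = 0) ∧ FreeAbelianGroup.lift f a ≠ 0 := by
  classical
  obtain ⟨p, hp, hpF⟩ : ∃ p ∈ a.support, p ∉ F := by
    by_contra hcon
    push Not at hcon
    apply ha
    rw [FreeAbelianGroup.eq_sum_support_coeff_smul_of a]
    refine AddSubgroup.sum_mem _ fun x hx => AddSubgroup.zsmul_mem _ ?_ _
    exact AddSubgroup.subset_closure ⟨x, hcon x hx, rfl⟩
  have hcl : IsClosed (F ∪ (a.support.erase p : Set X)) :=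
    hF.union (Finset.finite_toSet _).isClosed
  obtain ⟨f, hf, hfp, hfF⟩ := CompletelyRegularSpace.completely_regular p _ hcl (by
    simp [hpF])
  refine ⟨fun x => 1 - (f x : ℝ), by fun_prop, fun x hx => ?_, ?_⟩
  · have := hfF (Or.inl hx : x ∈ F ∪ (a.support.erase p : Set X))
    simp [this]
  · rw [FreeAbelianGroup.eq_sum_support_coeff_smul_of a, map_sum,
      ← Finset.add_sum_erase _ _ hp, Finset.sum_eq_zero, add_zero]
    · simp only [map_zsmul, FreeAbelianGroup.lift_apply_of, hfp]
      simpa using hp
    · intro x hx
      have := hfF (Or.inr (Finset.mem_coe.2 hx) : x ∈ F ∪ (a.support.erase p : Set X))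
      simp only [map_zsmul, FreeAbelianGroup.lift_apply_of, this]
      simp

lemma isClosed_closure (hτ : IsLeast (inducingTopologies X) τ) [CompletelyRegularSpace X]
    [T1Space X] {F : Set X} (hF : IsClosed F) :
    IsClosed[τ] (AddSubgroup.closure (FreeAbelianGroup.of '' F) : Set (FreeAbelianGroup X)) := by
  let _ := τ
  rw [← isOpen_compl_iff, isOpen_iff_forall_mem_open]
  intro a ha
  obtain ⟨f, hf, hfF, hfa⟩ := exists_separating hF ha
  refine ⟨(FreeAbelianGroup.lift f) ⁻¹' {0}ᶜ, ?_, ?_, hfa⟩
  · intro b hb hbH
    apply hb
    have : AddSubgroup.closure (FreeAbelianGroup.of '' F) ≤ (FreeAbelianGroup.lift f).ker := by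
      rw [AddSubgroup.closure_le]
      rintro _ ⟨x, hx, rfl⟩
      simp [AddMonoidHom.mem_ker, hfF x hx]
    exact this hbH
  · exact isOpen_compl_singleton.preimage (continuous_lift hτ hf)

lemma t2Space (hτ : IsLeast (inducingTopologies X) τ) [CompletelyRegularSpace X]
    [T1Space X] : @T2Space _ τ := by
  let _ := τ
  have : IsTopologicalAddGroup (FreeAbelianGroup X) := hτ.1.1
  have h := isClosed_closure hτ (F := ∅) isClosed_empty
  simp only [image_empty, AddSubgroup.closure_empty, AddSubgroup.coe_bot] at h
  have : T1Space (FreeAbelianGroup X) := IsTopologicalAddGroup.t1Space _ h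
  infer_instance

end Universal

end Pool.Agent.T63.FAG
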