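import Pool.Agent.T63.FAG1

set_option autoImplicit false

/-! A group topology on the free abelian group of a compact Hausdorff space for which every
function that is continuous on the finite levels is continuous (Graev). -/

open Topology Set Filter
open scoped Pointwise

namespace Pool.Agent.T63.FAG

section Basis

variable {C : Type}

/-- finite sums of differences `x_i - y_i` with `(x_i, y_i) ∈ U i` -/
def smallSums (U : ℕ → Set (C × C)) : Set (FreeAbelianGroup C) :=
  {a | ∃ (F : Finset ℕ) (t : ℕ → C × C), (∀ i ∈ F, t i ∈ U i) ∧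
    a = ∑ i ∈ F, (FreeAbelianGroup.of (t i).1 - FreeAbelianGroup.of (t i).2)}

lemma smallSums_mono {U U' : ℕ → Set (C × C)} (h : ∀ i, U i ⊆ U' i) :
    smallSums U ⊆ smallSums U' := by
  rintro a ⟨F, t, ht, rfl⟩
  exact ⟨F, t, fun i hi => h i (ht i hi), rfl⟩

variable (C) [TopologicalSpace C] [Nonempty C]

/-- the filter basis of the group topology -/
@[instance_reducible]
noncomputable def basis : AddGroupFilterBasis (FreeAbelianGroup C) :=
  addGroupFilterBasisOfComm
    {W | ∃ U : ℕ → Set (C × C), (∀ i x, U i ∈ 𝓝 (x, x)) ∧ W = smallSums U}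
    ⟨_, fun _ => univ, fun _ _ => univ_mem, rfl⟩
    (by
      rintro _ _ ⟨U, hU, rfl⟩ ⟨U', hU', rfl⟩
      refine ⟨_, ⟨fun i => U i ∩ U' i, fun i x => inter_mem (hU i x) (hU' i x), rfl⟩, ?_⟩
      exact subset_inter (smallSums_mono fun i => inter_subset_left)
        (smallSums_mono fun i => inter_subset_right))
    (by
      rintro _ ⟨U, hU, rfl⟩
      obtain ⟨c⟩ := ‹Nonempty C›
      exact ⟨∅, fun _ => (c, c), by simp, by simp⟩)
    (by
      classical
      rintro _ ⟨U, hU, rfl⟩
      refine ⟨_, ⟨fun i => U (2 * i) ∩ U (2 * i + 1),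
        fun i x => inter_mem (hU _ x) (hU _ x), rfl⟩, ?_⟩
      rintro _ ⟨_, ⟨F, t, ht, rfl⟩, _, ⟨F', t', ht', rfl⟩, rfl⟩
      refine ⟨F.image (fun i => 2 * i) ∪ F'.image (fun i => 2 * i + 1),
        fun j => if j % 2 = 0 then t (j / 2) else t' (j / 2), ?_, ?_⟩
      · intro j hj
        rw [Finset.mem_union, Finset.mem_image, Finset.mem_image] at hj
        rcases hj with ⟨i, hi, rfl⟩ | ⟨i, hi, rfl⟩
        · simp only [Nat.mul_mod_right, if_true]
          rw [Nat.mul_div_cancel_left _ (by norm_num)]
          exact (ht i hi).1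
        · have h1 : (2 * i + 1) % 2 = 1 := by omega
          have h2 : (2 * i + 1) / 2 = i := by omega
          simp only [h1, h2]
          exact (ht' i hi).2
      · rw [Finset.sum_union]
        · rw [Finset.sum_image (by intro a _ b _ h; simpa using h),
            Finset.sum_image (by intro a _ b _ h; simpa using h)]
          congr 1
          · refine Finset.sum_congr rfl fun i _ => ?_
            simp
          · refine Finset.sum_congr rfl fun i _ => ?_
            have h1 : (2 * i + 1) % 2 = 1 := by omega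
            have h2 : (2 * i + 1) / 2 = i := by omega
            simp [h1, h2]
        · rw [Finset.disjoint_left]
          intro j hj hj'
          rw [Finset.mem_image] at hj hj'
          obtain ⟨i, -, rfl⟩ := hj
          obtain ⟨i', -, h⟩ := hj'
          omega)
    (by
      rintro _ ⟨U, hU, rfl⟩
      refine ⟨_, ⟨fun i => Prod.swap ⁻¹' U i, fun i x => ?_, rfl⟩, ?_⟩
      · exact continuous_swap.continuousAt.preimage_mem_nhds (hU i x)
      · rintro _ ⟨F, t, ht, rfl⟩
        refine ⟨F, fun i => (t i).swap, fun i hi => ht i hi, ?_⟩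
        simp)

/-- the group topology with the basis `basis C` -/
@[instance_reducible]
noncomputable def grTop : TopologicalSpace (FreeAbelianGroup C) := (basis C).topology

lemma isTopologicalAddGroup_grTop : @IsTopologicalAddGroup (FreeAbelianGroup C) (grTop C) _ :=
  (basis C).isTopologicalAddGroup

lemma continuous_of_grTop :
    @Continuous C (FreeAbelianGroup C) _ (grTop C) FreeAbelianGroup.of := by
  let _ := grTop C
  rw [continuous_iff_continuousAt]
  intro x
  rw [ContinuousAt, ((basis C).nhds_hasBasis (FreeAbelianGroup.of x)).tendsto_right_iff]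
  rintro _ ⟨U, hU, rfl⟩
  have h1 : ∀ᶠ y in 𝓝 x, (y, x) ∈ U 0 := by
    have h2 : ContinuousAt (fun y : C => (y, x)) x := by fun_prop
    exact h2.preimage_mem_nhds (hU 0 x)
  filter_upwards [h1] with y hy
  refine ⟨FreeAbelianGroup.of y - FreeAbelianGroup.of x, ⟨{0}, fun _ => (y, x), ?_, ?_⟩, ?_⟩
  · intro i hi
    rw [Finset.mem_singleton] at hi
    subst hi; exact hy
  · simp
  · simp

end Basis

section Graev

variable {C : Type}

/-- finite sums of maps `± of ∘ g` with `g : T → C` continuous -/
def polys (T : Type) [TopologicalSpace T] (C : Type) [TopologicalSpace C] :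
    AddSubgroup (T → FreeAbelianGroup C) :=
  AddSubgroup.closure {φ | ∃ g : T → C, Continuous g ∧ φ = fun t => FreeAbelianGroup.of (g t)}

lemma const_mem_polys (T : Type) [TopologicalSpace T] [TopologicalSpace C]
    (a : FreeAbelianGroup C) : (fun _ => a) ∈ polys T C := by
  induction a using FreeAbelianGroup.induction_on with
  | zero => exact zero_mem _
  | of x => exact AddSubgroup.subset_closure ⟨fun _ => x, continuous_const, rfl⟩
  | neg x hx => exact neg_mem hx
  | add x y hx hy => exact add_mem hx hy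

/-- **Graev.** -/
lemma continuous_of_polys [TopologicalSpace C] [CompactSpace C] [T2Space C] [Nonempty C]
    {h : FreeAbelianGroup C → ℝ}
    (hh : ∀ φ ∈ polys (ℕ → C × C) C, Continuous (fun t => h (φ t))) :
    @Continuous _ _ (grTop C) _ h := by
  let _ := grTop C
  rw [continuous_iff_continuousAt]
  intro a
  rw [ContinuousAt, Metric.tendsto_nhds]
  intro δ hδ
  -- the partial sums
  set S : ℕ → (ℕ → C × C) → FreeAbelianGroup C := fun N t =>
    a + ∑ i ∈ Finset.range N, (FreeAbelianGroup.of (t i).1 - FreeAbelianGroup.of (t i).2) with hS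
  have hSp : ∀ N, S N ∈ polys (ℕ → C × C) C := by
    intro N
    have e : S N = (fun _ => a) + ∑ i ∈ Finset.range N,
        ((fun t : ℕ → C × C => FreeAbelianGroup.of (t i).1) -
          (fun t : ℕ → C × C => FreeAbelianGroup.of (t i).2)) := by
      funext t; simp [hS]
    rw [e]
    refine add_mem (const_mem_polys _ a) (sum_mem fun i _ => sub_mem ?_ ?_)
    · exact AddSubgroup.subset_closure ⟨fun t => (t i).1, by fun_prop, rfl⟩
    · exact AddSubgroup.subset_closure ⟨fun t => (t i).2, by fun_prop, rfl⟩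
  have hSc : ∀ N, Continuous fun t => h (S N t) := fun N => hh _ (hSp N)
  have key : ∀ (N : ℕ) (Z : Set (ℕ → C × C)), ∃ U : Set (C × C), (∀ x, U ∈ 𝓝 (x, x)) ∧
      IsClosed U ∧ (IsClosed Z → (∀ t ∈ Z, dist (h (S N t)) (h a) < δ) →
        ∀ t ∈ Z, t N ∈ U → dist (h (S (N + 1) t)) (h a) < δ) := by
    intro N Z
    by_cases hZ : IsClosed Z ∧ ∀ t ∈ Z, dist (h (S N t)) (h a) < δ
    · obtain ⟨hZ, hgood⟩ := hZ
      set G : Set (ℕ → C × C) := {t | dist (h (S (N + 1) t)) (h a) < δ} with hG
      have hGo : IsOpen G := isOpen_lt ((hSc (N + 1)).dist continuous_const) continuous_const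
      set Q : Set (C × C) := (fun t : ℕ → C × C => t N) '' (Z ∩ Gᶜ) with hQ
      have hQc : IsClosed Q :=
        ((hZ.inter hGo.isClosed_compl).isCompact.image (continuous_apply N)).isClosed
      have hdiag : diagonal C ⊆ Qᶜ := by
        rintro ⟨x, y⟩ hxy ⟨t, ⟨htZ, htG⟩, ht⟩
        have hxy' : x = y := hxy
        subst hxy'
        apply htG
        have e : S (N + 1) t = S N t := by
          have h1 : t N = (x, x) := ht
          simp [hS, Finset.sum_range_succ, h1]
        simp only [hG, mem_ofPred_eq, e]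
        exact hgood t htZ
      obtain ⟨O, hO, hdO, hOQ⟩ := normal_exists_closure_subset isClosed_diagonal
        hQc.isOpen_compl hdiag
      refine ⟨closure O, fun x => ?_, _root_.isClosed_closure, fun _ _ t htZ htO => ?_⟩
      · exact mem_of_superset (hO.mem_nhds (hdO rfl)) subset_closure
      · by_contra hbad
        exact hOQ htO ⟨t, ⟨htZ, hbad⟩, rfl⟩
    · exact ⟨univ, fun x => univ_mem, isClosed_univ, fun h1 h2 => absurd ⟨h1, h2⟩ hZ⟩
  choose nx hnx1 hnx2 hnx3 using key
  let Zs : ℕ → Set (ℕ → C × C) := fun N => Nat.rec univ (fun N Z => Z ∩ {t | t N ∈ nx N Z}) N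
  have hZ0 : Zs 0 = univ := rfl
  have hZs : ∀ N, Zs (N + 1) = Zs N ∩ {t | t N ∈ nx N (Zs N)} := fun N => rfl
  have hZgood : ∀ N, IsClosed (Zs N) ∧ ∀ t ∈ Zs N, dist (h (S N t)) (h a) < δ := by
    intro N
    induction N with
    | zero =>
      refine ⟨by rw [hZ0]; exact isClosed_univ, fun t _ => ?_⟩
      simp [hS, hδ]
    | succ N ih =>
      refine ⟨?_, ?_⟩
      · rw [hZs]
        exact ih.1.inter ((hnx2 N (Zs N)).preimage (continuous_apply N))
      · rw [hZs]
        rintro t ⟨h1, h2⟩
        exact hnx3 N (Zs N) ih.1 ih.2 t h1 h2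
  set U : ℕ → Set (C × C) := fun N => nx N (Zs N) with hU
  have hmem : ∀ N, ∀ t : ℕ → C × C, (∀ i < N, t i ∈ U i) → t ∈ Zs N := by
    intro N
    induction N with
    | zero => intro t _; rw [hZ0]; trivial
    | succ N ih =>
      intro t ht
      rw [hZs]
      exact ⟨ih t fun i hi => ht i (by omega), ht N (by omega)⟩
  have hW : smallSums U ∈ basis C := ⟨U, fun i x => hnx1 _ _ x, rfl⟩
  refine Filter.mem_of_superset (((basis C).nhds_hasBasis a).mem_of_mem hW) ?_
  classical
  rintro _ ⟨_, ⟨F, t, ht, rfl⟩, rfl⟩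
  obtain ⟨c⟩ := ‹Nonempty C›
  obtain ⟨N, hN⟩ := F.exists_nat_subset_range
  have h1 := (hZgood N).2 (fun i => if i ∈ F then t i else (c, c)) (hmem N _ fun i _ => by
    by_cases hi : i ∈ F
    · simp only [hi, if_true]; exact ht i hi
    · simp only [hi, if_false]
      exact mem_of_mem_nhds (hnx1 _ _ c))
  have e : S N (fun i => if i ∈ F then t i else (c, c)) =
      a + ∑ i ∈ F, (FreeAbelianGroup.of (t i).1 - FreeAbelianGroup.of (t i).2) := by
    simp only [hS]
    congr 1
    rw [← Finset.sum_subset hN]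
    · refine Finset.sum_congr rfl fun i hi => ?_
      simp [hi]
    · intro i _ hi
      simp [hi]
  rw [e] at h1
  exact h1

end Graev

end Pool.Agent.T63.FAG
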