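import Pool.Agent.T63.FAG2

set_option autoImplicit false

/-! The space `X = K × Σ ∪ Y × {0,1}^ℝ` and the `k_ℝ`-property of `A(X)`. -/

open Topology Set Filter

namespace Pool.Agent.T63.FAG

/-- `k_ℝ`-spaces: real functions which are continuous on compact sets are continuous -/
def IsKR (X : Type) [TopologicalSpace X] : Prop :=
  ∀ f : X → ℝ, (∀ K : Set X, IsCompact K → ContinuousOn f K) → Continuous f

/-- the Cantor cube -/
abbrev P : Type := ℝ → Bool

/-- the space `K × Σ ∪ Y × {0,1}^ℝ`, where `Σ` is the set of points with countable support -/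
abbrev XX (K : Type) (Y : Set K) : Type :=
  {p : K × P // {γ | p.2 γ = true}.Countable ∨ p.1 ∈ Y}

/-- the meet of two points of the cube -/
def meet (z w : P) : P := fun γ => z γ && w γ

open Classical in
/-- the indicator of a set -/
noncomputable def ind (J : Set ℝ) : P := fun γ => decide (γ ∈ J)

lemma ind_of_mem {J : Set ℝ} {γ : ℝ} (h : γ ∈ J) : ind J γ = true := by simp [ind, h]

lemma ind_of_notMem {J : Set ℝ} {γ : ℝ} (h : γ ∉ J) : ind J γ = false := by simp [ind, h]

/-- the unit -/
def one : P := fun _ => true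

lemma meet_one (z : P) : meet z one = z := by funext γ; simp [meet, one]

lemma meet_ind_ind (z : P) {J J' : Set ℝ} (h : J ⊆ J') :
    meet (meet z (ind J')) (ind J) = meet z (ind J) := by
  funext γ
  by_cases hγ : γ ∈ J
  · simp [meet, ind_of_mem hγ, ind_of_mem (h hγ)]
  · simp [meet, ind_of_notMem hγ]

lemma supp_meet_ind (z : P) (J : Set ℝ) : {γ | meet z (ind J) γ = true} ⊆ J := by
  intro γ hγ
  by_contra h
  simp [meet, ind_of_notMem h] at hγ

/-- indicators of large countable sets accumulate at the unit -/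
lemma one_mem_closure {𝒥 : Set (Set ℝ)} (h : ∀ F : Finset ℝ, ∃ J ∈ 𝒥, (F : Set ℝ) ⊆ J) :
    one ∈ closure (ind '' 𝒥) := by
  rw [mem_closure_iff]
  intro O hO h1
  obtain ⟨I, u, hu, hIO⟩ := isOpen_pi_iff.1 hO one h1
  obtain ⟨J, hJ, hIJ⟩ := h I
  refine ⟨ind J, hIO fun γ hγ => ?_, mem_image_of_mem _ hJ⟩
  have : ind J γ = one γ := by rw [ind_of_mem (hIJ hγ)]; rfl
  rw [this]
  exact (hu γ hγ).2

section

variable {K : Type} {Y : Set K}

/-- restriction of the support -/
def mt (w : P) (x : XX K Y) : XX K Y :=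
  ⟨(x.1.1, meet x.1.2 w), by
    rcases x.2 with h | h
    · left
      refine h.mono fun γ hγ => ?_
      simp only [meet, Bool.and_eq_true, mem_ofPred_eq] at hγ ⊢
      exact hγ.1
    · exact Or.inr h⟩

/-- truncation of an arbitrary point -/
noncomputable def rho (J : Set ℝ) (hJ : J.Countable) (p : K × P) : XX K Y :=
  ⟨(p.1, meet p.2 (ind J)), Or.inl (hJ.mono (supp_meet_ind _ _))⟩

lemma mt_ind_eq (J : Set ℝ) (hJ : J.Countable) (x : XX K Y) :
    mt (ind J) x = rho J hJ x.1 := rfl

lemma mt_one (x : XX K Y) : mt one x = x := by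
  apply Subtype.ext
  apply Prod.ext
  · rfl
  · exact meet_one _

lemma mt_ind_ind (x : XX K Y) {J J' : Set ℝ} (h : J ⊆ J') :
    mt (ind J) (mt (ind J') x) = mt (ind J) x := by
  apply Subtype.ext
  apply Prod.ext
  · rfl
  · exact meet_ind_ind _ h

variable [TopologicalSpace K]

lemma continuous_meet : Continuous fun p : P × P => meet p.1 p.2 := by
  unfold meet
  refine continuous_pi fun γ => ?_
  have h : Continuous fun q : Bool × Bool => (q.1 && q.2) := continuous_of_discreteTopology
  exact h.comp (by fun_prop : Continuous fun p : P × P => (p.1 γ, p.2 γ))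

lemma continuous_mt_left (x : XX K Y) : Continuous fun w : P => mt w x := by
  refine Continuous.subtype_mk ?_ _
  refine continuous_const.prodMk ?_
  exact continuous_meet.comp (by fun_prop : Continuous fun w : P => (x.1.2, w))

lemma continuous_mt (w : P) : Continuous (mt w : XX K Y → XX K Y) := by
  refine Continuous.subtype_mk ?_ _
  refine (by fun_prop : Continuous fun x : XX K Y => x.1.1).prodMk ?_
  exact continuous_meet.comp (by fun_prop : Continuous fun x : XX K Y => (x.1.2, w))

lemma continuous_rho (J : Set ℝ) (hJ : J.Countable) :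
    Continuous (rho J hJ : K × P → XX K Y) := by
  refine Continuous.subtype_mk ?_ _
  refine continuous_fst.prodMk ?_
  exact continuous_meet.comp (by fun_prop : Continuous fun x : K × P => (x.2, ind J))

end

section KR

set_option linter.unusedSectionVars false

variable {K : Type} [TopologicalSpace K] {Y : Set K}
  {τ : TopologicalSpace (FreeAbelianGroup (XX K Y))}

/-- the induced endomorphism of the free abelian group -/
noncomputable def MT (w : P) : FreeAbelianGroup (XX K Y) →+ FreeAbelianGroup (XX K Y) :=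
  FreeAbelianGroup.map (mt w)

lemma MT_one (a : FreeAbelianGroup (XX K Y)) : MT one a = a := by
  have : (mt one : XX K Y → XX K Y) = id := funext mt_one
  rw [MT, this, FreeAbelianGroup.map_id_apply]

lemma MT_ind_ind (a : FreeAbelianGroup (XX K Y)) {J J' : Set ℝ} (h : J ⊆ J') :
    MT (ind J) (MT (ind J') a) = MT (ind J) a := by
  rw [MT, MT, ← FreeAbelianGroup.map_comp_apply]
  congr 2
  funext x
  exact mt_ind_ind x h

lemma continuous_MT_left (hτ : IsLeast (inducingTopologies (XX K Y)) τ)
    (a : FreeAbelianGroup (XX K Y)) : Continuous fun w : P => MT w a := by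
  have : IsTopologicalAddGroup (FreeAbelianGroup (XX K Y)) := hτ.1.1
  induction a using FreeAbelianGroup.induction_on with
  | zero => simpa using continuous_const
  | of x =>
    simp only [MT, FreeAbelianGroup.map_of_apply]
    exact (continuous_of hτ).comp (continuous_mt_left x)
  | neg x hx => simp only [map_neg]; exact hx.neg
  | add x y hx hy => simp only [map_add]; exact hx.add hy

/-- a function continuous on compact sets is continuous along maps from compact spaces -/
lemma comp_of_compact {A : Type} [TopologicalSpace A] {f : A → ℝ}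
    (hf : ∀ Q : Set A, IsCompact Q → ContinuousOn f Q) {T : Type} [TopologicalSpace T]
    [CompactSpace T] {φ : T → A} (hφ : Continuous φ) : Continuous fun t => f (φ t) := by
  have h1 := hf (range φ) (isCompact_range hφ)
  exact h1.comp_continuous hφ fun t => mem_range_self t

lemma step_A (hτ : IsLeast (inducingTopologies (XX K Y)) τ) {f : FreeAbelianGroup (XX K Y) → ℝ}
    (hf : ∀ Q : Set (FreeAbelianGroup (XX K Y)), IsCompact Q → ContinuousOn f Q)
    {J : Set ℝ} (hJ : J.Countable) {a : FreeAbelianGroup (XX K Y)}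
    (ha : f (MT (ind J) a) ≠ f a) :
    ∃ J' : Set ℝ, J ⊆ J' ∧ J'.Countable ∧ f (MT (ind J) a) ≠ f (MT (ind J') a) := by
  by_contra hcon
  push Not at hcon
  apply ha
  have hc := comp_of_compact hf (continuous_MT_left hτ a)
  have hcl : IsClosed {w : P | f (MT (ind J) a) = f (MT w a)} := isClosed_eq continuous_const hc
  have h1 : one ∈ closure (ind '' {J' : Set ℝ | J ⊆ J' ∧ J'.Countable}) :=
    one_mem_closure fun F => ⟨J ∪ F, ⟨subset_union_left, hJ.union F.countable_toSet⟩,
      subset_union_right⟩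
  have h2 : closure (ind '' {J' : Set ℝ | J ⊆ J' ∧ J'.Countable}) ⊆
      {w : P | f (MT (ind J) a) = f (MT w a)} := by
    refine closure_minimal ?_ hcl
    rintro _ ⟨J', ⟨h3, h4⟩, rfl⟩
    exact hcon J' h3 h4
  have h3 := h2 h1
  simp only [mem_ofPred_eq, MT_one] at h3
  exact h3

/-- linear combinations -/
noncomputable def comb {n : ℕ} (ε : Fin n → ℤ) (x : Fin n → XX K Y) : FreeAbelianGroup (XX K Y) :=
  ∑ i, ε i • FreeAbelianGroup.of (x i)

lemma MT_comb {n : ℕ} (ε : Fin n → ℤ) (x : Fin n → XX K Y) (w : P) :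
    MT w (comb ε x) = comb ε (fun i => mt w (x i)) := by
  simp [comb, MT]

lemma exists_comb (a : FreeAbelianGroup (XX K Y)) :
    ∃ (n : ℕ) (ε : Fin n → ℤ) (x : Fin n → XX K Y), a = comb ε x := by
  classical
  refine ⟨a.support.card, fun i => FreeAbelianGroup.coeff
    (a.support.equivFin.symm i : XX K Y) a, fun i => a.support.equivFin.symm i, ?_⟩
  conv_lhs => rw [FreeAbelianGroup.eq_sum_support_coeff_smul_of a]
  rw [comb, ← Finset.sum_coe_sort a.support, ← Equiv.sum_comp a.support.equivFin.symm]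

/-- the bad situation -/
def Bad (f : FreeAbelianGroup (XX K Y) → ℝ) (d : Σ n : ℕ, (Fin n → ℤ) × ℕ) (J : Set ℝ)
    (J' : Set ℝ) (y : Fin d.1 → XX K Y) : Prop :=
  (∀ i, mt (ind J') (y i) = y i) ∧
    1 / ((d.2.2 : ℝ) + 1) < |f (comb d.2.1 (fun i => mt (ind J) (y i))) - f (comb d.2.1 y)|

lemma exists_bad (hτ : IsLeast (inducingTopologies (XX K Y)) τ)
    {f : FreeAbelianGroup (XX K Y) → ℝ}
    (hf : ∀ Q : Set (FreeAbelianGroup (XX K Y)), IsCompact Q → ContinuousOn f Q)
    {J : Set ℝ} (hJ : J.Countable) {a : FreeAbelianGroup (XX K Y)}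
    (ha : f (MT (ind J) a) ≠ f a) :
    ∃ (d : Σ n : ℕ, (Fin n → ℤ) × ℕ) (J' : Set ℝ) (y : Fin d.1 → XX K Y),
      J ⊆ J' ∧ J'.Countable ∧ Bad f d J J' y := by
  obtain ⟨J', h1, h2, h3⟩ := step_A hτ hf hJ ha
  obtain ⟨n, ε, x, rfl⟩ := exists_comb a
  have hpos : 0 < |f (MT (ind J) (comb ε x)) - f (MT (ind J') (comb ε x))| :=
    abs_pos.2 (sub_ne_zero.2 h3)
  obtain ⟨m, hm⟩ := exists_nat_one_div_lt hpos
  refine ⟨⟨n, ε, m⟩, J', fun i => mt (ind J') (x i), h1, h2, fun i => ?_, ?_⟩
  · exact mt_ind_ind (x i) subset_rfl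
  · simp only
    rw [MT_comb, MT_comb] at hm
    have : (fun i => mt (ind J) (mt (ind J') (x i))) = fun i => mt (ind J) (x i) := by
      funext i; exact mt_ind_ind (x i) h1
    rw [this]
    exact hm

/-- **Stabilisation.** -/
lemma exists_stable [CompactSpace K] (hτ : IsLeast (inducingTopologies (XX K Y)) τ)
    {f : FreeAbelianGroup (XX K Y) → ℝ}
    (hf : ∀ Q : Set (FreeAbelianGroup (XX K Y)), IsCompact Q → ContinuousOn f Q) :
    ∃ J : Set ℝ, J.Countable ∧ ∀ a, f (MT (ind J) a) = f a := by
  have : IsTopologicalAddGroup (FreeAbelianGroup (XX K Y)) := hτ.1.1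
  by_contra hcon
  push Not at hcon
  -- one type of bad situation occurs cofinally
  obtain ⟨d, hd⟩ : ∃ d : (Σ n : ℕ, (Fin n → ℤ) × ℕ), ∀ J₀ : {J : Set ℝ // J.Countable},
      ∃ (J J' : {J : Set ℝ // J.Countable}) (y : Fin d.1 → XX K Y), J₀.1 ⊆ J.1 ∧ J.1 ⊆ J'.1 ∧
        Bad f d J.1 J'.1 y := by
    by_contra hno
    push Not at hno
    choose J₀ hJ₀ using hno
    obtain ⟨a, ha⟩ := hcon (⋃ d, (J₀ d).1) (countable_iUnion fun d => (J₀ d).2)
    obtain ⟨d, J', y, h1, h2, h3⟩ :=
      exists_bad hτ hf (countable_iUnion fun d => (J₀ d).2) ha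
    exact hJ₀ d ⟨_, countable_iUnion fun d => (J₀ d).2⟩ ⟨J', h2⟩ y
      (subset_iUnion (fun d => (J₀ d).1) d) h1 h3
  obtain ⟨n, ε, m⟩ := d
  choose N M y hN hM hbad using hd
  let A : ℕ → {J : Set ℝ // J.Countable} := fun k => M^[k] ⟨∅, countable_empty⟩
  have hA : ∀ k, A (k + 1) = M (A k) := fun k => Function.iterate_succ_apply' _ _ _
  have hAN : ∀ k, (A k).1 ⊆ (N (A k)).1 := fun k => hN _
  have hNA : ∀ k, (N (A k)).1 ⊆ (A (k + 1)).1 := fun k => by rw [hA]; exact hM _
  have hmono : Monotone fun k => (A k).1 := monotone_nat_of_le_succ fun k => (hAN k).trans (hNA k)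
  set J : Set ℝ := ⋃ k, (A k).1 with hJ
  have hJc : J.Countable := countable_iUnion fun k => (A k).2
  set u : ℕ → Fin n → K × P := fun k i => (y (A k) i).1 with hu
  set v : ℕ → Fin n → K × P := fun k i =>
    ((y (A k) i).1.1, meet (y (A k) i).1.2 (ind (N (A k)).1)) with hv
  set g : (Fin n → K × P) → ℝ := fun t => f (comb ε (fun i => rho J hJc (t i))) with hg
  have hgc : Continuous g := by
    refine comp_of_compact hf ?_
    unfold comb
    refine continuous_finsetSum _ fun i _ => ?_
    refine Continuous.zsmul ((continuous_of hτ).comp ?_) _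
    exact (continuous_rho J hJc).comp (continuous_apply i)
  have hfix : ∀ k i, mt (ind (A (k + 1)).1) (y (A k) i) = y (A k) i := fun k i => by
    rw [hA]; exact (hbad (A k)).1 i
  have hfixJ : ∀ k i, mt (ind J) (y (A k) i) = y (A k) i := by
    intro k i
    apply Subtype.ext
    apply Prod.ext
    · rfl
    · have h1 := congrArg (fun x => x.1.2) (hfix k i)
      change meet (y (A k) i).1.2 (ind (A (k + 1)).1) = (y (A k) i).1.2 at h1
      change meet (y (A k) i).1.2 (ind J) = (y (A k) i).1.2
      funext γ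
      by_cases hγ : γ ∈ J
      · simp [meet, ind_of_mem hγ]
      · have h2 := congrFun h1 γ
        have h3 : γ ∉ (A (k + 1)).1 := fun h => hγ (mem_iUnion.2 ⟨_, h⟩)
        simp only [meet, ind_of_notMem hγ, ind_of_notMem h3, Bool.and_false] at h2 ⊢
        exact h2
  have hgu : ∀ k, g (u k) = f (comb ε (y (A k))) := by
    intro k
    simp only [hg, hu]
    congr 2
    funext i
    exact hfixJ k i
  have hgv : ∀ k, g (v k) = f (comb ε (fun i => mt (ind (N (A k)).1) (y (A k) i))) := by
    intro k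
    simp only [hg, hv]
    congr 2
    funext i
    apply Subtype.ext
    apply Prod.ext
    · rfl
    · change meet (meet (y (A k) i).1.2 (ind (N (A k)).1)) (ind J) =
        meet (y (A k) i).1.2 (ind (N (A k)).1)
      funext γ
      by_cases hγ : γ ∈ J
      · simp [meet, ind_of_mem hγ]
      · have h3 : γ ∉ (N (A k)).1 := fun h => hγ (mem_iUnion.2 ⟨k + 1, hNA k h⟩)
        simp [meet, ind_of_notMem h3]
  -- a limit along an ultrafilter
  let 𝒰 : Ultrafilter ℕ := hyperfilter ℕ
  obtain ⟨l, hl⟩ : ∃ l, Tendsto u 𝒰 (𝓝 l) := by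
    obtain ⟨l, -, hl⟩ := isCompact_univ.ultrafilter_le_nhds (𝒰.map u) (by simp)
    exact ⟨l, hl⟩
  have hl' : Tendsto v 𝒰 (𝓝 l) := by
    rw [tendsto_pi_nhds] at hl ⊢
    intro i
    have hli := hl i
    rw [Prod.tendsto_iff] at hli ⊢
    refine ⟨hli.1, ?_⟩
    have h2 := hli.2
    rw [tendsto_pi_nhds] at h2 ⊢
    intro γ
    refine (h2 γ).congr' ?_
    by_cases hγ : γ ∈ J
    · obtain ⟨k₀, hk₀⟩ := mem_iUnion.1 hγ
      have h3 : ∀ᶠ k in (𝒰 : Filter ℕ), k₀ ≤ k :=
        Nat.hyperfilter_le_atTop (eventually_ge_atTop k₀)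
      filter_upwards [h3] with k hk
      simp only [hu, hv, meet]
      rw [ind_of_mem (hAN k (hmono hk hk₀)), Bool.and_true]
    · refine Eventually.of_forall fun k => ?_
      have h1 := congrArg (fun x => x.1.2 γ) (hfixJ k i)
      simp only [mt, meet, ind_of_notMem hγ, Bool.and_false] at h1
      simp only [hu, hv, meet, ← h1, Bool.false_and]
  have h1 : Tendsto (fun k => g (v k) - g (u k)) 𝒰 (𝓝 (g l - g l)) :=
    ((hgc.tendsto l).comp hl').sub ((hgc.tendsto l).comp hl)
  rw [sub_self] at h1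
  have h2 : (0 : ℝ) < 1 / ((m : ℝ) + 1) := by positivity
  obtain ⟨k, hk⟩ := ((Metric.tendsto_nhds.1 h1) _ h2).exists
  rw [Real.dist_eq, sub_zero, hgu, hgv] at hk
  exact absurd hk (not_lt.2 (hbad (A k)).2.le)

/-- **`A(X)` is a `k_ℝ`-space.** -/
theorem isKR_free [CompactSpace K] [T2Space K] [Nonempty K]
    (hτ : IsLeast (inducingTopologies (XX K Y)) τ) : IsKR (FreeAbelianGroup (XX K Y)) := by
  intro f hf
  have : IsTopologicalAddGroup (FreeAbelianGroup (XX K Y)) := hτ.1.1
  obtain ⟨J, hJ, hst⟩ := exists_stable hτ hf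
  set h : FreeAbelianGroup (K × P) → ℝ := fun b => f (FreeAbelianGroup.map (rho J hJ) b) with hh
  have hhc : @Continuous _ _ (grTop (K × P)) _ h := by
    refine continuous_of_polys fun φ hφ => ?_
    refine comp_of_compact hf (φ := fun t => FreeAbelianGroup.map (rho J hJ) (φ t)) ?_
    unfold polys at hφ
    induction hφ using AddSubgroup.closure_induction with
    | mem φ hφ =>
      obtain ⟨g, hg, rfl⟩ := hφ
      simp only [FreeAbelianGroup.map_of_apply]
      exact (continuous_of hτ).comp ((continuous_rho J hJ).comp hg)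
    | zero => simpa using continuous_const
    | add φ ψ _ _ h1 h2 => simp only [Pi.add_apply, map_add]; exact h1.add h2
    | neg φ _ h1 => simp only [Pi.neg_apply, map_neg]; exact h1.neg
  have hof : @Continuous (XX K Y) (FreeAbelianGroup (K × P)) _ (grTop (K × P))
      (fun x : XX K Y => FreeAbelianGroup.of x.1) := by
    let _ := grTop (K × P)
    have h1 : Continuous (FreeAbelianGroup.of : K × P → FreeAbelianGroup (K × P)) :=
      continuous_of_grTop (K × P)
    exact h1.comp continuous_subtype_val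
  have hval : @Continuous _ _ τ (grTop (K × P))
      (FreeAbelianGroup.lift fun x : XX K Y => FreeAbelianGroup.of x.1) :=
    @continuous_lift _ _ _ hτ _ _ (grTop (K × P)) (isTopologicalAddGroup_grTop _) _ hof
  have hfe : f = h ∘ (FreeAbelianGroup.lift fun x : XX K Y => FreeAbelianGroup.of x.1) := by
    funext a
    rw [← hst a]
    simp only [hh, Function.comp]
    congr 1
    rw [MT]
    have h3 : (FreeAbelianGroup.lift fun x : XX K Y => FreeAbelianGroup.of x.1) =
        FreeAbelianGroup.map (Subtype.val : XX K Y → K × P) := rfl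
    rw [h3, ← FreeAbelianGroup.map_comp_apply]
    rfl
  rw [hfe]
  exact @Continuous.comp _ _ _ τ (grTop (K × P)) _ _ _ hhc hval

end KR

end Pool.Agent.T63.FAG
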