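import Pool.Agent.T63.FAG3

set_option autoImplicit false

/-! The closed subgroup generated by `ω × {1}` is not a `k_ℝ`-space. -/

open Topology Set Filter

namespace Pool.Agent.T63.FAG

/-- the space `βω × Σ ∪ ω × {0,1}^ℝ` -/
abbrev X0 : Type := XX (Ultrafilter ℕ) (range (pure : ℕ → Ultrafilter ℕ))

/-- the points `(n, 1)` -/
def pt (n : ℕ) : X0 := ⟨(pure n, one), Or.inr ⟨n, rfl⟩⟩

lemma pt_injective : Function.Injective pt := by
  intro m n h
  have h1 : (pure m : Ultrafilter ℕ) = pure n := congrArg (fun x : X0 => x.1.1) h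
  exact Ultrafilter.pure_injective h1

/-- the closed set of the points `(n, 1)` -/
def F0 : Set X0 := {x | x.1.2 = one}

lemma isClosed_F0 : IsClosed F0 :=
  isClosed_eq (by fun_prop) continuous_const

lemma mem_F0 {x : X0} : x ∈ F0 ↔ ∃ n, x = pt n := by
  constructor
  · intro hx
    have hx' : x.1.2 = one := hx
    have h2 := x.2
    rw [hx'] at h2
    rcases h2 with h | ⟨n, hn⟩
    · exfalso
      have : {γ : ℝ | one γ = true} = univ := by ext γ; simp [one]
      rw [this, countable_univ_iff] at h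
      exact not_countable h
    · exact ⟨n, Subtype.ext (Prod.ext hn.symm hx')⟩
  · rintro ⟨n, rfl⟩; rfl

/-- the subgroup generated by the points `(n, 1)` -/
noncomputable def H0 : AddSubgroup (FreeAbelianGroup X0) :=
  AddSubgroup.closure (FreeAbelianGroup.of '' F0)

lemma of_pt_mem (n : ℕ) : FreeAbelianGroup.of (pt n) ∈ H0 :=
  AddSubgroup.subset_closure ⟨pt n, mem_F0.2 ⟨n, rfl⟩, rfl⟩

/-- extension of a function on `ω` to the space -/
noncomputable def chi (φ : ℕ → Bool) (x : X0) : ℤ := by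
  classical exact if {n | φ n = true} ∈ x.1.1 then 1 else 0

lemma continuous_chi (φ : ℕ → Bool) : Continuous (chi φ) := by
  classical
  have h1 : Continuous fun u : Ultrafilter ℕ => (if {n | φ n = true} ∈ u then (1 : ℤ) else 0) := by
    refine continuous_const.if ?_ continuous_const
    intro u hu
    have hcl : IsClopen {u : Ultrafilter ℕ | {n | φ n = true} ∈ u} :=
      ⟨ultrafilter_isClosed_basic _, ultrafilter_isOpen_basic _⟩
    rw [hcl.frontier_eq] at hu
    exact absurd hu (Set.notMem_empty _)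
  exact h1.comp (by fun_prop : Continuous fun x : X0 => x.1.1)

lemma chi_pt (φ : ℕ → Bool) (n : ℕ) : chi φ (pt n) = if φ n = true then 1 else 0 := by
  unfold chi pt
  simp only [Ultrafilter.mem_pure, mem_ofPred_eq]

/-- the corresponding homomorphism -/
noncomputable def Phi (φ : ℕ → Bool) : FreeAbelianGroup X0 →+ ℤ := FreeAbelianGroup.lift (chi φ)

lemma Phi_pt (φ : ℕ → Bool) (n : ℕ) :
    Phi φ (FreeAbelianGroup.of (pt n)) = if φ n = true then 1 else 0 := by
  rw [Phi, FreeAbelianGroup.lift_apply_of, chi_pt]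

/-- coefficients -/
noncomputable def cf (n : ℕ) : FreeAbelianGroup X0 →+ ℤ := FreeAbelianGroup.coeff (pt n)

lemma support_H0 {a : FreeAbelianGroup X0} (ha : a ∈ H0) : ∀ x ∈ a.support, x ∈ F0 := by
  intro x hx
  by_contra hxF
  rw [FreeAbelianGroup.mem_support_iff] at hx
  apply hx
  clear hx
  unfold H0 at ha
  induction ha using AddSubgroup.closure_induction with
  | mem b hb =>
    obtain ⟨y, hy, rfl⟩ := hb
    have hne : y ≠ x := by rintro rfl; exact hxF hy
    have : FreeAbelianGroup.coeff x (FreeAbelianGroup.of y) = 0 := by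
      rw [← FreeAbelianGroup.notMem_support_iff, FreeAbelianGroup.support_of]
      simpa using hne.symm
    exact this
  | zero => simp
  | add a b _ _ h1 h2 => rw [map_add, h1, h2, add_zero]
  | neg a _ h1 => rw [map_neg, h1, neg_zero]

lemma repr_H0 {a : FreeAbelianGroup X0} (ha : a ∈ H0) {N : ℕ} (hN : ∀ n, N ≤ n → cf n a = 0) :
    a = ∑ n ∈ Finset.range N, cf n a • FreeAbelianGroup.of (pt n) := by
  classical
  conv_lhs => rw [FreeAbelianGroup.eq_sum_support_coeff_smul_of a]
  have h1 : a.support ⊆ (Finset.range N).image pt := by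
    intro x hx
    obtain ⟨n, rfl⟩ := mem_F0.1 (support_H0 ha x hx)
    rw [Finset.mem_image]
    refine ⟨n, ?_, rfl⟩
    rw [Finset.mem_range]
    by_contra hn
    rw [FreeAbelianGroup.mem_support_iff] at hx
    exact hx (hN n (not_lt.1 hn))
  rw [Finset.sum_subset h1, Finset.sum_image fun m _ n _ h => pt_injective h]
  · rfl
  · intro x _ hx
    rw [FreeAbelianGroup.notMem_support_iff] at hx
    rw [hx, zero_smul]

lemma exists_bound (a : FreeAbelianGroup X0) : ∃ N, ∀ n, N ≤ n → cf n a = 0 := by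
  classical
  have hfin : {n | pt n ∈ a.support}.Finite :=
    (Finset.finite_toSet a.support).preimage (pt_injective.injOn)
  obtain ⟨N, hN⟩ := hfin.bddAbove
  refine ⟨N + 1, fun n hn => ?_⟩
  by_contra h
  have : n ∈ {n | pt n ∈ a.support} := by
    rw [mem_ofPred_eq, FreeAbelianGroup.mem_support_iff]; exact h
  have := hN this
  omega

lemma Phi_eq (φ : ℕ → Bool) {a : FreeAbelianGroup X0} (ha : a ∈ H0) {N : ℕ}
    (hN : ∀ n, N ≤ n → cf n a = 0) :
    Phi φ a = ∑ n ∈ Finset.range N, cf n a * (if φ n = true then 1 else 0) := by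
  conv_lhs => rw [repr_H0 ha hN]
  rw [map_sum]
  refine Finset.sum_congr rfl fun n _ => ?_
  rw [map_zsmul, Phi_pt, smul_eq_mul]

/-- greedy choice of a set of natural numbers -/
lemma greedy (p : ℕ → ℕ) (hp : Function.Injective p) (D : ℕ → ℕ → ℤ) :
    ∃ φ : ℕ → Bool, ∀ j, D j (p j) ≠ 0 →
      ∑ n ∈ Finset.range (p j + 1), D j n * (if φ n = true then 1 else 0) ≠ 0 := by
  classical
  let G : ℕ → (ℕ → Bool) → Bool := fun m ψ =>
    decide (∃ j, p j = m ∧ ∑ n ∈ Finset.range m, D j n * (if ψ n = true then 1 else 0) = 0)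
  let Ψ : ℕ → (ℕ → Bool) := fun m => Nat.rec (motive := fun _ => ℕ → Bool) (fun _ => false)
    (fun m ψ => Function.update ψ m (G m ψ)) m
  have hΨ : ∀ m, Ψ (m + 1) = Function.update (Ψ m) m (G m (Ψ m)) := fun m => rfl
  have hstab : ∀ m n k, n < m → Ψ (m + k) n = Ψ m n := by
    intro m n k hn
    induction k with
    | zero => rfl
    | succ k ih =>
      rw [← add_assoc, hΨ, Function.update_of_ne (by omega), ih]
  have hval : ∀ m n, n < m → Ψ m n = Ψ (n + 1) n := by
    intro m n hn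
    obtain ⟨k, rfl⟩ : ∃ k, m = n + 1 + k := ⟨m - (n + 1), by omega⟩
    exact hstab _ _ _ (by omega)
  refine ⟨fun n => Ψ (n + 1) n, fun j hj => ?_⟩
  have hφ : Ψ (p j + 1) (p j) = G (p j) (Ψ (p j)) := by rw [hΨ, Function.update_self]
  rw [Finset.sum_range_succ]
  have hs : ∑ n ∈ Finset.range (p j), D j n * (if Ψ (n + 1) n = true then 1 else 0) =
      ∑ n ∈ Finset.range (p j), D j n * (if Ψ (p j) n = true then 1 else 0) := by
    refine Finset.sum_congr rfl fun n hn => ?_
    rw [hval (p j) n (Finset.mem_range.1 hn)]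
  rw [hs]
  simp only [hφ]
  by_cases h0 : ∑ n ∈ Finset.range (p j), D j n * (if Ψ (p j) n = true then 1 else 0) = 0
  · have hG : G (p j) (Ψ (p j)) = true := by
      simp only [G, decide_eq_true_eq]
      exact ⟨j, rfl, h0⟩
    rw [h0, hG]; simp [hj]
  · have hG : G (p j) (Ψ (p j)) = false := by
      simp only [G, decide_eq_false_iff_not]
      rintro ⟨i, hi, hi2⟩
      have := hp hi
      subst this
      exact h0 hi2
    rw [hG]; simp only [Bool.false_eq_true, if_false, mul_zero, add_zero]; exact h0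

section

variable {τ : TopologicalSpace (FreeAbelianGroup X0)}

lemma continuous_Phi (hτ : IsLeast (inducingTopologies X0) τ) (φ : ℕ → Bool) :
    Continuous (Phi φ) :=
  continuous_lift hτ (continuous_chi φ)

/-- compact subsets of the subgroup are finite -/
lemma finite_of_isCompact (hτ : IsLeast (inducingTopologies X0) τ) {Q : Set H0}
    (hQ : IsCompact Q) : Q.Finite := by
  classical
  have hPhi : ∀ φ, Continuous fun b : H0 => Phi φ b.1 := fun φ =>
    (continuous_Phi hτ φ).comp continuous_subtype_val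
  by_cases hbd : ∃ N, ∀ b ∈ Q, ∀ n, N ≤ n → cf n (b : FreeAbelianGroup X0) = 0
  · obtain ⟨N, hN⟩ := hbd
    have hcf : ∀ n, Continuous fun b : H0 => Phi (fun m => decide (m = n)) b.1 := fun n => hPhi _
    have h1 : Continuous fun (b : H0) (n : Fin N) => Phi (fun m => decide (m = (n : ℕ))) b.1 :=
      continuous_pi fun n => hcf n
    have h2 : ((fun (b : H0) (n : Fin N) => Phi (fun m => decide (m = (n : ℕ))) b.1) '' Q).Finite :=
      (hQ.image h1).finite_of_discrete
    refine Set.Finite.of_finite_image h2 ?_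
    intro b hb b' hb' he
    apply Subtype.ext
    rw [repr_H0 b.2 (hN b hb), repr_H0 b'.2 (hN b' hb')]
    refine Finset.sum_congr rfl fun n hn => ?_
    have h3 := congrFun he ⟨n, Finset.mem_range.1 hn⟩
    simp only at h3
    rw [Phi_eq _ b.2 (hN b hb), Phi_eq _ b'.2 (hN b' hb')] at h3
    have h4 : ∀ a : FreeAbelianGroup X0, ∑ m ∈ Finset.range N,
        cf m a * (if decide (m = n) = true then 1 else 0) = cf n a := by
      intro a
      rw [Finset.sum_eq_single n]
      · simp
      · intro m _ hm; simp [hm]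
      · intro h; exact absurd hn h
    rw [h4, h4] at h3
    rw [h3]
  · exfalso
    push Not at hbd
    -- elements with large top coefficient
    have htop : ∀ N, ∃ b ∈ Q, ∃ q, N ≤ q ∧ cf q (b : FreeAbelianGroup X0) ≠ 0 ∧
        ∀ n, q + 1 ≤ n → cf n (b : FreeAbelianGroup X0) = 0 := by
      intro N
      obtain ⟨b, hb, n, hn, hne⟩ := hbd N
      obtain ⟨M, hM⟩ := exists_bound b.1
      have hex : ∃ k, ∀ m, k ≤ m → cf m (b : FreeAbelianGroup X0) = 0 := ⟨M, hM⟩
      have hk := Nat.find_spec hex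
      set k := Nat.find hex with hkdef
      have hnk : n < k := by
        by_contra h
        exact hne (hk n (not_lt.1 h))
      refine ⟨b, hb, k - 1, by omega, ?_, fun m hm => hk m (by omega)⟩
      intro h0
      have : ¬ (∀ m, k - 1 ≤ m → cf m (b : FreeAbelianGroup X0) = 0) :=
        Nat.find_min hex (by omega)
      apply this
      intro m hm
      rcases Nat.eq_or_lt_of_le hm with h | h
      · rw [← h]; exact h0
      · exact hk m (by omega)
    choose b hbQ q hNq hq0 hq using htop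
    let Ns : ℕ → ℕ := fun j => Nat.rec 0 (fun _ N => q N + 1) j
    have hNs : ∀ j, Ns (j + 1) = q (Ns j) + 1 := fun j => rfl
    set p : ℕ → ℕ := fun j => q (Ns j) with hp
    have hpmono : StrictMono p := strictMono_nat_of_lt_succ fun j => by
      have := hNq (Ns (j + 1))
      rw [hNs] at this
      simp only [hp]
      rw [hNs]; omega
    set a : ℕ → H0 := fun j => b (Ns j) with ha
    let 𝒰 : Ultrafilter ℕ := hyperfilter ℕ
    obtain ⟨c, hcQ, hc⟩ := hQ.ultrafilter_le_nhds (𝒰.map a) (by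
      rw [Filter.le_principal_iff]
      exact Filter.mem_map.2 (Filter.mem_of_superset Filter.univ_mem fun j _ => hbQ _))
    have hc' : Tendsto a 𝒰 (𝓝 c) := hc
    obtain ⟨M, hM⟩ := exists_bound c.1
    obtain ⟨φ, hφ⟩ := greedy p hpmono.injective
      (fun j n => cf n ((a j : FreeAbelianGroup X0) - c))
    have h1 : Tendsto (fun j => Phi φ (a j : FreeAbelianGroup X0)) 𝒰
        (𝓝 (Phi φ (c : FreeAbelianGroup X0))) := ((hPhi φ).tendsto c).comp hc'
    rw [nhds_discrete, tendsto_pure] at h1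
    have h2 : ∀ᶠ j in (𝒰 : Filter ℕ), M ≤ j :=
      Nat.hyperfilter_le_atTop (eventually_ge_atTop M)
    obtain ⟨j, hj1, hj2⟩ := (h1.and h2).exists
    have hpj : j ≤ p j := hpmono.id_le j
    have h3 := hφ j (by
      rw [map_sub, hM (p j) (by omega), sub_zero]
      exact hq0 _)
    apply h3
    rw [← Phi_eq φ (sub_mem (a j).2 c.2), map_sub, hj1, sub_self]
    intro n hn
    rw [map_sub, hq _ n hn, hM n (by omega), sub_self]

/-- the subgroup is not discrete -/
lemma exists_pair (hτ : IsLeast (inducingTopologies X0) τ) {W : Set (FreeAbelianGroup X0)}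
    (hW : W ∈ 𝓝 (0 : FreeAbelianGroup X0)) : ∃ m n : ℕ, m ≠ n ∧
      FreeAbelianGroup.of (pt m) - FreeAbelianGroup.of (pt n) ∈ W := by
  have : IsTopologicalAddGroup (FreeAbelianGroup X0) := hτ.1.1
  obtain ⟨U, hU, hUcl, hUW⟩ := exists_mem_nhds_isClosed_subset hW
  -- the points `(k, w)` with `k ∈ ω`
  let pw : ℕ → P → X0 := fun n w => ⟨(pure n, w), Or.inr ⟨n, rfl⟩⟩
  have hpw : ∀ n, Continuous (pw n) := fun n => by
    refine Continuous.subtype_mk ?_ _
    fun_prop
  -- pairs for countable sets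
  have hpair : ∀ J : {J : Set ℝ // J.Countable}, ∃ mn : ℕ × ℕ, mn.1 ≠ mn.2 ∧
      FreeAbelianGroup.of (pw mn.1 (ind J.1)) - FreeAbelianGroup.of (pw mn.2 (ind J.1)) ∈ U := by
    rintro ⟨J, hJ⟩
    let eJ : Ultrafilter ℕ → X0 := fun k => ⟨(k, ind J), Or.inl (hJ.mono (by
      intro γ hγ
      by_contra h
      simp [ind_of_notMem h] at hγ))⟩
    have heJ : Continuous eJ := by
      refine Continuous.subtype_mk ?_ _
      fun_prop
    have hc : Continuous fun kl : Ultrafilter ℕ × Ultrafilter ℕ =>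
        FreeAbelianGroup.of (eJ kl.1) - FreeAbelianGroup.of (eJ kl.2) :=
      ((continuous_of hτ).comp (heJ.comp continuous_fst)).sub
        ((continuous_of hτ).comp (heJ.comp continuous_snd))
    let 𝒰 : Ultrafilter ℕ := hyperfilter ℕ
    have h1 : Tendsto (fun mn : ℕ × ℕ => ((pure mn.1 : Ultrafilter ℕ), (pure mn.2 : Ultrafilter ℕ)))
        ((𝒰 : Filter ℕ) ×ˢ (𝒰 : Filter ℕ)) (𝓝 (𝒰, 𝒰)) := by
      rw [nhds_prod_eq]
      exact (Ultrafilter.tendsto_pure_self 𝒰).prodMap (Ultrafilter.tendsto_pure_self 𝒰)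
    have h2 := (hc.tendsto (𝒰, 𝒰)).comp h1
    simp only [sub_self] at h2
    have h3 := h2 hU
    rw [Filter.mem_map, Filter.mem_prod_same_iff] at h3
    obtain ⟨s, hs, hs2⟩ := h3
    have hinf : s.Infinite := fun hfin => notMem_hyperfilter_of_finite hfin hs
    obtain ⟨m, hm⟩ := hinf.nonempty
    obtain ⟨n, hn, hmn⟩ := hinf.exists_notMem_finset {m}
    refine ⟨(m, n), fun h => hmn (Finset.mem_singleton.2 (Eq.symm h)), ?_⟩
    exact hs2 (show (m, n) ∈ s ×ˢ s from ⟨hm, hn⟩)
  -- one pair works cofinally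
  obtain ⟨⟨m, n⟩, hmn⟩ : ∃ mn : ℕ × ℕ, ∀ J₀ : {J : Set ℝ // J.Countable},
      ∃ J : {J : Set ℝ // J.Countable}, J₀.1 ⊆ J.1 ∧ mn.1 ≠ mn.2 ∧
      FreeAbelianGroup.of (pw mn.1 (ind J.1)) - FreeAbelianGroup.of (pw mn.2 (ind J.1)) ∈ U := by
    by_contra hno
    push Not at hno
    choose J₀ hJ₀ using hno
    obtain ⟨mn, h1, h2⟩ := hpair ⟨⋃ d, (J₀ d).1, countable_iUnion fun d => (J₀ d).2⟩
    exact hJ₀ mn _ (subset_iUnion (fun d => (J₀ d).1) mn) h1 h2
  have hne : m ≠ n := by
    obtain ⟨_, -, h, -⟩ := hmn ⟨∅, countable_empty⟩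
    exact h
  refine ⟨m, n, hne, hUW ?_⟩
  have hc : Continuous fun w : P => FreeAbelianGroup.of (pw m w) - FreeAbelianGroup.of (pw n w) :=
    ((continuous_of hτ).comp (hpw m)).sub ((continuous_of hτ).comp (hpw n))
  have h1 : one ∈ closure (ind '' {J : Set ℝ | FreeAbelianGroup.of (pw m (ind J)) -
      FreeAbelianGroup.of (pw n (ind J)) ∈ U}) := by
    refine one_mem_closure fun F => ?_
    obtain ⟨J, hJ, -, hJU⟩ := hmn ⟨F, F.countable_toSet⟩
    exact ⟨J.1, hJU, hJ⟩
  have h2 := closure_minimal (t := (fun w : P => FreeAbelianGroup.of (pw m w) -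
    FreeAbelianGroup.of (pw n w)) ⁻¹' U) (by
      rintro _ ⟨J, hJ, rfl⟩
      exact hJ) (hUcl.preimage hc) h1
  exact h2

/-- the subgroup is not a `k_ℝ`-space -/
theorem not_isKR (hτ : IsLeast (inducingTopologies X0) τ) : ¬ IsKR H0 := by
  classical
  intro h
  have := t2Space hτ
  have hc := h (fun x => if x = 0 then 1 else 0) (fun Q hQ => by
    have : Finite Q := finite_of_isCompact hτ hQ
    rw [continuousOn_iff_continuous_domRestrict]
    exact continuous_of_discreteTopology)
  have h1 : (fun x : H0 => if x = 0 then (1 : ℝ) else 0) ⁻¹' (Ioi (1 / 2)) ∈ 𝓝 (0 : H0) := by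
    apply hc.continuousAt.preimage_mem_nhds
    apply (isOpen_Ioi).mem_nhds
    simp only [if_true, mem_Ioi]
    norm_num
  rw [nhds_subtype_eq_comap, mem_comap] at h1
  obtain ⟨W, hW, hWsub⟩ := h1
  obtain ⟨m, n, hmn, hmem⟩ := exists_pair hτ (W := W) (by simpa using hW)
  have h2 : (⟨_, sub_mem (of_pt_mem m) (of_pt_mem n)⟩ : H0) ∈ (Subtype.val : H0 → _) ⁻¹' W := hmem
  have h3 := hWsub h2
  have hne : (⟨_, sub_mem (of_pt_mem m) (of_pt_mem n)⟩ : H0) ≠ 0 := by
    intro h0
    have h4 := congrArg Subtype.val h0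
    simp only [ZeroMemClass.coe_zero] at h4
    exact hmn (pt_injective (FreeAbelianGroup.of_injective (sub_eq_zero.1 h4)))
  simp only [mem_preimage, if_neg hne, mem_Ioi] at h3
  norm_num at h3

end

end Pool.Agent.T63.FAG
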