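import Pool.Agent.T63.Perim

set_option autoImplicit false

open MeasureTheory Set Metric Topology
open scoped RealInnerProductSpace ENNReal Pointwise

namespace Pool.Agent.T63.Klamkin

/-- unit vector with angle `θ` -/
noncomputable def e (θ : ℝ) : E2 := !₂[Real.cos θ, Real.sin θ]

lemma inner_Je (a : ℝ) (r θ : ℝ) : ⟪J (e a), r • e θ⟫ = r * Real.sin (θ - a) := by
  rw [inner_J, Real.sin_sub]; simp [e]; ring

lemma e_add_pi (θ : ℝ) : e (θ + Real.pi) = - e θ := by
  ext i; fin_cases i <;> simp [e]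

lemma continuous_e : Continuous e := by
  unfold e
  refine (PiLp.continuous_toLp 2 _).comp ?_
  refine continuous_pi fun i => ?_
  fin_cases i
  · exact Real.continuous_cos
  · exact Real.continuous_sin

lemma e_ne_zero (θ : ℝ) : e θ ≠ 0 := by
  intro h
  have h0 := congrArg (fun w : E2 => w 0) h
  have h1 := congrArg (fun w : E2 => w 1) h
  simp [e] at h0 h1
  have := Real.sin_sq_add_cos_sq θ
  rw [h0, h1] at this
  norm_num at this

lemma polar (a : ℝ) {x : E2} (hx : x ≠ 0) :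
    ∃ r θ : ℝ, 0 < r ∧ a ≤ θ ∧ θ < a + 2 * Real.pi ∧ x = r • e θ := by
  set z : ℂ := ⟨x 0, x 1⟩ with hz
  have hz0 : z ≠ 0 := by
    intro h
    apply hx
    have h0 := congrArg Complex.re h
    have h1 := congrArg Complex.im h
    simp [hz] at h0 h1
    ext i; fin_cases i
    · simpa using h0
    · simpa using h1
  have hp : (0 : ℝ) < 2 * Real.pi := by positivity
  refine ⟨‖z‖, toIcoMod hp a (Complex.arg z), norm_pos_iff.2 hz0,
    left_le_toIcoMod hp a _, toIcoMod_lt_right hp a _, ?_⟩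
  have hmod : toIcoMod hp a (Complex.arg z)
      = Complex.arg z - (toIcoDiv hp a (Complex.arg z) : ℤ) * (2 * Real.pi) := by
    rw [toIcoMod]; simp
  have hc : Real.cos (toIcoMod hp a (Complex.arg z)) = Real.cos (Complex.arg z) := by
    rw [hmod, Real.cos_sub_int_mul_two_pi]
  have hs : Real.sin (toIcoMod hp a (Complex.arg z)) = Real.sin (Complex.arg z) := by
    rw [hmod, Real.sin_sub_int_mul_two_pi]
  ext i; fin_cases i
  · simp only [e, Fin.zero_eta, PiLp.smul_apply, smul_eq_mul]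
    simp only [hc, Matrix.cons_val_zero]
    rw [Complex.norm_mul_cos_arg]
  · simp only [e, Fin.mk_one, PiLp.smul_apply, smul_eq_mul]
    simp only [hs, Matrix.cons_val_one, Matrix.cons_val_fin_one]
    rw [Complex.norm_mul_sin_arg]

/-- an arc on which a continuous function with `g (θ + π) = - g θ` is positive -/
lemma exists_arc {g : ℝ → ℝ} (hg : Continuous g) (hodd : ∀ θ, g (θ + Real.pi) = - g θ) {t : ℝ}
    (ht : 0 < g t) : ∃ a b : ℝ, a < t ∧ t < b ∧ b ≤ a + Real.pi ∧ g a = 0 ∧ g b = 0 ∧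
      ∀ θ, a < θ → θ < b → 0 < g θ := by
  set SA : Set ℝ := {θ | θ ≤ t ∧ g θ ≤ 0} with hSA
  set SB : Set ℝ := {θ | t ≤ θ ∧ g θ ≤ 0} with hSB
  have hAcl : IsClosed SA :=
    (isClosed_le continuous_id continuous_const).inter (isClosed_le hg continuous_const)
  have hBcl : IsClosed SB :=
    (isClosed_le continuous_const continuous_id).inter (isClosed_le hg continuous_const)
  have hpi := Real.pi_pos
  have hA0 : t - Real.pi ∈ SA := by
    refine ⟨by linarith, ?_⟩
    have := hodd (t - Real.pi)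
    rw [sub_add_cancel] at this
    linarith
  have hB0 : t + Real.pi ∈ SB := ⟨by linarith, by rw [hodd]; linarith⟩
  have hAbd : BddAbove SA := ⟨t, fun x hx => hx.1⟩
  have hBbd : BddBelow SB := ⟨t, fun x hx => hx.1⟩
  have ha := hAcl.csSup_mem ⟨_, hA0⟩ hAbd
  have hb := hBcl.csInf_mem ⟨_, hB0⟩ hBbd
  set a := sSup SA with hadef
  set b := sInf SB with hbdef
  have hat : a < t := lt_of_le_of_ne ha.1 fun h => by
    have := ha.2; rw [h] at this; linarith
  have htb : t < b := lt_of_le_of_ne hb.1 fun h => by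
    have := hb.2; rw [← h] at this; linarith
  have hpos : ∀ θ, a < θ → θ < b → 0 < g θ := by
    intro θ h1 h2
    by_contra hcon
    push Not at hcon
    rcases le_total θ t with h | h
    · exact absurd (le_csSup hAbd (show θ ∈ SA from ⟨h, hcon⟩)) (not_le.2 h1)
    · exact absurd (csInf_le hBbd (show θ ∈ SB from ⟨h, hcon⟩)) (not_le.2 h2)
  have hga : 0 ≤ g a := by
    have h1 : Filter.Tendsto g (𝓝[>] a) (𝓝 (g a)) := hg.continuousAt.tendsto.mono_left
      nhdsWithin_le_nhds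
    refine ge_of_tendsto h1 ?_
    filter_upwards [Ioo_mem_nhdsGT (hat.trans htb)] with θ hθ
    exact (hpos θ hθ.1 hθ.2).le
  have hgb : 0 ≤ g b := by
    have h1 : Filter.Tendsto g (𝓝[<] b) (𝓝 (g b)) := hg.continuousAt.tendsto.mono_left
      nhdsWithin_le_nhds
    refine ge_of_tendsto h1 ?_
    filter_upwards [Ioo_mem_nhdsLT (hat.trans htb)] with θ hθ
    exact (hpos θ hθ.1 hθ.2).le
  have hga0 : g a = 0 := le_antisymm ha.2 hga
  refine ⟨a, b, hat, htb, ?_, hga0, le_antisymm hb.2 hgb, hpos⟩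
  refine csInf_le hBbd ⟨?_, ?_⟩
  · have := le_csSup hAbd hA0; linarith
  · rw [hodd, hga0]; simp

/-- points of the closed sector -/
lemma sector_angle {a b : ℝ} (hab : a < b) {x : E2} (hx : x ≠ 0)
    (h1 : 0 ≤ ⟪J (e a), x⟫) (h2 : ⟪J (e b), x⟫ ≤ 0) :
    ∃ r θ : ℝ, 0 < r ∧ a ≤ θ ∧ θ ≤ b ∧ x = r • e θ := by
  obtain ⟨r, θ, hr, h3, h4, rfl⟩ := polar a hx
  rw [inner_Je] at h1 h2
  refine ⟨r, θ, hr, h3, ?_, rfl⟩
  have s1 : 0 ≤ Real.sin (θ - a) := nonneg_of_mul_nonneg_right h1 hr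
  have s2 : Real.sin (θ - b) ≤ 0 := by
    by_contra h
    push Not at h
    have := mul_pos hr h
    linarith
  have h5 : θ - a ≤ Real.pi := by
    by_contra hcon
    push Not at hcon
    have h6 : Real.sin (θ - a) < 0 := by
      have := Real.sin_neg_of_neg_of_neg_pi_lt (x := θ - a - 2 * Real.pi) (by linarith)
        (by linarith)
      rwa [Real.sin_sub_two_pi] at this
    linarith
  by_contra hcon
  push Not at hcon
  have := Real.sin_pos_of_pos_of_lt_pi (x := θ - b) (by linarith) (by linarith)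
  linarith

lemma eq_smul_J {ν x : E2} (hν : ν ≠ 0) (h : ⟪ν, x⟫ = 0) : ∃ t : ℝ, x = t • J ν := by
  simp only [PiLp.inner_apply, Fin.sum_univ_two, RCLike.inner_apply, conj_trivial] at h
  have hn : 0 < ν 0 ^ 2 + ν 1 ^ 2 := by
    by_contra hcon
    apply hν
    have a0 : ν 0 = 0 := by nlinarith [sq_nonneg (ν 0), sq_nonneg (ν 1)]
    have a1 : ν 1 = 0 := by nlinarith [sq_nonneg (ν 0), sq_nonneg (ν 1)]
    ext i; fin_cases i
    · simpa using a0
    · simpa using a1
  refine ⟨(ν 0 * x 1 - ν 1 * x 0) / (ν 0 ^ 2 + ν 1 ^ 2), ?_⟩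
  ext i; fin_cases i
  · simp [J]
    field_simp
    linear_combination ν 0 * h
  · simp [J]
    field_simp
    linear_combination ν 1 * h

/-- a line through an interior point meets the boundary in a null set -/
lemma line_null {K : Set E2} (hKc : Convex ℝ K) (h0 : (0 : E2) ∈ interior K)
    {ν : E2} (hν : ν ≠ 0) : μH[1] (frontier K ∩ {x | ⟪ν, x⟫ = 0}) = 0 := by
  refine null_finite (Set.Finite.subset (s := {(gauge K (J ν))⁻¹ • J ν,
    -(gauge K (-J ν))⁻¹ • J ν}) (Set.toFinite _) ?_)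
  rintro x ⟨hx, hx0⟩
  have hK0 : K ∈ 𝓝 (0 : E2) := mem_interior_iff_mem_nhds.1 h0
  rw [← gauge_eq_one_iff_mem_frontier hKc hK0] at hx
  obtain ⟨t, rfl⟩ := eq_smul_J hν hx0
  rcases lt_trichotomy t 0 with ht | ht | ht
  · right
    have h1 : t • J ν = (-t) • (-J ν) := by simp
    rw [h1, gauge_smul_of_nonneg (by linarith), smul_eq_mul] at hx
    have h2 : (gauge K (-J ν))⁻¹ = -t := by
      rw [inv_eq_one_div, div_eq_iff]
      · linarith
      · intro h; rw [h] at hx; simp at hx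
    rw [mem_singleton_iff, h2]; simp
  · subst ht; simp [gauge_zero] at hx
  · left
    rw [gauge_smul_of_nonneg ht.le, smul_eq_mul] at hx
    have h2 : (gauge K (J ν))⁻¹ = t := by
      rw [inv_eq_one_div, div_eq_iff]
      · linarith
      · intro h; rw [h] at hx; simp at hx
    rw [h2]

/-- opposite sectors cut off arcs of equal length -/
lemma opposite_arcs {K : Set E2} (hK : IsCompact K) (hKc : Convex ℝ K)
    (h0 : (0 : E2) ∈ interior K)
    (hbis : ∀ u : E2, u ≠ 0 → μH[1] (frontier K ∩ {x | 0 < ⟪u, x⟫}) =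
      μH[1] (frontier K ∩ {x | ⟪u, x⟫ < 0})) {ν₁ ν₂ : E2} (h1 : ν₁ ≠ 0) (h2 : ν₂ ≠ 0) :
    μH[1] (frontier K ∩ {x | 0 < ⟪ν₁, x⟫ ∧ ⟪ν₂, x⟫ < 0}) =
      μH[1] (frontier K ∩ {x | ⟪ν₁, x⟫ < 0 ∧ 0 < ⟪ν₂, x⟫}) := by
  have hfin := frontier_finite hKc ⟨0, h0⟩ hK
  have c1 : Continuous fun x : E2 => ⟪ν₁, x⟫ := by fun_prop
  have c2 : Continuous fun x : E2 => ⟪ν₂, x⟫ := by fun_prop
  -- splitting a set along the line of `ν`
  have hsplit : ∀ ν : E2, ν ≠ 0 → ∀ U : Set E2, MeasurableSet U →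
      μH[1] (frontier K ∩ U) = μH[1] (frontier K ∩ (U ∩ {x | 0 < ⟪ν, x⟫})) +
        μH[1] (frontier K ∩ (U ∩ {x | ⟪ν, x⟫ < 0})) := by
    intro ν hν U hU
    have c : Continuous fun x : E2 => ⟪ν, x⟫ := by fun_prop
    have m1 : MeasurableSet {x : E2 | 0 < ⟪ν, x⟫} := (isOpen_lt continuous_const c).measurableSet
    have m2 : MeasurableSet {x : E2 | ⟪ν, x⟫ < 0} := (isOpen_lt c continuous_const).measurableSet
    rw [← measure_union]
    · refine le_antisymm ?_ (measure_mono ?_)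
      · have hnull := line_null hKc h0 hν
        calc μH[1] (frontier K ∩ U)
            ≤ μH[1] ((frontier K ∩ (U ∩ {x | 0 < ⟪ν, x⟫}) ∪
                frontier K ∩ (U ∩ {x | ⟪ν, x⟫ < 0})) ∪ (frontier K ∩ {x | ⟪ν, x⟫ = 0})) := by
              refine measure_mono ?_
              rintro x ⟨hx, hxU⟩
              rcases lt_trichotomy ⟪ν, x⟫ 0 with h | h | h
              · exact Or.inl (Or.inr ⟨hx, hxU, h⟩)
              · exact Or.inr ⟨hx, h⟩
              · exact Or.inl (Or.inl ⟨hx, hxU, h⟩)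
          _ ≤ _ := (measure_union_le _ _).trans (by rw [hnull, add_zero])
      · rintro x (⟨hx, hxU, -⟩ | ⟨hx, hxU, -⟩) <;> exact ⟨hx, hxU⟩
    · rw [Set.disjoint_left]
      rintro x ⟨-, -, h⟩ ⟨-, -, h'⟩
      have h1 : 0 < ⟪ν, x⟫ := h
      have h2 : ⟪ν, x⟫ < 0 := h'
      linarith
    · exact isClosed_frontier.measurableSet.inter (hU.inter m2)
  have m1 : MeasurableSet {x : E2 | 0 < ⟪ν₁, x⟫} := (isOpen_lt continuous_const c1).measurableSet
  have m1' : MeasurableSet {x : E2 | ⟪ν₁, x⟫ < 0} := (isOpen_lt c1 continuous_const).measurableSet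
  have m2 : MeasurableSet {x : E2 | 0 < ⟪ν₂, x⟫} := (isOpen_lt continuous_const c2).measurableSet
  have m2' : MeasurableSet {x : E2 | ⟪ν₂, x⟫ < 0} := (isOpen_lt c2 continuous_const).measurableSet
  have e1 := hbis ν₁ h1
  have e2 := hbis ν₂ h2
  rw [hsplit ν₂ h2 _ m1, hsplit ν₂ h2 _ m1'] at e1
  rw [hsplit ν₁ h1 _ m2, hsplit ν₁ h1 _ m2'] at e2
  rw [inter_comm {x : E2 | 0 < ⟪ν₂, x⟫}, inter_comm {x : E2 | 0 < ⟪ν₂, x⟫},
    inter_comm {x : E2 | ⟪ν₂, x⟫ < 0}, inter_comm {x : E2 | ⟪ν₂, x⟫ < 0}] at e2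
  have g1 : {x : E2 | 0 < ⟪ν₁, x⟫ ∧ ⟪ν₂, x⟫ < 0} = {x | 0 < ⟪ν₁, x⟫} ∩ {x | ⟪ν₂, x⟫ < 0} := rfl
  have g2 : {x : E2 | ⟪ν₁, x⟫ < 0 ∧ 0 < ⟪ν₂, x⟫} = {x | ⟪ν₁, x⟫ < 0} ∩ {x | 0 < ⟪ν₂, x⟫} := rfl
  rw [g1, g2]
  have fin : ∀ U : Set E2, μH[1] (frontier K ∩ U) ≠ ⊤ := fun U =>
    (lt_of_le_of_lt (measure_mono inter_subset_left) hfin).ne
  generalize hpp : μH[1] (frontier K ∩ ({x | 0 < ⟪ν₁, x⟫} ∩ {x | 0 < ⟪ν₂, x⟫})) = pp at *
  generalize hpm : μH[1] (frontier K ∩ ({x | 0 < ⟪ν₁, x⟫} ∩ {x | ⟪ν₂, x⟫ < 0})) = pm at *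
  generalize hmp : μH[1] (frontier K ∩ ({x | ⟪ν₁, x⟫ < 0} ∩ {x | 0 < ⟪ν₂, x⟫})) = mp at *
  generalize hmm : μH[1] (frontier K ∩ ({x | ⟪ν₁, x⟫ < 0} ∩ {x | ⟪ν₂, x⟫ < 0})) = mm at *
  have fpp : pp ≠ ⊤ := hpp ▸ fin _
  have fpm : pm ≠ ⊤ := hpm ▸ fin _
  have fmp : mp ≠ ⊤ := hmp ▸ fin _
  have fmm : mm ≠ ⊤ := hmm ▸ fin _
  lift pp to NNReal using fpp
  lift pm to NNReal using fpm
  lift mp to NNReal using fmp
  lift mm to NNReal using fmm
  norm_cast at e1 e2 ⊢
  have e1' : (pp : ℝ) + pm = mp + mm := by exact_mod_cast e1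
  have e2' : (pp : ℝ) + mp = pm + mm := by exact_mod_cast e2
  apply NNReal.eq
  linarith

/-- the symmetry of the gauge -/
lemma gauge_symm {K : Set E2} (hK : IsCompact K) (hKc : Convex ℝ K)
    (h0 : (0 : E2) ∈ interior K)
    (hbis : ∀ u : E2, u ≠ 0 → μH[1] (frontier K ∩ {x | 0 < ⟪u, x⟫}) =
      μH[1] (frontier K ∩ {x | ⟪u, x⟫ < 0})) (x₀ : E2) : gauge K (-x₀) ≤ gauge K x₀ := by
  by_contra hcon
  push Not at hcon
  have hK0 : K ∈ 𝓝 (0 : E2) := mem_interior_iff_mem_nhds.1 h0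
  have hKcl : IsClosed K := hK.isClosed
  set p := gauge K with hp
  have hpc : Continuous p := continuous_gauge hKc hK0
  have hle : ∀ x, x ∈ K ↔ p x ≤ 1 := fun x => by
    rw [hp, gauge_le_one_iff_mem_closure hKc hK0, hKcl.closure_eq]
  have hhom : ∀ (t : ℝ) (x : E2), 0 ≤ t → p (t • x) = t * p x := fun t x ht => by
    rw [hp, gauge_smul_of_nonneg ht, smul_eq_mul]
  have hx0 : x₀ ≠ 0 := by rintro rfl; simp at hcon
  obtain ⟨r, t, hr, -, -, rfl⟩ := polar 0 hx0
  set g : ℝ → ℝ := fun θ => p (- e θ) - p (e θ) with hg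
  have hgc : Continuous g := by
    have := continuous_e
    fun_prop
  have hodd : ∀ θ, g (θ + Real.pi) = - g θ := fun θ => by
    simp only [hg, e_add_pi, neg_neg]; ring
  have hgt : 0 < g t := by
    rw [← smul_neg, hhom _ _ hr.le, hhom _ _ hr.le] at hcon
    have := (mul_lt_mul_iff_right₀ hr).1 hcon
    simp only [hg]; linarith
  obtain ⟨a, b, hat, htb, hba, hga, hgb, hpos⟩ := exists_arc hgc hodd hgt
  set ν₁ := J (e a) with hν1
  set ν₂ := J (e b) with hν2
  have hν10 : ν₁ ≠ 0 := J_ne_zero (e_ne_zero _)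
  have hν20 : ν₂ ≠ 0 := J_ne_zero (e_ne_zero _)
  have c1 : Continuous fun x : E2 => ⟪ν₁, x⟫ := by fun_prop
  have c2 : Continuous fun x : E2 => ⟪ν₂, x⟫ := by fun_prop
  have hgnn : ∀ θ, a ≤ θ → θ ≤ b → 0 ≤ g θ := by
    intro θ h1 h2
    rcases h1.lt_or_eq with h3 | h3
    · rcases h2.lt_or_eq with h4 | h4
      · exact (hpos θ h3 h4).le
      · rw [h4, hgb]
    · rw [← h3, hga]
  -- the sector
  set S : Set E2 := {x | 0 ≤ ⟪ν₁, x⟫} ∩ {x | ⟪ν₂, x⟫ ≤ 0} with hS
  set S' : Set E2 := {x | 0 < ⟪ν₁, x⟫ ∧ ⟪ν₂, x⟫ < 0} with hS'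
  have hScl : IsClosed S := (isClosed_le continuous_const c1).inter (isClosed_le c2 continuous_const)
  have hS'op : IsOpen S' := (isOpen_lt continuous_const c1).inter (isOpen_lt c2 continuous_const)
  have hSconv : Convex ℝ S := (convex_halfSpace_ge (innerSL ℝ ν₁).isLinear _).inter
    (convex_halfSpace_le (innerSL ℝ ν₂).isLinear _)
  have hSle : ∀ x ∈ S, p x ≤ p (-x) := by
    rintro x ⟨h1, h2⟩
    by_cases hx : x = 0
    · simp [hx]
    obtain ⟨r, θ, hr, h3, h4, rfl⟩ := sector_angle (hat.trans htb) hx h1 h2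
    have := hgnn θ h3 h4
    simp only [hg] at this
    rw [← smul_neg, hhom _ _ hr.le, hhom _ _ hr.le]
    exact mul_le_mul_of_nonneg_left (by linarith) hr.le
  have hSeq : ∀ x ∈ S, (⟪ν₁, x⟫ = 0 ∨ ⟪ν₂, x⟫ = 0) → p (-x) = p x := by
    rintro x ⟨h1, h2⟩ hor
    by_cases hx : x = 0
    · simp [hx]
    obtain ⟨r, θ, hr, h3, h4, rfl⟩ := sector_angle (hat.trans htb) hx h1 h2
    have hθ : θ = a ∨ θ = b := by
      by_contra hcon2
      push Not at hcon2
      have h5 : a < θ := lt_of_le_of_ne h3 (Ne.symm hcon2.1)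
      have h6 : θ < b := lt_of_le_of_ne h4 hcon2.2
      rw [hν1, hν2, inner_Je, inner_Je] at hor
      have s1 := Real.sin_pos_of_pos_of_lt_pi (x := θ - a) (by linarith) (by linarith)
      have s2 := Real.sin_neg_of_neg_of_neg_pi_lt (x := θ - b) (by linarith) (by linarith)
      rcases hor with h | h
      · have := mul_pos hr s1; linarith
      · have := mul_neg_of_pos_of_neg hr s2; linarith
    have hg0 : g θ = 0 := by
      rcases hθ with h | h
      · rw [h, hga]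
      · rw [h, hgb]
    simp only [hg] at hg0
    rw [← smul_neg, hhom _ _ hr.le, hhom _ _ hr.le]
    congr 1; linarith
  have hSint : ∀ x ∈ interior S, x ∈ S' := by
    intro x hx
    have h1 := (interior_subset hx).1
    have h2 := (interior_subset hx).2
    refine ⟨lt_of_le_of_ne h1 fun h => ?_, lt_of_le_of_ne h2 fun h => ?_⟩
    · refine notMem_interior_of_support (T := S) (ν := -ν₁) (x := x) (neg_ne_zero.2 hν10) ?_ hx
      intro z hz
      have := hz.1
      simp only [mem_ofPred_eq] at this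
      rw [inner_neg_left, inner_neg_left, ← h]; linarith
    · refine notMem_interior_of_support (T := S) (ν := ν₂) (x := x) hν20 ?_ hx
      intro z hz
      have := hz.2
      simp only [mem_ofPred_eq] at this
      rw [h]; exact this
  have hS'S : S' ⊆ S := fun x hx => ⟨hx.1.le, hx.2.le⟩
  have het : e t ∈ S' := by
    refine ⟨?_, ?_⟩
    · have := inner_Je a 1 t
      rw [one_smul, one_mul] at this
      rw [hν1, this]
      exact Real.sin_pos_of_pos_of_lt_pi (by linarith) (by linarith)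
    · have := inner_Je b 1 t
      rw [one_smul, one_mul] at this
      rw [hν2, this]
      exact Real.sin_neg_of_neg_of_neg_pi_lt (by linarith) (by linarith)
  -- the two bodies
  set K' : Set E2 := -K with hK'
  have hK'cl : IsClosed K' := hKcl.neg
  have hK'c : Convex ℝ K' := hKc.neg
  have hK'0 : (0 : E2) ∈ interior K' := by
    rw [mem_interior_iff_mem_nhds]
    exact neg_mem_nhds_zero E2 hK0
  set A : Set E2 := K' ∩ S with hA
  set B : Set E2 := K ∩ S with hB
  have hAB : A ⊆ B := by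
    rintro x ⟨hx, hxS⟩
    refine ⟨(hle x).2 ((hSle x hxS).trans ((hle _).1 hx)), hxS⟩
  have hpt : 0 < p (e t) := by
    rw [hp, gauge_pos (absorbent_nhds_zero hK0)
      ((NormedSpace.isVonNBounded_iff ℝ).2 hK.isBounded)]
    exact e_ne_zero _
  have hne : A ≠ B := by
    intro h
    have h1 : (p (e t))⁻¹ • e t ∈ B := by
      refine ⟨(hle _).2 ?_, ?_⟩
      · rw [hhom _ _ (by positivity), inv_mul_cancel₀ hpt.ne']
      · refine ⟨?_, ?_⟩
        · simp only [mem_ofPred_eq, inner_smul_right]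
          exact mul_nonneg (by positivity) het.1.le
        · simp only [mem_ofPred_eq, inner_smul_right]
          exact mul_nonpos_of_nonneg_of_nonpos (by positivity) het.2.le
    rw [← h] at h1
    have h2 : -((p (e t))⁻¹ • e t) ∈ K := h1.1
    rw [hle, ← smul_neg, hhom _ _ (by positivity), inv_mul_le_iff₀ hpt, mul_one] at h2
    simp only [hg] at hgt
    linarith
  have hAi : (interior A).Nonempty := by
    have hT : Filter.Tendsto (fun s : ℝ => s • e t) (𝓝[>] 0) (𝓝 0) := by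
      have : Filter.Tendsto (fun s : ℝ => s • e t) (𝓝 0) (𝓝 ((0:ℝ) • e t)) :=
        (by fun_prop : Continuous (fun s : ℝ => s • e t)).tendsto 0
      rw [zero_smul] at this
      exact this.mono_left nhdsWithin_le_nhds
    obtain ⟨s, hs, hs0⟩ :=
      ((hT.eventually (isOpen_interior.mem_nhds hK'0)).and self_mem_nhdsWithin).exists
    have hs0' : (0 : ℝ) < s := hs0
    refine ⟨s • e t, ?_⟩
    rw [hA, interior_inter]
    refine ⟨hs, mem_interior.2 ⟨S', hS'S, hS'op, ?_⟩⟩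
    refine ⟨?_, ?_⟩
    · rw [inner_smul_right]; exact mul_pos hs0' het.1
    · rw [inner_smul_right]; exact mul_neg_of_pos_of_neg hs0' het.2
  have hstrict := frontier_lt (hK'c.inter hSconv) hAi (hK'cl.inter hScl) (hKc.inter hSconv)
    (hK.inter_right hScl) hAB hne
  -- the common part of the two boundaries
  set R : Set E2 := (K ∩ S) ∩ {x | ⟪ν₁, x⟫ = 0 ∨ ⟪ν₂, x⟫ = 0} with hR
  have hRm : MeasurableSet R := by
    refine ((hKcl.inter hScl).inter ?_).measurableSet
    exact (isClosed_eq c1 continuous_const).union (isClosed_eq c2 continuous_const)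
  have hup : μH[1] (frontier B) ≤ μH[1] (frontier K ∩ S') + μH[1] R := by
    refine (measure_mono ?_).trans (measure_union_le _ _)
    intro x hx
    have hxB : x ∈ B := (hKcl.inter hScl).frontier_subset hx
    by_cases hxS : x ∈ S'
    · left
      refine ⟨?_, hxS⟩
      refine ⟨subset_closure hxB.1, fun hxi => hx.2 ?_⟩
      rw [hB, interior_inter]
      exact ⟨hxi, mem_interior.2 ⟨S', hS'S, hS'op, hxS⟩⟩
    · right
      refine ⟨hxB, ?_⟩
      by_contra hcon2
      simp only [mem_ofPred_eq, not_or] at hcon2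
      exact hxS ⟨lt_of_le_of_ne hxB.2.1 (Ne.symm hcon2.1), lt_of_le_of_ne hxB.2.2 hcon2.2⟩
  have hlow : μH[1] (frontier K' ∩ S') + μH[1] R ≤ μH[1] (frontier A) := by
    rw [← measure_union _ hRm]
    · refine measure_mono ?_
      rintro x (⟨hx, hxS⟩ | ⟨⟨hxK, hxS⟩, hor⟩)
      · refine ⟨subset_closure ⟨hK'cl.frontier_subset hx, hS'S hxS⟩, fun hxi => hx.2 ?_⟩
        exact interior_mono inter_subset_left hxi
      · refine ⟨subset_closure ⟨?_, hxS⟩, fun hxi => ?_⟩
        · change -x ∈ K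
          rw [hle, hSeq x hxS hor]; exact (hle x).1 hxK
        · have h1 := hSint x (interior_mono inter_subset_right hxi)
          rcases hor with h | h
          · exact h1.1.ne' h
          · exact h1.2.ne h
    · rw [Set.disjoint_left]
      rintro x ⟨-, hxS⟩ ⟨-, hor⟩
      rcases hor with h | h
      · exact hxS.1.ne' h
      · exact hxS.2.ne h
  have hlt : μH[1] (frontier K' ∩ S') < μH[1] (frontier K ∩ S') :=
    lt_of_add_lt_add_right ((hlow.trans_lt hstrict).trans_le hup)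
  have hneg : μH[1] (frontier K' ∩ S') = μH[1] (frontier K ∩ {x | ⟪ν₁, x⟫ < 0 ∧ 0 < ⟪ν₂, x⟫}) := by
    have : frontier K' ∩ S' =
        (IsometryEquiv.neg E2) '' (frontier K ∩ {x | ⟪ν₁, x⟫ < 0 ∧ 0 < ⟪ν₂, x⟫}) := by
      ext x
      constructor
      · rintro ⟨hx, hxS⟩
        refine ⟨-x, ⟨?_, ?_⟩, by simp⟩
        · rw [hK', ← Set.image_neg_eq_neg] at hx
          have := (Homeomorph.neg E2).image_frontier K
          simp only [Homeomorph.coe_neg] at this
          rw [← this] at hx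
          obtain ⟨y, hy, rfl⟩ := hx
          simpa using hy
        · simp only [mem_ofPred_eq, inner_neg_right]
          exact ⟨by linarith [hxS.1], by linarith [hxS.2]⟩
      · rintro ⟨y, ⟨hy, hyS⟩, rfl⟩
        refine ⟨?_, ?_⟩
        · rw [hK', ← Set.image_neg_eq_neg]
          have := (Homeomorph.neg E2).image_frontier K
          simp only [Homeomorph.coe_neg] at this
          rw [← this]
          exact ⟨y, hy, rfl⟩
        · change 0 < ⟪ν₁, -y⟫ ∧ ⟪ν₂, -y⟫ < 0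
          rw [inner_neg_right, inner_neg_right]
          exact ⟨by linarith [hyS.1], by linarith [hyS.2]⟩
    rw [this, IsometryEquiv.hausdorffMeasure_image]
  rw [hneg, ← opposite_arcs hK hKc h0 hbis hν10 hν20] at hlt
  exact lt_irrefl _ hlt

/-- a point all of whose lines bisect the perimeter is an interior point -/
lemma mem_interior_of_bisect {K : Set E2} (hK : IsCompact K) (hKc : Convex ℝ K)
    (hKi : (interior K).Nonempty) (O : E2)
    (hbis : ∀ u : E2, u ≠ 0 → μH[1] (frontier K ∩ {x | 0 < ⟪u, x - O⟫}) =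
      μH[1] (frontier K ∩ {x | ⟪u, x - O⟫ < 0})) : O ∈ interior K := by
  by_contra hO
  obtain ⟨ν, hν0, hν⟩ := exists_normal hKc hKi hO
  have h1 : frontier K ∩ {x | 0 < ⟪ν, x - O⟫} = ∅ := by
    ext x
    simp only [mem_inter_iff, mem_ofPred_eq, mem_empty_iff_false, iff_false, not_and, not_lt]
    intro hx
    exact hν x (hK.isClosed.frontier_subset hx)
  have h2 := hbis ν hν0
  rw [h1, measure_empty] at h2
  obtain ⟨a₀, ha₀⟩ := hKi
  have hn : 0 < ‖ν‖ := norm_pos_iff.2 hν0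
  -- a small segment below `a₀`
  have hT : Filter.Tendsto (fun t : ℝ => a₀ + (-t) • ν) (𝓝 0) (𝓝 a₀) := by
    have : Filter.Tendsto (fun t : ℝ => a₀ + (-t) • ν) (𝓝 0) (𝓝 (a₀ + (-(0:ℝ)) • ν)) :=
      (by fun_prop : Continuous (fun t : ℝ => a₀ + (-t) • ν)).tendsto 0
    rwa [neg_zero, zero_smul, add_zero] at this
  obtain ⟨δ, hδ, hball⟩ := Metric.eventually_nhds_iff.1
    (hT.eventually (mem_interior_iff_mem_nhds.1 ha₀))
  have h3 : Ioo (⟪ν, a₀⟫ - δ / 2 * ‖ν‖ ^ 2) ⟪ν, a₀⟫ ⊆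
      (fun x : E2 => ⟪ν, x⟫) '' (frontier K ∩ {x | ⟪ν, x - O⟫ < 0}) := by
    intro v hv
    set t : ℝ := (⟪ν, a₀⟫ - v) / ‖ν‖ ^ 2 with ht
    have ht0 : 0 < t := div_pos (by linarith [hv.2]) (by positivity)
    have htδ : t < δ / 2 := by
      rw [ht, div_lt_iff₀ (by positivity)]; linarith [hv.1]
    have hx : a₀ + (-t) • ν ∈ K := hball (by
      rw [Real.dist_eq, sub_zero, abs_of_pos ht0]; linarith)
    have hval : ⟪ν, a₀ + (-t) • ν⟫ = v := by
      rw [inner_add_right, inner_smul_right, real_inner_self_eq_norm_sq, ht]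
      field_simp; ring
    obtain ⟨s, -, hs⟩ := exists_exit hK.isBounded (J_ne_zero hν0) hx
    have hJ : ⟪ν, J ν⟫ = 0 := by rw [real_inner_comm, inner_J]; ring
    refine ⟨_, ⟨hs, ?_⟩, ?_⟩
    · have h5 := hν a₀ (interior_subset ha₀)
      simp only [mem_ofPred_eq]
      rw [inner_sub_right, inner_add_right, hval, inner_smul_right, hJ, mul_zero, add_zero]
      rw [inner_sub_right] at h5
      linarith [hv.2]
    · simp only
      rw [inner_add_right, hval, inner_smul_right, hJ, mul_zero, add_zero]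
  have h4 := (innerSL ℝ ν).lipschitz.hausdorffMeasure_image_le (d := 1) zero_le_one
    (frontier K ∩ {x | ⟪ν, x - O⟫ < 0})
  rw [← h2, mul_zero] at h4
  have h5 : μH[1] (Ioo (⟪ν, a₀⟫ - δ / 2 * ‖ν‖ ^ 2) ⟪ν, a₀⟫) ≤ 0 :=
    (measure_mono h3).trans h4
  rw [hausdorffMeasure_real, Real.volume_Ioo, nonpos_iff_eq_zero, ENNReal.ofReal_eq_zero] at h5
  have : 0 < δ / 2 * ‖ν‖ ^ 2 := by positivity
  linarith

/-- **Klamkin's problem.** -/
theorem klamkin {K : Set E2} (hK : IsCompact K) (hKc : Convex ℝ K)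
    (hKi : (interior K).Nonempty) (O : E2)
    (hbis : ∀ u : E2, u ≠ 0 → μH[1] (frontier K ∩ {x | 0 < ⟪u, x - O⟫}) =
      μH[1] (frontier K ∩ {x | ⟪u, x - O⟫ < 0})) :
    (fun x => (2 : ℝ) • O - x) '' frontier K = frontier K := by
  have hO := mem_interior_of_bisect hK hKc hKi O hbis
  -- translate
  let τ : E2 ≃ᵢ E2 := IsometryEquiv.addRight (-O)
  set K₀ : Set E2 := τ '' K with hK₀
  have hfr : frontier K₀ = τ '' frontier K := by
    rw [hK₀]; exact (τ.toHomeomorph.image_frontier K).symm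
  have hint : interior K₀ = τ '' interior K := by
    rw [hK₀]; exact (τ.toHomeomorph.image_interior K).symm
  have h1 : IsCompact K₀ := hK.image τ.continuous
  have h2 : Convex ℝ K₀ := by
    have : K₀ = (fun x => x + (-O)) '' K := rfl
    rw [this]
    have h3 := hKc.translate (-O)
    simpa [add_comm] using h3
  have h3 : (0 : E2) ∈ interior K₀ := by
    rw [hint]; exact ⟨O, hO, by simp [τ]⟩
  have hset : ∀ (P : E2 → Prop), frontier K₀ ∩ {x | P x} =
      τ '' (frontier K ∩ {x | P (x - O)}) := by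
    intro P
    rw [hfr]
    ext x
    constructor
    · rintro ⟨⟨y, hy, rfl⟩, hP⟩
      refine ⟨y, ⟨hy, ?_⟩, rfl⟩
      simpa [τ, sub_eq_add_neg] using hP
    · rintro ⟨y, ⟨hy, hP⟩, rfl⟩
      refine ⟨⟨y, hy, rfl⟩, ?_⟩
      simpa [τ, sub_eq_add_neg] using hP
  have hbis' : ∀ u : E2, u ≠ 0 → μH[1] (frontier K₀ ∩ {x | 0 < ⟪u, x⟫}) =
      μH[1] (frontier K₀ ∩ {x | ⟪u, x⟫ < 0}) := by
    intro u hu
    rw [hset (fun x => 0 < ⟪u, x⟫), hset (fun x => ⟪u, x⟫ < 0),
      IsometryEquiv.hausdorffMeasure_image, IsometryEquiv.hausdorffMeasure_image]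
    exact hbis u hu
  have hsymm : ∀ x, gauge K₀ (-x) = gauge K₀ x := fun x =>
    le_antisymm (gauge_symm h1 h2 h3 hbis' x)
      (by have := gauge_symm h1 h2 h3 hbis' (-x); rwa [neg_neg] at this)
  have hK0 : K₀ ∈ 𝓝 (0 : E2) := mem_interior_iff_mem_nhds.1 h3
  have hfs : ∀ x, x ∈ frontier K₀ → -x ∈ frontier K₀ := by
    intro x hx
    rw [← gauge_eq_one_iff_mem_frontier h2 hK0] at hx ⊢
    rw [hsymm, hx]
  have key : ∀ x ∈ frontier K, (2 : ℝ) • O - x ∈ frontier K := by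
    intro x hx
    have hx' : τ x ∈ frontier K₀ := by rw [hfr]; exact ⟨x, hx, rfl⟩
    have := hfs _ hx'
    rw [hfr] at this
    obtain ⟨y, hy, hyx⟩ := this
    have : y = (2 : ℝ) • O - x := by
      simp only [τ, IsometryEquiv.addRight_apply] at hyx
      have h6 : y = -(x + -O) + O := by rw [← hyx]; abel
      rw [h6, two_smul]; abel
    rw [← this]; exact hy
  apply Subset.antisymm
  · rintro _ ⟨x, hx, rfl⟩
    exact key x hx
  · intro x hx
    exact ⟨_, key x hx, by simp⟩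

end Pool.Agent.T63.Klamkin
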