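import Mathlib

set_option autoImplicit false

/-! Perimeter (one-dimensional Hausdorff measure of the boundary) of planar convex bodies:
finiteness and strict monotonicity. -/

open MeasureTheory Set Metric Topology
open scoped RealInnerProductSpace ENNReal

namespace Pool.Agent.T63.Klamkin

/-- the Euclidean plane -/
abbrev E2 := EuclideanSpace ℝ (Fin 2)

/-- moving points outwards along normals does not decrease the length -/
lemma expand (U V : Set E2)
    (h : ∀ x ∈ U, ∃ y ∈ V, ∃ ν : E2, y = x + ν ∧ ∀ z ∈ U, ⟪ν, z - x⟫ ≤ 0) :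
    μH[1] U ≤ μH[1] V := by
  choose! ψ hψV ν hψ hν using h
  let f : U → E2 := fun x => ψ x
  have hf : AntilipschitzWith 1 f := by
    refine AntilipschitzWith.of_le_mul_dist ?_
    rintro ⟨x, hx⟩ ⟨x', hx'⟩
    simp only [f, NNReal.coe_one, one_mul]
    change dist x x' ≤ dist (ψ x) (ψ x')
    rw [dist_eq_norm, dist_eq_norm, hψ x hx, hψ x' hx']
    have h1 := hν x hx x' hx'
    have h2 := hν x' hx' x hx
    have h3 : ‖x - x'‖ ^ 2 ≤ ⟪x + ν x - (x' + ν x'), x - x'⟫ := by
      have e1 : x + ν x - (x' + ν x') = (x - x') + ν x - ν x' := by abel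
      rw [e1, inner_sub_left, inner_add_left, real_inner_self_eq_norm_sq]
      have e2 : x' - x = -(x - x') := by abel
      rw [e2, inner_neg_right] at h1
      linarith
    have h4 := real_inner_le_norm (x + ν x - (x' + ν x')) (x - x')
    by_cases h0 : ‖x - x'‖ = 0
    · rw [h0]; positivity
    · have h5 : 0 < ‖x - x'‖ := lt_of_le_of_ne (norm_nonneg _) (Ne.symm h0)
      nlinarith
  have h1 := hf.le_hausdorffMeasure_image zero_le_one univ
  have h2 : μH[1] (univ : Set U) = μH[1] U := by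
    rw [← isometry_subtype_coe.hausdorffMeasure_image (Or.inl zero_le_one)]
    simp
  rw [h2] at h1
  simp only [ENNReal.coe_one, ENNReal.one_rpow, one_mul, image_univ] at h1
  refine h1.trans (measure_mono ?_)
  rintro _ ⟨⟨x, hx⟩, rfl⟩
  exact hψV x hx

/-- supporting line -/
lemma exists_normal {A : Set E2} (hA : Convex ℝ A) (hAi : (interior A).Nonempty) {x : E2}
    (hx : x ∉ interior A) : ∃ ν : E2, ν ≠ 0 ∧ ∀ z ∈ A, ⟪ν, z - x⟫ ≤ 0 := by
  obtain ⟨f, hf⟩ := geometric_hahn_banach_open_point hA.interior isOpen_interior hx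
  refine ⟨(InnerProductSpace.toDual ℝ E2).symm f, ?_, ?_⟩
  · intro h0
    obtain ⟨a, ha⟩ := hAi
    have := hf a ha
    have hf0 : f = 0 := by
      have := congrArg (InnerProductSpace.toDual ℝ E2) h0
      simpa using this
    rw [hf0] at this
    simp at this
  · intro z hz
    rw [InnerProductSpace.toDual_symm_apply]
    have hz' : z ∈ closure (interior A) := by
      rw [hA.closure_interior_eq_closure_of_nonempty_interior hAi]
      exact subset_closure hz
    have hcl : closure (interior A) ⊆ {z | f z ≤ f x} := by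
      apply closure_minimal
      · intro a ha; exact (hf a ha).le
      · exact isClosed_le f.continuous continuous_const
    have := hcl hz'
    simp only [mem_ofPred_eq] at this
    rw [map_sub]; linarith

lemma frontier_of_preconnected {s B : Set E2} (hs : IsPreconnected s) (h1 : (s ∩ B).Nonempty)
    (h2 : (s ∩ Bᶜ).Nonempty) : (s ∩ frontier B).Nonempty := by
  by_contra hne
  rw [Set.not_nonempty_iff_eq_empty] at hne
  have hcov : s ⊆ interior B ∪ (closure B)ᶜ := by
    intro x hx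
    by_contra hx2
    simp only [mem_union, mem_compl_iff, not_or, not_not] at hx2
    have : x ∈ s ∩ frontier B := ⟨hx, hx2.2, hx2.1⟩
    rw [hne] at this
    exact this
  have h3 : (s ∩ interior B).Nonempty := by
    obtain ⟨x, hx, hxB⟩ := h1
    rcases hcov hx with h | h
    · exact ⟨x, hx, h⟩
    · exact absurd (subset_closure hxB) h
  have h4 : (s ∩ (closure B)ᶜ).Nonempty := by
    obtain ⟨x, hx, hxB⟩ := h2
    rcases hcov hx with h | h
    · exact absurd (interior_subset h) hxB
    · exact ⟨x, hx, h⟩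
  obtain ⟨x, -, hx1, hx2⟩ := hs _ _ isOpen_interior isClosed_closure.isOpen_compl hcov h3 h4
  exact hx2 (subset_closure (interior_subset hx1))

/-- exit point of a ray from a bounded set -/
lemma exists_exit {B : Set E2} (hB : Bornology.IsBounded B) {x ν : E2} (hν : ν ≠ 0)
    (hx : x ∈ B) : ∃ t : ℝ, 0 ≤ t ∧ x + t • ν ∈ frontier B := by
  have hc : IsPreconnected ((fun t : ℝ => x + t • ν) '' Ici 0) :=
    isPreconnected_Ici.image _ (by fun_prop)
  have h1 : ((fun t : ℝ => x + t • ν) '' Ici 0 ∩ B).Nonempty := ⟨x, ⟨0, by simp, by simp⟩, hx⟩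
  have h2 : ((fun t : ℝ => x + t • ν) '' Ici 0 ∩ Bᶜ).Nonempty := by
    obtain ⟨R, hR⟩ := hB.subset_closedBall x
    have hn : 0 < ‖ν‖ := norm_pos_iff.2 hν
    refine ⟨x + ((|R| + 1) / ‖ν‖) • ν, ⟨(|R| + 1) / ‖ν‖, by
      simp only [mem_Ici]; positivity, rfl⟩, fun hmem => ?_⟩
    have h3 := hR hmem
    rw [mem_closedBall, dist_eq_norm, add_sub_cancel_left, norm_smul, Real.norm_eq_abs,
      abs_of_nonneg (by positivity), div_mul_cancel₀ _ hn.ne'] at h3
    have := le_abs_self R
    linarith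
  obtain ⟨y, ⟨t, ht, rfl⟩, hy⟩ := frontier_of_preconnected hc h1 h2
  exact ⟨t, ht, hy⟩

/-- **Comparison lemma.** -/
lemma frontier_sdiff_le {A B : Set E2} (hA : Convex ℝ A) (hAi : (interior A).Nonempty)
    (hAc : IsClosed A) (hB : Bornology.IsBounded B) (hAB : A ⊆ B) :
    μH[1] (frontier A \ frontier B) ≤ μH[1] (frontier B \ A) := by
  refine expand _ _ ?_
  rintro x ⟨hx, hxB⟩
  have hxA : x ∈ A := hAc.frontier_subset hx
  obtain ⟨ν, hν0, hν⟩ := exists_normal hA hAi hx.2
  obtain ⟨t, ht, hy⟩ := exists_exit hB hν0 (hAB hxA)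
  have ht0 : 0 < t := by
    rcases ht.lt_or_eq with h | h
    · exact h
    · rw [← h] at hy; simp at hy; exact absurd hy hxB
  refine ⟨x + t • ν, ⟨hy, fun hmem => ?_⟩, t • ν, rfl, ?_⟩
  · have h1 := hν _ hmem
    rw [add_sub_cancel_left, inner_smul_right, real_inner_self_eq_norm_sq] at h1
    have : 0 < ‖ν‖ := norm_pos_iff.2 hν0
    have : 0 < t * ‖ν‖ ^ 2 := by positivity
    linarith
  · rintro z ⟨hz, -⟩
    rw [inner_smul_left]
    have h1 := hν z (hAc.frontier_subset hz)
    simp only [conj_trivial]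
    nlinarith

/-- monotonicity of the perimeter -/
lemma frontier_le {A B : Set E2} (hA : Convex ℝ A) (hAi : (interior A).Nonempty)
    (hAc : IsClosed A) (hB : Bornology.IsBounded B) (hAB : A ⊆ B) :
    μH[1] (frontier A) ≤ μH[1] (frontier B) := by
  have h1 := frontier_sdiff_le hA hAi hAc hB hAB
  calc μH[1] (frontier A) = μH[1] (frontier A ∩ frontier B) + μH[1] (frontier A \ frontier B) :=
        (measure_inter_add_sdiff _ isClosed_frontier.measurableSet).symm
    _ ≤ μH[1] (frontier B ∩ A) + μH[1] (frontier B \ A) := by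
        refine add_le_add (measure_mono ?_) h1
        intro x hx
        exact ⟨hx.2, hAc.frontier_subset hx.1⟩
    _ = μH[1] (frontier B) := measure_inter_add_sdiff _ hAc.measurableSet

/-- a circle has finite length -/
lemma sphere_finite (R : ℝ) : μH[1] (sphere (0 : E2) R) < ⊤ := by
  let L : ℂ ≃ₗᵢ[ℝ] E2 := Complex.orthonormalBasisOneI.repr
  have hsub : sphere (0 : E2) R ⊆ (fun t : ℝ => L (circleMap 0 R t)) '' Ioc 0 (2 * Real.pi) := by
    intro y hy
    have hR : 0 ≤ R := by
      rw [mem_sphere, dist_zero_right] at hy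
      rw [← hy]; exact norm_nonneg _
    have h1 : L.symm y ∈ sphere (0 : ℂ) |R| := by
      rw [mem_sphere, dist_zero_right, LinearIsometryEquiv.norm_map, abs_of_nonneg hR]
      simpa using hy
    rw [← image_circleMap_Ioc] at h1
    obtain ⟨t, ht, ht2⟩ := h1
    refine ⟨t, ht, ?_⟩
    simp only [ht2, LinearIsometryEquiv.apply_symm_apply]
  have hlip : LipschitzWith (Real.nnabs R) (fun t : ℝ => L (circleMap 0 R t)) := by
    have := L.lipschitz.comp (lipschitzWith_circleMap 0 R)
    simpa [Function.comp_def] using this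
  refine lt_of_le_of_lt (measure_mono hsub) ?_
  refine lt_of_le_of_lt (hlip.hausdorffMeasure_image_le zero_le_one _) ?_
  rw [hausdorffMeasure_real, Real.volume_Ioc]
  exact ENNReal.mul_lt_top (by simp) ENNReal.ofReal_lt_top

lemma frontier_finite {A : Set E2} (hA : Convex ℝ A) (hAi : (interior A).Nonempty)
    (hAc : IsCompact A) : μH[1] (frontier A) < ⊤ := by
  obtain ⟨R, hR⟩ := hAc.isBounded.subset_closedBall (0 : E2)
  have h2 : A ⊆ closedBall (0 : E2) (|R| + 1) :=
    hR.trans (closedBall_subset_closedBall (by linarith [le_abs_self R]))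
  refine lt_of_le_of_lt (frontier_le hA hAi hAc.isClosed isBounded_closedBall h2) ?_
  rw [frontier_closedBall _ (by positivity)]
  exact sphere_finite _

lemma notMem_interior_of_support {T : Set E2} {ν x : E2} (hν : ν ≠ 0)
    (h : ∀ z ∈ T, ⟪ν, z⟫ ≤ ⟪ν, x⟫) : x ∉ interior T := by
  intro hx
  have hcont : Filter.Tendsto (fun t : ℝ => x + t • ν) (𝓝[>] 0) (𝓝 x) := by
    have : Filter.Tendsto (fun t : ℝ => x + t • ν) (𝓝 0) (𝓝 (x + (0:ℝ) • ν)) :=
      (by fun_prop : Continuous (fun t : ℝ => x + t • ν)).tendsto 0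
    rw [zero_smul, add_zero] at this
    exact this.mono_left nhdsWithin_le_nhds
  have h1 := hcont.eventually (mem_interior_iff_mem_nhds.1 hx)
  obtain ⟨t, ht, ht0⟩ := (h1.and self_mem_nhdsWithin).exists
  have h2 := h _ ht
  rw [inner_add_right, inner_smul_right, real_inner_self_eq_norm_sq] at h2
  have : 0 < ‖ν‖ := norm_pos_iff.2 hν
  have ht0' : 0 < t := ht0
  have : 0 < t * ‖ν‖ ^ 2 := by positivity
  linarith

/-- rotation by a right angle -/
noncomputable def J (v : E2) : E2 := !₂[- v 1, v 0]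

lemma inner_J (v x : E2) : ⟪J v, x⟫ = v 0 * x 1 - v 1 * x 0 := by
  simp [J, PiLp.inner_apply, Fin.sum_univ_two]
  ring

lemma J_ne_zero {v : E2} (hv : v ≠ 0) : J v ≠ 0 := by
  intro h
  apply hv
  have h0 := congrArg (fun w : E2 => w 0) h
  have h1 := congrArg (fun w : E2 => w 1) h
  simp [J] at h0 h1
  ext i
  fin_cases i
  · simpa using h1
  · simpa using h0

/-- the edge `[p, q]` of a triangle lies on its boundary -/
lemma edge_subset_frontier {p q r : E2} (hpq : p ≠ q) {T : Set E2}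
    (hT : T = convexHull ℝ {p, q, r}) : segment ℝ p q ⊆ frontier T := by
  intro x hx
  have hxT : x ∈ T := by
    rw [hT]
    refine (convex_convexHull ℝ _).segment_subset (subset_convexHull ℝ _ (by simp))
      (subset_convexHull ℝ _ (by simp)) hx
  refine ⟨subset_closure hxT, ?_⟩
  have hv : q - p ≠ 0 := sub_ne_zero.2 hpq.symm
  -- sign choice
  obtain ⟨ν, hν0, hνpq, hνr⟩ : ∃ ν : E2, ν ≠ 0 ∧ ⟪ν, q⟫ = ⟪ν, p⟫ ∧ ⟪ν, r⟫ ≤ ⟪ν, p⟫ := by
    have e1 : ⟪J (q - p), q⟫ = ⟪J (q - p), p⟫ := by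
      rw [inner_J, inner_J]; simp; ring
    rcases le_total ⟪J (q - p), r⟫ ⟪J (q - p), p⟫ with h | h
    · exact ⟨J (q - p), J_ne_zero hv, e1, h⟩
    · refine ⟨-J (q - p), neg_ne_zero.2 (J_ne_zero hv), ?_, ?_⟩
      · rw [inner_neg_left, inner_neg_left, e1]
      · rw [inner_neg_left, inner_neg_left]; linarith
  have hxp : ⟪ν, x⟫ = ⟪ν, p⟫ := by
    obtain ⟨a, b, ha, hb, hab, rfl⟩ := hx
    rw [inner_add_right, inner_smul_right, inner_smul_right, hνpq, ← add_mul, hab, one_mul]
  refine notMem_interior_of_support hν0 ?_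
  intro z hz
  rw [hxp]
  have hhalf : Convex ℝ {z : E2 | ⟪ν, z⟫ ≤ ⟪ν, p⟫} :=
    convex_halfSpace_le (innerSL ℝ ν).isLinear _
  have hsub : T ⊆ {z : E2 | ⟪ν, z⟫ ≤ ⟪ν, p⟫} := by
    rw [hT]
    refine convexHull_min ?_ hhalf
    intro w hw
    simp only [mem_insert_iff, mem_singleton_iff] at hw
    simp only [mem_ofPred_eq]
    rcases hw with rfl | rfl | rfl
    · exact le_rfl
    · exact hνpq.le
    · exact hνr
  exact hsub hz

lemma null_finite {s : Set E2} (hs : s.Finite) : μH[1] s = 0 := by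
  have := Measure.nullSingletonClass_hausdorff E2 one_pos
  exact hs.measure_zero _

/-- two sides of a triangle, without the third side -/
lemma two_sides {p q r ν : E2} {u : ℝ} (hp : ⟪ν, p⟫ = u) (hq : ⟪ν, q⟫ = u) (hr : u < ⟪ν, r⟫)
    (hpq : p ≠ q) {T : Set E2} (hT : T = convexHull ℝ {p, q, r}) :
    edist p q < μH[1] (frontier T ∩ {x | u < ⟪ν, x⟫}) := by
  have hpr : p ≠ r := by rintro rfl; linarith
  have hqr : q ≠ r := by rintro rfl; linarith
  have s1 : segment ℝ p r ⊆ frontier T := by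
    refine edge_subset_frontier (r := q) hpr ?_
    rw [hT]; congr 1; ext w; simp; tauto
  have s2 : segment ℝ q r ⊆ frontier T := by
    refine edge_subset_frontier (r := p) hqr ?_
    rw [hT]; congr 1; ext w; simp; tauto
  have hpos : ∀ {a : E2}, ⟪ν, a⟫ = u → ∀ x ∈ segment ℝ a r, x ≠ a → u < ⟪ν, x⟫ := by
    rintro a ha x ⟨c, d, hc, hd, hcd, rfl⟩ hne
    rw [inner_add_right, inner_smul_right, inner_smul_right, ha]
    have hd0 : 0 < d := by
      rcases hd.lt_or_eq with h | h
      · exact h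
      · exfalso; apply hne; subst h; simp at hcd; subst hcd; simp
    have : c = 1 - d := by linarith
    subst this
    nlinarith
  have hinter : segment ℝ p r ∩ segment ℝ q r ⊆ {r} := by
    rintro x ⟨⟨c, d, hc, hd, hcd, rfl⟩, ⟨c', d', hc', hd', hcd', he⟩⟩
    have h1 := congrArg (fun w => ⟪ν, w⟫) he
    simp only [inner_add_right, inner_smul_right, hp, hq] at h1
    have hc1 : c = 1 - d := by linarith
    have hc1' : c' = 1 - d' := by linarith
    subst hc1; subst hc1'
    have hdd : d = d' := by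
      have : (d' - d) * (⟪ν, r⟫ - u) = 0 := by ring_nf; ring_nf at h1; linarith
      rcases mul_eq_zero.1 this with h | h <;> linarith
    subst hdd
    have h2 : (1 - d) • (q - p) = 0 := by
      have : (1 - d) • q + d • r - ((1 - d) • p + d • r) = 0 := by rw [he]; simp
      rw [smul_sub]; rw [← this]; abel
    rcases smul_eq_zero.1 h2 with h | h
    · have : d = 1 := by linarith
      subst this; simp
    · exact absurd (sub_eq_zero.1 h).symm hpq
  have hfirst : edist p q < edist p r + edist r q := by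
    have h3 : dist p q < dist p r + dist r q := by
      refine lt_of_le_of_ne (dist_triangle _ _ _) fun h => ?_
      have hw : Wbtw ℝ p r q := dist_add_dist_eq_iff.1 h.symm
      rw [← mem_segment_iff_wbtw] at hw
      obtain ⟨c, d, hc, hd, hcd, hx⟩ := hw
      rw [← hx, inner_add_right, inner_smul_right, inner_smul_right, hp, hq, ← add_mul, hcd,
        one_mul] at hr
      exact lt_irrefl _ hr
    rw [edist_dist, edist_dist, edist_dist, ← ENNReal.ofReal_add dist_nonneg dist_nonneg]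
    exact (ENNReal.ofReal_lt_ofReal_iff (lt_of_le_of_lt dist_nonneg h3)).2 h3
  refine lt_of_lt_of_le hfirst ?_
  rw [edist_comm r q, ← hausdorffMeasure_segment p r, ← hausdorffMeasure_segment q r]
  have hm1 : MeasurableSet (segment ℝ p r) := by
    have : IsCompact (segment ℝ p r) := by
      rw [segment_eq_image_lineMap]
      exact isCompact_Icc.image (AffineMap.lineMap_continuous)
    exact this.isClosed.measurableSet
  have e1 : μH[1] (segment ℝ p r) = μH[1] (segment ℝ p r \ {p}) := by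
    rw [measure_sdiff_null (null_finite (Set.toFinite _))]
  have e2 : μH[1] (segment ℝ q r) = μH[1] (segment ℝ q r \ {q, r}) := by
    rw [measure_sdiff_null (null_finite (Set.toFinite _))]
  rw [e1, e2, ← measure_union']
  · refine measure_mono ?_
    rintro x (⟨hx, hx2⟩ | ⟨hx, hx2⟩)
    · exact ⟨s1 hx, hpos hp x hx hx2⟩
    · exact ⟨s2 hx, hpos hq x hx (fun h => hx2 (by simp [h]))⟩
  · rw [Set.disjoint_left]
    rintro x ⟨hx, hx2⟩ ⟨hx3, hx4⟩
    exact hx4 (by have := hinter ⟨hx, hx3⟩; simp at this; simp [this])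
  · exact hm1.diff (measurableSet_singleton _)

/-- a line section of a compact set is contained in a segment between two of its points -/
lemma section_segment {B : Set E2} (hB : IsCompact B) {ν : E2} (hν : ν ≠ 0) {u : ℝ}
    (hne : (B ∩ {x | ⟪ν, x⟫ = u}).Nonempty) :
    ∃ y₁ ∈ B ∩ {x | ⟪ν, x⟫ = u}, ∃ y₂ ∈ B ∩ {x | ⟪ν, x⟫ = u},
      B ∩ {x | ⟪ν, x⟫ = u} ⊆ segment ℝ y₁ y₂ := by
  have hc : IsCompact (B ∩ {x | ⟪ν, x⟫ = u}) :=
    hB.inter_right (isClosed_eq (by fun_prop) continuous_const)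
  obtain ⟨y₁, h1, hmin⟩ := hc.exists_isMinOn hne
    (f := fun x => ⟪J ν, x⟫) (by fun_prop)
  obtain ⟨y₂, h2, hmax⟩ := hc.exists_isMaxOn hne
    (f := fun x => ⟪J ν, x⟫) (by fun_prop)
  refine ⟨y₁, h1, y₂, h2, fun x hx => ?_⟩
  have hmin' : ⟪J ν, y₁⟫ ≤ ⟪J ν, x⟫ := hmin hx
  have hmax' : ⟪J ν, x⟫ ≤ ⟪J ν, y₂⟫ := hmax hx
  have hinj : ∀ z : E2, ⟪ν, z⟫ = 0 → ⟪J ν, z⟫ = 0 → z = 0 := by
    intro z hz1 hz2
    rw [inner_J] at hz2
    simp only [PiLp.inner_apply, Fin.sum_univ_two, RCLike.inner_apply, conj_trivial] at hz1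
    have hn : 0 < ν 0 ^ 2 + ν 1 ^ 2 := by
      by_contra hcon
      apply hν
      have a0 : ν 0 = 0 := by nlinarith [sq_nonneg (ν 0), sq_nonneg (ν 1)]
      have a1 : ν 1 = 0 := by nlinarith [sq_nonneg (ν 0), sq_nonneg (ν 1)]
      ext i; fin_cases i
      · simpa using a0
      · simpa using a1
    have e0 : (ν 0 ^ 2 + ν 1 ^ 2) * z 0 = 0 := by linear_combination ν 0 * hz1 - ν 1 * hz2
    have e1 : (ν 0 ^ 2 + ν 1 ^ 2) * z 1 = 0 := by linear_combination ν 1 * hz1 + ν 0 * hz2
    ext i; fin_cases i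
    · simpa [hn.ne'] using e0
    · simpa [hn.ne'] using e1
  rcases (hmin'.trans hmax').lt_or_eq with hlt | heq
  · set g1 := ⟪J ν, y₁⟫ with hg1
    set g2 := ⟪J ν, y₂⟫ with hg2
    set g := ⟪J ν, x⟫ with hg
    refine ⟨(g2 - g) / (g2 - g1), (g - g1) / (g2 - g1), by
      apply div_nonneg <;> linarith, by apply div_nonneg <;> linarith, by
      rw [← add_div]; rw [div_eq_one_iff_eq (by linarith)]; ring, ?_⟩
    have hd : g2 - g1 ≠ 0 := by linarith
    have hf1 : ⟪ν, y₁⟫ = u := h1.2
    have hf2 : ⟪ν, y₂⟫ = u := h2.2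
    have hf : ⟪ν, x⟫ = u := hx.2
    refine sub_eq_zero.1 (hinj _ ?_ ?_)
    · rw [inner_sub_right, inner_add_right, inner_smul_right, inner_smul_right, hf1, hf2, hf]
      field_simp
      ring
    · rw [inner_sub_right, inner_add_right, inner_smul_right, inner_smul_right, ← hg1, ← hg2,
        ← hg]
      field_simp
      ring
  · have : x = y₁ := by
      refine sub_eq_zero.1 (hinj _ ?_ ?_)
      · have hf1 : ⟪ν, y₁⟫ = u := h1.2
        have hf : ⟪ν, x⟫ = u := hx.2
        rw [inner_sub_right, hf1, hf, sub_self]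
      · rw [inner_sub_right]; linarith
    rw [this]
    exact left_mem_segment ℝ _ _

/-- **Strict monotonicity of the perimeter.** -/
lemma frontier_lt {A B : Set E2} (hA : Convex ℝ A) (hAi : (interior A).Nonempty)
    (hAc : IsClosed A) (hB : Convex ℝ B) (hBc : IsCompact B) (hAB : A ⊆ B) (hne : A ≠ B) :
    μH[1] (frontier A) < μH[1] (frontier B) := by
  obtain ⟨b, hbB, hbA⟩ : ∃ b ∈ B, b ∉ A := by
    by_contra hcon
    push Not at hcon
    exact hne (hAB.antisymm hcon)
  obtain ⟨f, u, hfu, hub⟩ := geometric_hahn_banach_closed_point hA hAc hbA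
  set ν : E2 := (InnerProductSpace.toDual ℝ E2).symm f with hνdef
  have hfν : ∀ x, f x = ⟪ν, x⟫ := fun x => by
    rw [hνdef, InnerProductSpace.toDual_symm_apply]
  have hAu : ∀ a ∈ A, ⟪ν, a⟫ < u := fun a ha => by rw [← hfν]; exact hfu a ha
  have hbu : u < ⟪ν, b⟫ := by rw [← hfν]; exact hub
  obtain ⟨a₀, ha₀⟩ := hAi
  have hν0 : ν ≠ 0 := by
    intro h0
    have h1 := hAu a₀ (interior_subset ha₀)
    rw [h0] at h1 hbu
    simp at h1 hbu
    linarith
  have hcont : Continuous fun x : E2 => ⟪ν, x⟫ := by fun_prop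
  -- two distinct points of `B` on the line
  have htwo : ∃ p ∈ B ∩ {x | ⟪ν, x⟫ = u}, ∃ q ∈ B ∩ {x | ⟪ν, x⟫ = u}, p ≠ q := by
    have hw : J ν ≠ 0 := J_ne_zero hν0
    have hνw : ⟪ν, J ν⟫ = 0 := by
      rw [real_inner_comm, inner_J]; ring
    have hT : Filter.Tendsto (fun t : ℝ => a₀ + t • J ν) (𝓝[>] 0) (𝓝 a₀) := by
      have : Filter.Tendsto (fun t : ℝ => a₀ + t • J ν) (𝓝 0) (𝓝 (a₀ + (0:ℝ) • J ν)) :=
        (by fun_prop : Continuous (fun t : ℝ => a₀ + t • J ν)).tendsto 0
      rw [zero_smul, add_zero] at this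
      exact this.mono_left nhdsWithin_le_nhds
    obtain ⟨t, ht, ht0⟩ :=
      ((hT.eventually (mem_interior_iff_mem_nhds.1 ha₀)).and self_mem_nhdsWithin).exists
    have ht0' : (0 : ℝ) < t := ht0
    have haA : a₀ ∈ A := interior_subset ha₀
    set s : ℝ := (u - ⟪ν, a₀⟫) / (⟪ν, b⟫ - ⟪ν, a₀⟫) with hs
    have h1 := hAu a₀ haA
    have hden : 0 < ⟪ν, b⟫ - ⟪ν, a₀⟫ := by linarith
    have hs0 : 0 < s := div_pos (by linarith) hden
    have hs1 : s < 1 := by rw [hs, div_lt_one hden]; linarith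
    have hsu : (1 - s) * ⟪ν, a₀⟫ + s * ⟪ν, b⟫ = u := by
      rw [hs]; field_simp; ring
    refine ⟨(1 - s) • a₀ + s • b, ⟨hB (hAB haA) hbB (by linarith) hs0.le (by ring), ?_⟩,
      (1 - s) • (a₀ + t • J ν) + s • b, ⟨hB (hAB ht) hbB (by linarith) hs0.le (by ring), ?_⟩, ?_⟩
    · simp only [mem_ofPred_eq, inner_add_right, inner_smul_right]; exact hsu
    · simp only [mem_ofPred_eq, inner_add_right, inner_smul_right, hνw, mul_zero, add_zero]
      exact hsu
    · intro he
      have h2 : ((1 - s) * t) • J ν = 0 := by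
        have : (1 - s) • (a₀ + t • J ν) + s • b - ((1 - s) • a₀ + s • b) = 0 := by rw [← he]; simp
        rw [smul_add, smul_smul] at this
        rw [← this]; abel
      rcases smul_eq_zero.1 h2 with h | h
      · rcases mul_eq_zero.1 h with h | h <;> linarith
      · exact hw h
  obtain ⟨p, hp, q, hq, hpq⟩ := htwo
  obtain ⟨y₁, hy1, y₂, hy2, hseg⟩ := section_segment hBc hν0 ⟨p, hp⟩
  have hy12 : y₁ ≠ y₂ := by
    rintro rfl
    have h1 := hseg hp
    have h2 := hseg hq
    rw [segment_same] at h1 h2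
    exact hpq (h1.trans h2.symm)
  have hy1u : ⟪ν, y₁⟫ = u := hy1.2
  have hy2u : ⟪ν, y₂⟫ = u := hy2.2
  -- the triangle
  set T : Set E2 := convexHull ℝ {y₁, y₂, b} with hT
  have hTi : (interior T).Nonempty := by
    have hcol : ¬ Collinear ℝ ({y₁, y₂, b} : Set E2) := by
      intro hcol
      rw [collinear_iff_of_mem (p₀ := y₁) (by simp)] at hcol
      obtain ⟨v, hv⟩ := hcol
      obtain ⟨r2, hr2⟩ := hv y₂ (by simp)
      obtain ⟨r3, hr3⟩ := hv b (by simp)
      simp only [vadd_eq_add] at hr2 hr3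
      have h2 : r2 * ⟪ν, v⟫ = 0 := by
        have := congrArg (fun w => ⟪ν, w⟫) hr2
        simp only [inner_add_right, inner_smul_right, hy1u, hy2u] at this
        linarith
      have hr20 : r2 ≠ 0 := by rintro rfl; simp at hr2; exact hy12 hr2.symm
      have hv0 : ⟪ν, v⟫ = 0 := by simpa [hr20] using h2
      have := congrArg (fun w => ⟪ν, w⟫) hr3
      simp only [inner_add_right, inner_smul_right, hy1u, hv0] at this
      linarith
    have hai : AffineIndependent ℝ ![y₁, y₂, b] := affineIndependent_iff_not_collinear_set.2 hcol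
    rw [hT, interior_convexHull_nonempty_iff_affineSpan_eq_top]
    have h3 := hai.affineSpan_eq_top_iff_card_eq_finrank_add_one.2 (by simp)
    rw [← h3]
    congr 1
    ext w; simp [eq_comm]; tauto
  have hTB : T ⊆ B := convexHull_min (by
    intro w hw
    simp only [mem_insert_iff, mem_singleton_iff] at hw
    rcases hw with rfl | rfl | rfl
    · exact hy1.1
    · exact hy2.1
    · exact hbB) hB
  have hTu : ∀ x ∈ T, u ≤ ⟪ν, x⟫ := by
    have hhalf : Convex ℝ {z : E2 | u ≤ ⟪ν, z⟫} := convex_halfSpace_ge (innerSL ℝ ν).isLinear _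
    have : T ⊆ {z : E2 | u ≤ ⟪ν, z⟫} := convexHull_min (by
      intro w hw
      simp only [mem_insert_iff, mem_singleton_iff] at hw
      simp only [mem_ofPred_eq]
      rcases hw with rfl | rfl | rfl
      · exact hy1u.ge
      · exact hy2u.ge
      · exact hbu.le) hhalf
    exact this
  have hTc : IsClosed T := by
    have : IsCompact T := (Set.toFinite ({y₁, y₂, b} : Set E2)).isCompact_convexHull ℝ
    exact this.isClosed
  have hlineT : B ∩ {x | ⟪ν, x⟫ = u} ⊆ T := hseg.trans
    ((convex_convexHull ℝ _).segment_subset (subset_convexHull ℝ _ (by simp))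
      (subset_convexHull ℝ _ (by simp)))
  -- upper part
  set Bp : Set E2 := B ∩ {x | u ≤ ⟪ν, x⟫} with hBp
  set Bm : Set E2 := B ∩ {x | ⟪ν, x⟫ ≤ u} with hBm
  have hBcl : IsClosed B := hBc.isClosed
  have hfrp : frontier Bp ⊆ (frontier B ∩ {x | u ≤ ⟪ν, x⟫}) ∪ (B ∩ {x | ⟪ν, x⟫ = u}) := by
    refine (frontier_inter_subset _ _).trans ?_
    have hcl : IsClosed {x : E2 | u ≤ ⟪ν, x⟫} := isClosed_le continuous_const hcont
    rw [hcl.closure_eq, hBcl.closure_eq]
    refine union_subset_union_right _ (inter_subset_inter_right _ ?_)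
    refine (frontier_le_subset_eq continuous_const hcont).trans ?_
    intro x hx; exact hx.symm
  have hfrm : frontier Bm ⊆ (frontier B ∩ {x | ⟪ν, x⟫ ≤ u}) ∪ (B ∩ {x | ⟪ν, x⟫ = u}) := by
    refine (frontier_inter_subset _ _).trans ?_
    have hcl : IsClosed {x : E2 | ⟪ν, x⟫ ≤ u} := isClosed_le hcont continuous_const
    rw [hcl.closure_eq, hBcl.closure_eq]
    refine union_subset_union_right _ (inter_subset_inter_right _ ?_)
    exact frontier_le_subset_eq hcont continuous_const
  have hmF : MeasurableSet {x : E2 | u < ⟪ν, x⟫} := (isOpen_lt continuous_const hcont).measurableSet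
  have hmF' : MeasurableSet {x : E2 | ⟪ν, x⟫ ≤ u} :=
    (isClosed_le hcont continuous_const).measurableSet
  have hkey : μH[1] (frontier T ∩ {x | u < ⟪ν, x⟫}) ≤ μH[1] (frontier B ∩ {x | u < ⟪ν, x⟫}) := by
    have h1 := frontier_sdiff_le (A := T) (B := Bp) (convex_convexHull ℝ _) hTi hTc
      (hBc.isBounded.subset (inter_subset_left : Bp ⊆ B)) (fun x hx => ⟨hTB hx, hTu x hx⟩)
    calc μH[1] (frontier T ∩ {x | u < ⟪ν, x⟫})
        ≤ μH[1] ((frontier B ∩ {x | u < ⟪ν, x⟫}) ∩ T) + μH[1] (frontier T \ frontier Bp) := by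
          refine (measure_mono ?_).trans (measure_union_le _ _)
          intro x hx
          by_cases hxB : x ∈ frontier Bp
          · left
            refine ⟨⟨?_, hx.2⟩, hTc.frontier_subset hx.1⟩
            rcases hfrp hxB with h | h
            · exact h.1
            · exact absurd h.2 (ne_of_gt hx.2)
          · exact Or.inr ⟨hx.1, hxB⟩
      _ ≤ μH[1] ((frontier B ∩ {x | u < ⟪ν, x⟫}) ∩ T)
          + μH[1] ((frontier B ∩ {x | u < ⟪ν, x⟫}) \ T) := by
          refine add_le_add le_rfl (h1.trans (measure_mono ?_))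
          rintro x ⟨hx, hxT⟩
          refine ⟨?_, hxT⟩
          rcases hfrp hx with h | h
          · refine ⟨h.1, lt_of_le_of_ne h.2 fun he => hxT (hlineT ⟨hBcl.frontier_subset h.1, he.symm⟩)⟩
          · exact absurd (hlineT h) hxT
      _ = μH[1] (frontier B ∩ {x | u < ⟪ν, x⟫}) := measure_inter_add_sdiff _ hTc.measurableSet
  have hstrict := (two_sides hy1u hy2u hbu hy12 hT).trans_le hkey
  have hBi : (interior B).Nonempty := ⟨a₀, interior_mono hAB ha₀⟩
  have hfin := frontier_finite hB hBi hBc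
  have hBmA : A ⊆ Bm := fun x hx => ⟨hAB hx, (hAu x hx).le⟩
  calc μH[1] (frontier A) ≤ μH[1] (frontier Bm) :=
        frontier_le hA ⟨a₀, ha₀⟩ hAc (hBc.isBounded.subset inter_subset_left) hBmA
    _ ≤ μH[1] (frontier B ∩ {x | ⟪ν, x⟫ ≤ u}) + μH[1] (segment ℝ y₁ y₂) :=
        (measure_mono (hfrm.trans (union_subset_union_right _ hseg))).trans (measure_union_le _ _)
    _ < μH[1] (frontier B ∩ {x | ⟪ν, x⟫ ≤ u}) + μH[1] (frontier B ∩ {x | u < ⟪ν, x⟫}) := by
        rw [hausdorffMeasure_segment]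
        exact ENNReal.add_lt_add_left (lt_of_le_of_lt (measure_mono inter_subset_left) hfin).ne
          hstrict
    _ = μH[1] (frontier B) := by
        rw [← measure_inter_add_sdiff (frontier B) hmF']
        congr 2
        ext x; simp

end Pool.Agent.T63.Klamkin
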